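import Pool.Agent.Helper44.BA.FinQ

/-!
# BA-1: the associated Lie ring and the group algebra
-/

namespace Helper44.BL

open Pool.Agent.Helper27.BE Pool.Agent.Helper27.BE.Gr

section rel

variable (p : ℕ) [Fact p.Prime] {G : Type} [Group G] [ExpP p G]

/-- `l` is the class of an element `g` of `γ_n(G)` and `a = g - 1` modulo `Fil (n + 1)` -/
def GRel (n : ℕ) (l : LG G) (a : MonoidAlgebra (ZMod p) G) : Prop :=
  ∃ g : gam G n, l = LG.cls n g ∧ a - dlt p G (g : G) ∈ Fil p G (n + 1)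

variable {p}

omit [ExpP p G] in
private theorem mulF {i j : ℕ} {a b : MonoidAlgebra (ZMod p) G} (ha : a ∈ Fil p G i)
    (hb : b ∈ Fil p G j) : a * b ∈ Fil p G (i + j) :=
  Pool.Agent.Helper76.BE.Fil_mul _ _ (Submodule.mul_mem_mul ha hb)

omit [ExpP p G] in
private theorem leF {i j : ℕ} (h : i ≤ j) {a : MonoidAlgebra (ZMod p) G} (ha : a ∈ Fil p G j) :
    a ∈ Fil p G i := Fil_le h ha

omit [ExpP p G] in
private theorem dltF {n : ℕ} (g : gam G n) : dlt p G (g : G) ∈ Fil p G n :=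
  Pool.Agent.Helper31.BE.dlt_gam_mem g.2

omit [Fact p.Prime] [ExpP p G] in
private theorem dlt_mul' (x y : G) :
    dlt p G (x * y) = dlt p G x + dlt p G y + dlt p G x * dlt p G y := by
  unfold dlt
  rw [map_mul]
  noncomm_ring

omit [Fact p.Prime] [ExpP p G] in
private theorem dlt_one' : dlt p G 1 = 0 := by
  unfold dlt
  rw [map_one, sub_self]

omit [ExpP p G] in
private theorem comm_eq (x y : G) :
    dlt p G x * dlt p G y - dlt p G y * dlt p G x =
      dlt p G (cm x y) + dlt p G (cm x y) * dlt p G (y * x) := by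
  have h : MonoidAlgebra.of (ZMod p) G (cm x y) * MonoidAlgebra.of (ZMod p) G (y * x) =
      MonoidAlgebra.of (ZMod p) G (x * y) := by
    rw [← map_mul]; congr 1; unfold cm; group
  have h1 : dlt p G x * dlt p G y - dlt p G y * dlt p G x =
      MonoidAlgebra.of (ZMod p) G (x * y) - MonoidAlgebra.of (ZMod p) G (y * x) := by
    unfold dlt; rw [map_mul, map_mul]; noncomm_ring
  have h2 : dlt p G (cm x y) + dlt p G (cm x y) * dlt p G (y * x) =
      MonoidAlgebra.of (ZMod p) G (cm x y) * MonoidAlgebra.of (ZMod p) G (y * x) -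
        MonoidAlgebra.of (ZMod p) G (y * x) := by
    unfold dlt; noncomm_ring
  rw [h1, h2, h]

private theorem cls_one (n : ℕ) : LG.cls n (1 : gam G n) = 0 := by
  unfold LG.cls
  rw [qq_one, map_zero]

private theorem cls_mul (n : ℕ) (g h : gam G n) : LG.cls n (g * h) = LG.cls n g + LG.cls n h := by
  unfold LG.cls
  rw [qq_mul, map_add]

theorem GRel.zero (n : ℕ) : GRel p n (0 : LG G) 0 := by
  refine ⟨1, (cls_one n).symm, ?_⟩
  rw [Subgroup.coe_one, dlt_one', sub_zero]
  exact Submodule.zero_mem _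

/-- `dlt (g h) = dlt g + dlt h + dlt g * dlt h`, the product is in `Fil (2 n)` -/
theorem GRel.add {n : ℕ} (hn : 1 ≤ n) {l l' : LG G} {a a' : MonoidAlgebra (ZMod p) G}
    (h : GRel p n l a) (h' : GRel p n l' a') : GRel p n (l + l') (a + a') := by
  obtain ⟨g, hl, ha⟩ := h
  obtain ⟨g', hl', ha'⟩ := h'
  refine ⟨g * g', by rw [cls_mul, ← hl, ← hl'], ?_⟩
  have e : a + a' - dlt p G ((g * g' : gam G n) : G) =
      (a - dlt p G (g : G)) + (a' - dlt p G (g' : G)) - dlt p G (g : G) * dlt p G (g' : G) := by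
    rw [Subgroup.coe_mul, dlt_mul']
    abel
  rw [e]
  exact Submodule.sub_mem _ (Submodule.add_mem _ ha ha') (leF (by omega) (mulF (dltF g) (dltF g')))

theorem GRel.neg {n : ℕ} (hn : 1 ≤ n) {l : LG G} {a : MonoidAlgebra (ZMod p) G}
    (h : GRel p n l a) : GRel p n (-l) (-a) := by
  obtain ⟨g, hl, ha⟩ := h
  have h1 : LG.cls n g⁻¹ = - LG.cls n g := by
    rw [eq_neg_iff_add_eq_zero, ← cls_mul, inv_mul_cancel, cls_one]
  refine ⟨g⁻¹, by rw [h1, ← hl], ?_⟩
  have h2 : dlt p G (g : G) + dlt p G ((g : G)⁻¹) + dlt p G (g : G) * dlt p G ((g : G)⁻¹) = 0 := by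
    rw [← dlt_mul', mul_inv_cancel, dlt_one']
  have e : -a - dlt p G ((g⁻¹ : gam G n) : G) =
      -(a - dlt p G (g : G)) + dlt p G (g : G) * dlt p G ((g : G)⁻¹) := by
    rw [Subgroup.coe_inv]
    have h3 : dlt p G (g : G) * dlt p G ((g : G)⁻¹) =
        - dlt p G (g : G) - dlt p G ((g : G)⁻¹) := by
      rw [← sub_eq_zero]
      rw [← h2]
      abel
    rw [h3]
    abel
  rw [e]
  have h4 : dlt p G ((g : G)⁻¹) ∈ Fil p G n := dltF g⁻¹
  exact Submodule.add_mem _ (Submodule.neg_mem _ ha) (leF (by omega) (mulF (dltF g) h4))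

private theorem GRel.nsmul {n : ℕ} (hn : 1 ≤ n) (m : ℕ) {l : LG G} {a : MonoidAlgebra (ZMod p) G}
    (h : GRel p n l a) : GRel p n (m • l) (m • a) := by
  induction m with
  | zero =>
    rw [zero_nsmul, zero_nsmul]
    exact GRel.zero n
  | succ m ih =>
    rw [succ_nsmul, succ_nsmul]
    exact GRel.add hn ih h

theorem GRel.smul {n : ℕ} (hn : 1 ≤ n) (c : ZMod p) {l : LG G} {a : MonoidAlgebra (ZMod p) G}
    (h : GRel p n l a) : GRel p n (c • l) (c • a) := by
  have h1 : ((c.val : ℕ) : ZMod p) = c := ZMod.natCast_zmod_val c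
  rw [← h1, Nat.cast_smul_eq_nsmul, Nat.cast_smul_eq_nsmul]
  exact GRel.nsmul hn _ h

theorem GRel.sum {n : ℕ} (hn : 1 ≤ n) {ι : Type} (s : Finset ι) (l : ι → LG G)
    (a : ι → MonoidAlgebra (ZMod p) G) (h : ∀ i ∈ s, GRel p n (l i) (a i)) :
    GRel p n (∑ i ∈ s, l i) (∑ i ∈ s, a i) := by
  classical
  induction s using Finset.induction_on with
  | empty =>
    rw [Finset.sum_empty, Finset.sum_empty]
    exact GRel.zero n
  | insert i s hi ih =>
    rw [Finset.sum_insert hi, Finset.sum_insert hi]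
    exact GRel.add hn (h i (Finset.mem_insert_self _ _))
      (ih fun j hj => h j (Finset.mem_insert_of_mem hj))

/-- `dlt (cm g h) = (dlt g dlt h - dlt h dlt g) (h g)⁻¹` -/
theorem GRel.lie {m n : ℕ} (hm : 1 ≤ m) (hn : 1 ≤ n) {l l' : LG G}
    {a a' : MonoidAlgebra (ZMod p) G} (h : GRel p m l a) (h' : GRel p n l' a') :
    GRel p (m + n) ⁅l, l'⁆ (a * a' - a' * a) := by
  obtain ⟨g, hl, ha⟩ := h
  obtain ⟨g', hl', ha'⟩ := h'
  have hc : cm (g : G) (g' : G) ∈ gam G (m + n) :=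
    (Pool.Agent.Helper31.BE.gamCalc G).comm m n hm hn g g.2 g' g'.2
  refine ⟨⟨_, hc⟩, ?_, ?_⟩
  · rw [hl, hl']
    exact LG.br_cls m n hm hn g g' hc
  · have hg := dltF (p := p) g
    have hg' := dltF (p := p) g'
    have hcF : dlt p G (cm (g : G) (g' : G)) ∈ Fil p G (m + n) := dltF ⟨_, hc⟩
    have h1 : dlt p G ((g' : G) * g) ∈ Fil p G 1 := dlt_mem_one _
    have e : a * a' - a' * a - dlt p G (cm (g : G) (g' : G)) =
        dlt p G (cm (g : G) (g' : G)) * dlt p G ((g' : G) * g) +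
        ((a - dlt p G (g : G)) * dlt p G (g' : G) + dlt p G (g : G) * (a' - dlt p G (g' : G)) +
          (a - dlt p G (g : G)) * (a' - dlt p G (g' : G))) -
        ((a' - dlt p G (g' : G)) * dlt p G (g : G) + dlt p G (g' : G) * (a - dlt p G (g : G)) +
          (a' - dlt p G (g' : G)) * (a - dlt p G (g : G))) := by
      have h2 := comm_eq (p := p) (g : G) (g' : G)
      have h3 : dlt p G (cm (g : G) (g' : G)) * dlt p G ((g' : G) * g) =
          dlt p G (g : G) * dlt p G (g' : G) - dlt p G (g' : G) * dlt p G (g : G) -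
            dlt p G (cm (g : G) (g' : G)) := by
        rw [h2]
        abel
      rw [h3]
      noncomm_ring
    rw [e]
    refine Submodule.sub_mem _ (Submodule.add_mem _ (mulF hcF h1) (Submodule.add_mem _
      (Submodule.add_mem _ (leF (by omega) (mulF ha hg')) (leF (by omega) (mulF hg ha')))
      (leF (by omega) (mulF ha ha')))) (Submodule.add_mem _
      (Submodule.add_mem _ (leF (by omega) (mulF ha' hg)) (leF (by omega) (mulF hg' ha)))
      (leF (by omega) (mulF ha' ha)))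

theorem GRel.mem_Fil {n : ℕ} {l : LG G} {a : MonoidAlgebra (ZMod p) G} (h : GRel p n l a) :
    a ∈ Fil p G n := by
  obtain ⟨g, hl, ha⟩ := h
  have h1 := Submodule.add_mem _ (leF (Nat.le_succ n) ha) (dltF g)
  rwa [sub_add_cancel] at h1

theorem GRel.cls {n : ℕ} (g : gam G n) : GRel p n (LG.cls n g) (dlt p G (g : G)) := by
  refine ⟨g, rfl, ?_⟩
  rw [sub_self]
  exact Submodule.zero_mem _

/-- the element vanishes if its partner has higher weight (`mem_gam_of_dlt`) -/
theorem GRel.eq_zero [Group.FG G] {n : ℕ} (hn : 1 ≤ n) {l : LG G}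
    {a : MonoidAlgebra (ZMod p) G} (h : GRel p n l a) (ha : a ∈ Fil p G (n + 1)) : l = 0 := by
  obtain ⟨g, hl, ha'⟩ := h
  have h1 : dlt p G (g : G) ∈ Fil p G (n + 1) := by
    have := Submodule.sub_mem _ ha ha'
    rwa [sub_sub_cancel] at this
  have h2 := mem_gam_of_dlt hn h1
  rw [hl]
  unfold LG.cls
  rw [(qq_zero n g hn).mpr h2, map_zero]

end rel

end Helper44.BL
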