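import Pool.Agent.Helper44.BA.KpAd
import Pool.Agent.Helper44.BA.Rel

/-!
# BA-6: the multilinear Engel identity in the associated Lie algebra
-/

namespace Helper44.BL

open Pool.Agent.Helper27.BE Pool.Agent.Helper27.BE.Gr

variable {p : ℕ} [Fact p.Prime]

/-- the filtration of the group algebra -/
noncomputable def filG (p : ℕ) [Fact p.Prime] (G : Type) [Group G] :
    Filt (ZMod p) (MonoidAlgebra (ZMod p) G) where
  F := Fil p G
  zero := Pool.Agent.Helper76.BE.Fil_zero
  anti := Pool.Agent.Helper76.BE.Fil_anti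
  mul := fun m n _ _ ha hb => Pool.Agent.Helper76.BE.Fil_mul m n (Submodule.mul_mem_mul ha hb)

variable {G : Type} [Group G] [ExpP p G]

/-- `Ksum_mem` in the group algebra: the ordered product of the `1 + dlt g_i` is the group element
`∏ g_i`, and `(x - 1)^p = x^p - 1 = 0`. Reindex with `Ksum_equiv`. -/
theorem Ksum_dlt_mem {ι : Type} [Fintype ι] [DecidableEq ι] (hι : Fintype.card ι = p)
    (g : ι → G) (w : ι → ℕ) (hw : ∀ i, 1 ≤ w i) (hg : ∀ i, g i ∈ gam G (w i)) :
    Ksum p (fun i => dlt p G (g i)) ∈ Fil p G ((∑ i, w i) + 1) := by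
  have hp : p.Prime := Fact.out
  let e : Fin p ≃ ι := (Fintype.equivFinOfCardEq hι).symm
  have h1 := Ksum_mem (filG p G) p hp.one_lt.le (fun k => dlt p G (g (e k))) (fun k => w (e k))
    (fun k => hw (e k)) (fun k => Pool.Agent.Helper31.BE.dlt_gam_mem (hg (e k))) ?_
  · rw [Ksum_equiv p e (fun i => dlt p G (g i)), Equiv.sum_comp e w] at h1
    exact h1
  · intro S
    have h2 : (fun i : Fin p => if i ∈ S then 1 + dlt p G (g (e i)) else 1) =
        fun i => MonoidAlgebra.of (ZMod p) G (if i ∈ S then g (e i) else 1) := by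
      funext i
      split_ifs
      · unfold dlt
        abel
      · rw [map_one]
    have h3 : (List.ofFn fun i : Fin p => if i ∈ S then 1 + dlt p G (g (e i)) else 1).prod =
        MonoidAlgebra.of (ZMod p) G (List.ofFn fun i => if i ∈ S then g (e i) else 1).prod := by
      rw [h2, map_list_prod, List.map_ofFn]
      rfl
    rw [h3]
    have h4 := Pool.Agent.Helper31.BE.dlt_pow (p := p)
      (List.ofFn fun i => if i ∈ S then g (e i) else 1).prod 1
    rw [pow_one, ExpP.pow_eq] at h4
    unfold dlt at h4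
    rw [← h4, map_one, sub_self]

/-- iterated brackets -/
def lie_l {L : Type} [LieRing L] : List L → L → L
  | [], b => b
  | a :: l, b => ⁅a, lie_l l b⁆

private theorem grel_iter (m : ℕ) (w : Fin m → ℕ) (hw : ∀ i, 1 ≤ w i)
    (g : ∀ i, gam G (w i)) (v : ℕ) (hv : 1 ≤ v) (h : gam G v) :
    GRel p (∑ i, w i + v) (lie_l (List.ofFn fun k => LG.cls (w k) (g k)) (LG.cls v h))
      (adl (List.ofFn fun k => dlt p G (g k : G)) (dlt p G (h : G))) := by
  induction m with
  | zero =>
    simpa [lie_l, adl] using GRel.cls (p := p) h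
  | succ m ih =>
    rw [List.ofFn_succ, List.ofFn_succ, Fin.sum_univ_succ, add_assoc]
    exact GRel.lie (hw 0) (by omega) (GRel.cls (g 0))
      (ih (fun i => w i.succ) (fun i => hw i.succ) (fun i => g i.succ))

/-- The multilinear Engel identity for homogeneous elements: by `GRel.lie`, `GRel.sum` the left side
is related to `∑ adl (dlt g_(π k)) (dlt h) = Ksum ... ∈ Fil (N + 1)` (`adl_sum`,
`Ksum_dlt_mem`), so it vanishes by `GRel.eq_zero`. -/
theorem engel_multi [Group.FG G] (n : ℕ) (hn : n + 1 = p) (w : Fin n → ℕ) (hw : ∀ i, 1 ≤ w i)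
    (g : ∀ i, gam G (w i)) (v : ℕ) (hv : 1 ≤ v) (h : gam G v) :
    ∑ π : Equiv.Perm (Fin n), lie_l (List.ofFn fun k => LG.cls (w (π k)) (g (π k)))
      (LG.cls v h) = 0 := by
  subst hn
  have hp : (n + 1).Prime := Fact.out
  have hrel : GRel (n + 1) (∑ i, w i + v)
      (∑ π : Equiv.Perm (Fin n), lie_l (List.ofFn fun k => LG.cls (w (π k)) (g (π k)))
        (LG.cls v h))
      (∑ π : Equiv.Perm (Fin n), adl (List.ofFn fun k => dlt (n + 1) G (g (π k) : G))
        (dlt (n + 1) G (h : G))) := by
    refine GRel.sum (by omega) Finset.univ _ _ fun π _ => ?_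
    have h1 := grel_iter (p := n + 1) n (fun k => w (π k)) (fun k => hw (π k))
      (fun k => g (π k)) v hv h
    rwa [Equiv.sum_comp π w] at h1
  refine GRel.eq_zero (by omega) hrel ?_
  have hA : ∀ x : MonoidAlgebra (ZMod (n + 1)) G, (n + 1) • x = 0 := by
    intro x
    rw [← Nat.cast_smul_eq_nsmul (ZMod (n + 1)) (n + 1) x, ZMod.natCast_self, zero_smul]
  rw [adl_sum n hp hA (fun i => dlt (n + 1) G (g i : G)) (dlt (n + 1) G (h : G))]
  have h2 := Ksum_dlt_mem (p := n + 1) (ι := Option (Fin n)) (by simp)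
    (fun i => i.elim (h : G) (fun i => (g i : G))) (fun i => i.elim v w)
    (fun i => by cases i with
      | none => exact hv
      | some i => exact hw i)
    (fun i => by cases i with
      | none => exact h.2
      | some i => exact (g i).2)
  rw [Fintype.sum_option] at h2
  have h3 : (fun i : Option (Fin n) => dlt (n + 1) G (i.elim (h : G) (fun i => (g i : G)))) =
      fun i => i.elim (dlt (n + 1) G (h : G)) (fun i => dlt (n + 1) G (g i : G)) := by
    funext i
    cases i <;> rfl
  rw [h3] at h2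
  simpa [add_comm] using h2

end Helper44.BL
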