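import Pool.Agent.Helper44.BA.EngelA

/-!
# BA-7: the Engel identity in the associated Lie algebra of a group of exponent `p`
-/

namespace Helper44.BL

open Pool.Agent.Helper27.BE Pool.Agent.Helper27.BE.Gr

section multi

variable {L : Type} [LieRing L]

/-- the adjoint action as an additive map -/
private def ebAd (L : Type) [LieRing L] : L →+ AddMonoid.End L :=
  AddMonoidHom.mk' (fun a => AddMonoidHom.mk' (fun z => ⁅a, z⁆) (fun x y => lie_add a x y))
    (by
      intro x y
      ext z
      exact add_lie x y z)

private theorem ebAd_apply (a z : L) : ebAd L a z = ⁅a, z⁆ := rfl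

private theorem eb_lie_l (l : List L) (b : L) : lie_l l b = ((l.map (ebAd L)).prod) b := by
  induction l with
  | nil => rfl
  | cons a l ih =>
    rw [List.map_cons, List.prod_cons]
    show ⁅a, lie_l l b⁆ = ebAd L a (((l.map (ebAd L)).prod) b)
    rw [← ih]
    rfl

/-- the product of the adjoint maps -/
private def ebPhi (L : Type) [LieRing L] (n : ℕ) :
    MultilinearMap ℤ (fun _ : Fin n => L) (AddMonoid.End L) :=
  (MultilinearMap.mkPiAlgebraFin ℤ n (AddMonoid.End L)).compLinearMap
    (fun _ => (ebAd L).toIntLinearMap)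

private theorem ebPhi_apply (n : ℕ) (a : Fin n → L) :
    ebPhi L n a = (List.ofFn fun k => ebAd L (a k)).prod := by
  unfold ebPhi
  rw [MultilinearMap.compLinearMap_apply, MultilinearMap.mkPiAlgebraFin_apply]
  rfl

private theorem ebPhi_lie (n : ℕ) (a : Fin n → L) (b : L) :
    ebPhi L n a b = lie_l (List.ofFn a) b := by
  rw [ebPhi_apply, eb_lie_l, List.map_ofFn]
  rfl

/-- the symmetrised product of the adjoint maps -/
private noncomputable def ebSym (L : Type) [LieRing L] (n : ℕ) :
    MultilinearMap ℤ (fun _ : Fin n => L) (AddMonoid.End L) :=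
  ∑ π : Equiv.Perm (Fin n), (ebPhi L n).domDomCongr π

/-- evaluation -/
private def ebEv (b : L) : AddMonoid.End L →+ L :=
  AddMonoidHom.mk' (fun f => f b) (fun _ _ => rfl)

/-- evaluation of a multilinear map -/
private def ebEvm {n : ℕ} (a : Fin n → L) :
    MultilinearMap ℤ (fun _ : Fin n => L) (AddMonoid.End L) →+ AddMonoid.End L :=
  AddMonoidHom.mk' (fun f => f a) (fun _ _ => rfl)

private theorem ebSym_apply (n : ℕ) (a : Fin n → L) (b : L) :
    ebSym L n a b = ∑ π : Equiv.Perm (Fin n), lie_l (List.ofFn fun k => a (π k)) b := by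
  have h1 : ebSym L n a = ∑ π : Equiv.Perm (Fin n), (ebPhi L n).domDomCongr π a := by
    unfold ebSym
    exact map_sum (ebEvm a) _ _
  have h2 : (∑ π : Equiv.Perm (Fin n), (ebPhi L n).domDomCongr π a) b =
      ∑ π : Equiv.Perm (Fin n), ((ebPhi L n).domDomCongr π a) b := map_sum (ebEv b) _ _
  rw [h1, h2]
  refine Finset.sum_congr rfl fun π _ => ?_
  rw [MultilinearMap.domDomCongr_apply, ebPhi_lie]

private theorem ebSym_const (n : ℕ) (a : L) (b : L) :
    ebSym L n (fun _ => a) b = n.factorial • (fun z => ⁅a, z⁆)^[n] b := by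
  rw [ebSym_apply, Finset.sum_const, Finset.card_univ, Fintype.card_perm, Fintype.card_fin]
  congr 1
  induction n with
  | zero => rfl
  | succ n ih =>
    rw [Function.iterate_succ_apply', ← ih, List.ofFn_succ]
    rfl

end multi

variable {p : ℕ} [Fact p.Prime] {G : Type} [Group G] [ExpP p G]

omit [Fact p.Prime] [ExpP p G] in
/-- a multilinear map which vanishes on homogeneous elements is zero -/
private theorem eb_multi {M : Type} [AddCommGroup M] {n : ℕ}
    (T : MultilinearMap ℤ (fun _ : Fin n => LG G) M)
    (h : ∀ (w : Fin n → ℕ) (_ : ∀ i, 1 ≤ w i) (g : ∀ i, gam G (w i)),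
      T (fun i => LG.cls (w i) (g i)) = 0) (a : Fin n → LG G) : T a = 0 := by
  classical
  have key : ∀ A : Finset (Fin n), ∀ a : Fin n → LG G,
      (∀ k, k ∉ A → ∃ w, 1 ≤ w ∧ ∃ g : gam G w, a k = LG.cls w g) → T a = 0 := by
    intro A
    induction A using Finset.induction_on with
    | empty =>
      intro a ha
      choose w hw g hg using fun k => ha k (Finset.notMem_empty k)
      have h1 := h w hw g
      rwa [← funext hg] at h1
    | insert k A hk ih =>
      intro a ha
      have h1 : ∀ x : LG G, T (Function.update a k x) = 0 := by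
        intro x
        induction x using LG.ind with
        | h0 => exact T.map_update_zero a k
        | ha x y hx hy => rw [T.map_update_add, hx, hy, add_zero]
        | hc i hi g =>
          refine ih _ fun j hj => ?_
          by_cases hjk : j = k
          · subst hjk
            rw [Function.update_self]
            exact ⟨i, hi, g, rfl⟩
          · rw [Function.update_of_ne hjk]
            exact ha j (by rw [Finset.mem_insert]; push Not; exact ⟨hjk, hj⟩)
      have h2 := h1 (a k)
      rwa [Function.update_eq_self] at h2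
  exact key Finset.univ a fun k hk => absurd (Finset.mem_univ k) hk

/-- The Engel identity: write `a` as a sum of homogeneous elements (`LG.ind`, components of index
`0` vanish), expand `(ad a)^(p-1) b` and symmetrise; `(p-1)!` is invertible. -/
theorem engel_LG [Group.FG G] (a b : LG G) : (fun z => ⁅a, z⁆)^[p - 1] b = 0 := by
  have hp : p.Prime := Fact.out
  have hn : (p - 1) + 1 = p := Nat.succ_pred_eq_of_pos hp.pos
  have h1 : ebSym (LG G) (p - 1) (fun _ => a) = 0 := by
    refine eb_multi _ (fun w hw g => ?_) _
    have h6 : ∀ b : LG G, ebSym (LG G) (p - 1) (fun i => LG.cls (w i) (g i)) b = 0 := by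
      intro b
      induction b using LG.ind with
      | h0 => rw [map_zero]
      | ha x y hx hy => rw [map_add, hx, hy, add_zero]
      | hc v hv h =>
        rw [ebSym_apply]
        exact engel_multi (p - 1) hn w hw g v hv h
    exact AddMonoidHom.ext h6
  have h2 : (p - 1).factorial • (fun z => ⁅a, z⁆)^[p - 1] b = 0 := by
    rw [← ebSym_const, h1]
    rfl
  have h3 : p • (fun z => ⁅a, z⁆)^[p - 1] b = 0 := LG.nsmul_eq_zero p _
  have h4 : Nat.Coprime p (p - 1).factorial :=
    hp.coprime_factorial_of_lt (Nat.sub_lt hp.pos Nat.one_pos)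
  have h5 : addOrderOf ((fun z => ⁅a, z⁆)^[p - 1] b) ∣ Nat.gcd p (p - 1).factorial :=
    Nat.dvd_gcd (addOrderOf_dvd_of_nsmul_eq_zero h3) (addOrderOf_dvd_of_nsmul_eq_zero h2)
  rw [Nat.Coprime.gcd_eq_one h4, Nat.dvd_one] at h5
  exact AddMonoid.addOrderOf_eq_one_iff.1 h5

/-- the Engel ideal is in the kernel of `natMap` -/
theorem engel_le_ker (p : ℕ) [Fact p.Prime] (z : FL p) (hz : z ∈ engel p) : natMap p z = 0 := by
  have h : engel p ≤ (natMap p).ker := by
    unfold engel
    rw [LieSubmodule.lieSpan_le]
    rintro z ⟨u, v, rfl⟩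
    show _ ∈ (natMap p).ker
    rw [LieHom.mem_ker]
    have h1 : ∀ n : ℕ, natMap p (((LieAlgebra.ad (ZMod p) (FL p) u) ^ n) v) =
        (fun z => ⁅natMap p u, z⁆)^[n] (natMap p v) := by
      intro n
      induction n with
      | zero => rfl
      | succ n ih =>
        rw [pow_succ', Module.End.mul_apply, LieAlgebra.ad_apply, LieHom.map_lie, ih,
          Function.iterate_succ_apply']
    rw [h1]
    exact engel_LG (p := p) _ _
  exact h hz

end Helper44.BL
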