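import Pool.Agent.Helper44.BA.Rel
import Pool.Agent.Helper44.BL.Act

/-!
# BA-3: the free Lie algebra in the group algebra
-/

namespace Helper44.BL

open Pool.Agent.Helper27.BE Pool.Agent.Helper27.BE.Gr

/-! ### The free Lie algebra in the group algebra -/

section ev

/-- The homomorphism from the free Lie algebra to the group algebra of `RB p`, as a bare function
with its properties. -/
structure Ev (p : ℕ) [Fact p.Prime] where
  E : FL p → MonoidAlgebra (ZMod p) (RB p)
  map_zero : E 0 = 0
  map_add : ∀ u v, E (u + v) = E u + E v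
  map_smul : ∀ (c : ZMod p) u, E (c • u) = c • E u
  map_lie : ∀ u v, E ⁅u, v⁆ = E u * E v - E v * E u
  map_of : ∀ a, E (FreeLieAlgebra.of (ZMod p) a) = dlt p (RB p) (gen p a)

variable {p : ℕ} [Fact p.Prime]

theorem exists_ev (p : ℕ) [Fact p.Prime] : Nonempty (Ev p) := by
  let _ : LieRing (MonoidAlgebra (ZMod p) (RB p)) := LieRing.ofAssociativeRing
  let _ : LieAlgebra (ZMod p) (MonoidAlgebra (ZMod p) (RB p)) :=
    LieAlgebra.ofAssociativeAlgebra
  let F : FL p →ₗ⁅ZMod p⁆ MonoidAlgebra (ZMod p) (RB p) :=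
    FreeLieAlgebra.lift (ZMod p) (fun a => dlt p (RB p) (gen p a))
  exact ⟨{ E := fun u => F u
           map_zero := _root_.map_zero F
           map_add := fun u v => _root_.map_add F u v
           map_smul := fun c u => _root_.map_smul F c u
           map_lie := fun u v => LieHom.map_lie F u v
           map_of := fun a => FreeLieAlgebra.lift_of_apply _ a }⟩

/-- the value as an additive homomorphism -/
private def Ev.toAdd (E : Ev p) : FL p →+ MonoidAlgebra (ZMod p) (RB p) where
  toFun := E.E
  map_zero' := E.map_zero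
  map_add' := E.map_add

private theorem Ev.map_sum' (E : Ev p) {ι : Type} (s : Finset ι) (f : ι → FL p) :
    E.E (∑ i ∈ s, f i) = ∑ i ∈ s, E.E (f i) :=
  _root_.map_sum E.toAdd f s

private theorem Ev.rel_of (E : Ev p) (a : Bool) :
    GRel p 1 (natMap p (FreeLieAlgebra.of (ZMod p) a)) (E.E (FreeLieAlgebra.of (ZMod p) a)) := by
  rw [E.map_of]
  unfold natMap
  rw [FreeLieAlgebra.lift_of_apply]
  exact GRel.cls _

private theorem Ev.rel_lie (E : Ev p) {m n : ℕ} (hm : 1 ≤ m) (hn : 1 ≤ n) {u v : FL p}
    (hu : GRel p m (natMap p u) (E.E u)) (hv : GRel p n (natMap p v) (E.E v)) :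
    GRel p (m + n) (natMap p ⁅u, v⁆) (E.E ⁅u, v⁆) := by
  rw [E.map_lie, LieHom.map_lie]
  exact GRel.lie hm hn hu hv

private theorem Ev.rel_ad (E : Ev p) (a : Bool) {n : ℕ} (hn : 1 ≤ n) {u : FL p}
    (hu : GRel p n (natMap p u) (E.E u)) (k : ℕ) :
    GRel p (n + k)
      (natMap p (((LieAlgebra.ad (ZMod p) (FL p) (FreeLieAlgebra.of (ZMod p) a)) ^ k) u))
      (E.E (((LieAlgebra.ad (ZMod p) (FL p) (FreeLieAlgebra.of (ZMod p) a)) ^ k) u)) := by
  induction k with
  | zero => exact hu
  | succ k ih =>
    rw [pow_succ', Module.End.mul_apply, LieAlgebra.ad_apply]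
    have h := E.rel_lie (le_refl 1) (by omega) (E.rel_of a) ih
    have e : 1 + (n + k) = n + (k + 1) := by omega
    rwa [e] at h

private theorem Ev.rel_arr (E : Ev p) (n i j : ℕ) : GRel p (i + j + 2)
    (natMap p (arr (LieAlgebra.ad (ZMod p) (FL p) (FreeLieAlgebra.of (ZMod p) true))
      (LieAlgebra.ad (ZMod p) (FL p) (FreeLieAlgebra.of (ZMod p) false))
      ⁅FreeLieAlgebra.of (ZMod p) true, FreeLieAlgebra.of (ZMod p) false⁆ n i j))
    (E.E (arr (LieAlgebra.ad (ZMod p) (FL p) (FreeLieAlgebra.of (ZMod p) true))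
      (LieAlgebra.ad (ZMod p) (FL p) (FreeLieAlgebra.of (ZMod p) false))
      ⁅FreeLieAlgebra.of (ZMod p) true, FreeLieAlgebra.of (ZMod p) false⁆ n i j)) := by
  induction n generalizing i j with
  | zero =>
    unfold arr
    split_ifs with h
    · obtain ⟨rfl, rfl⟩ := h
      exact E.rel_lie (le_refl 1) (le_refl 1) (E.rel_of true) (E.rel_of false)
    · rw [E.map_zero, _root_.map_zero]
      exact GRel.zero _
  | succ n ih =>
    unfold arr
    rw [E.map_sum', _root_.map_sum]
    refine GRel.sum (by omega) _ _ _ fun a ha => ?_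
    rw [E.map_sum', _root_.map_sum]
    refine GRel.sum (by omega) _ _ _ fun b hb => ?_
    rw [E.map_smul, _root_.map_smul]
    refine GRel.smul (by omega) _ ?_
    rw [Finset.mem_range] at ha hb
    have h := E.rel_ad false (by omega) (E.rel_ad true (by omega) (ih (i - a) (j - b)) a) b
    have e : i - a + (j - b) + 2 + a + b = i + j + 2 := by omega
    rwa [e] at h

/-- `zet p i j` is related to its value in the group algebra: it is a combination of iterated
brackets of `i + 1` letters `x` and `j + 1` letters `y` -/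
theorem Ev.rel_zet (E : Ev p) (i j : ℕ) :
    GRel p (i + j + 2) (natMap p (zet p i j)) (E.E (zet p i j)) := by
  unfold zet arrS
  rw [E.map_sum', _root_.map_sum]
  exact GRel.sum (by omega) _ _ _ fun n _ => E.rel_arr n i j

private theorem Ev.map_ad_pow (E : Ev p) (u v : FL p) (n : ℕ) :
    E.E (((LieAlgebra.ad (ZMod p) (FL p) u) ^ n) v) = adn (E.E u) (E.E v) n := by
  induction n with
  | zero => rfl
  | succ n ih =>
    rw [pow_succ', Module.End.mul_apply, LieAlgebra.ad_apply, E.map_lie, ih]
    rfl

private theorem Ev.map_arr (E : Ev p) (n i j : ℕ) :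
    E.E (arr (LieAlgebra.ad (ZMod p) (FL p) (FreeLieAlgebra.of (ZMod p) true))
      (LieAlgebra.ad (ZMod p) (FL p) (FreeLieAlgebra.of (ZMod p) false))
      ⁅FreeLieAlgebra.of (ZMod p) true, FreeLieAlgebra.of (ZMod p) false⁆ n i j) =
    arrE p (R := ZMod p) (dlt p (RB p) (gen p true)) (dlt p (RB p) (gen p false))
      (dlt p (RB p) (gen p true) * dlt p (RB p) (gen p false) -
        dlt p (RB p) (gen p false) * dlt p (RB p) (gen p true)) n i j := by
  induction n generalizing i j with
  | zero =>
    unfold arr arrE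
    split_ifs
    · rw [E.map_lie, E.map_of, E.map_of]
    · exact E.map_zero
  | succ n ih =>
    unfold arr arrE
    rw [E.map_sum']
    refine Finset.sum_congr rfl fun a _ => ?_
    rw [E.map_sum']
    refine Finset.sum_congr rfl fun b _ => ?_
    rw [E.map_smul, E.map_ad_pow, E.map_ad_pow, E.map_of, E.map_of, ih]
    rfl

/-- the value of `zet p i j`, see `Act.map_zet` -/
theorem Ev.map_zet (E : Ev p) (i j : ℕ) : E.E (zet p i j) =
    ∑ n ∈ Finset.range p, arrE p (R := ZMod p) (dlt p (RB p) (gen p true))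
      (dlt p (RB p) (gen p false))
      (dlt p (RB p) (gen p true) * dlt p (RB p) (gen p false) -
        dlt p (RB p) (gen p false) * dlt p (RB p) (gen p true)) n i j := by
  unfold zet arrS
  rw [E.map_sum']
  exact Finset.sum_congr rfl fun n _ => E.map_arr n i j

end ev

end Helper44.BL
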