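import Pool.Agent.Helper44.BA.Pts
import Pool.Agent.Helper44.BL.Iv

/-!
# BA-10: truncated exponentials and binomial powers
-/

namespace Helper44.BL

open Polynomial

variable {p : ℕ} [Fact p.Prime] {A : Type} [Ring A] [Algebra (ZMod p) A]

/-- `∑_{k < p} s^k a^k / k!` -/
noncomputable def ES (p : ℕ) [Fact p.Prime] {A : Type} [Ring A] [Algebra (ZMod p) A] (a : A) :
    A[X][X] := ∑ k ∈ Finset.range p, C (C (((k.factorial : ZMod p)⁻¹) • a ^ k)) * X ^ k

/-- `∑_{k < p} t^k a^k / k!` -/
noncomputable def ET (p : ℕ) [Fact p.Prime] {A : Type} [Ring A] [Algebra (ZMod p) A] (a : A) :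
    A[X][X] := ∑ k ∈ Finset.range p, C (C (((k.factorial : ZMod p)⁻¹) • a ^ k) * X ^ k)

theorem cf_ES (a : A) (i j : ℕ) : cf (ES p a) i j =
    if i < p ∧ j = 0 then ((i.factorial : ZMod p)⁻¹) • a ^ i else 0 := by
  unfold ES
  rw [cf_sum]
  have h : ∀ k, cf (C (C (((k.factorial : ZMod p)⁻¹) • a ^ k)) * X ^ k : A[X][X]) i j =
      if k = i then (if j = 0 then ((i.factorial : ZMod p)⁻¹) • a ^ i else 0) else 0 := by
    intro k
    unfold cf
    rw [coeff_C_mul_X_pow]
    by_cases hk : k = i
    · subst hk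
      rw [if_pos rfl, if_pos rfl, coeff_C]
    · rw [if_neg (fun h => hk h.symm), if_neg hk, coeff_zero]
  simp only [h]
  rw [Finset.sum_ite_eq']
  by_cases hi : i < p
  · by_cases hj : j = 0
    · rw [if_pos (Finset.mem_range.2 hi), if_pos hj, if_pos ⟨hi, hj⟩]
    · rw [if_pos (Finset.mem_range.2 hi), if_neg hj, if_neg (fun h => hj h.2)]
  · rw [if_neg (fun h => hi (Finset.mem_range.1 h)), if_neg (fun h => hi h.1)]

theorem cf_ET (a : A) (i j : ℕ) : cf (ET p a) i j =
    if i = 0 ∧ j < p then ((j.factorial : ZMod p)⁻¹) • a ^ j else 0 := by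
  unfold ET
  rw [cf_sum]
  have h : ∀ k, cf (C (C (((k.factorial : ZMod p)⁻¹) • a ^ k) * X ^ k) : A[X][X]) i j =
      if k = j then (if i = 0 then ((j.factorial : ZMod p)⁻¹) • a ^ j else 0) else 0 := by
    intro k
    unfold cf
    rw [coeff_C]
    by_cases hi : i = 0
    · rw [if_pos hi, coeff_C_mul_X_pow]
      by_cases hk : k = j
      · subst hk
        rw [if_pos rfl, if_pos rfl, if_pos hi]
      · rw [if_neg (fun h => hk h.symm), if_neg hk]
    · rw [if_neg hi, coeff_zero]
      simp [hi]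
  simp only [h]
  rw [Finset.sum_ite_eq']
  by_cases hj : j < p
  · by_cases hi : i = 0
    · rw [if_pos (Finset.mem_range.2 hj), if_pos hi, if_pos ⟨hi, hj⟩]
    · rw [if_pos (Finset.mem_range.2 hj), if_neg hi, if_neg (fun h => hi h.1)]
  · rw [if_neg (fun h => hj (Finset.mem_range.1 h)), if_neg (fun h => hj h.2)]

theorem J_ES (𝔽 : Filt (ZMod p) A) {a : A} (ha : a ∈ 𝔽.F 1) : J 𝔽 0 (ES p a) := by
  intro i j
  rw [cf_ES]
  split_ifs with h
  · apply Submodule.smul_mem
    have := 𝔽.pow_mem ha i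
    rw [one_mul] at this
    rw [h.2]
    exact this
  · exact Submodule.zero_mem _

theorem J_ET (𝔽 : Filt (ZMod p) A) {a : A} (ha : a ∈ 𝔽.F 1) : J 𝔽 0 (ET p a) := by
  intro i j
  rw [cf_ET]
  split_ifs with h
  · apply Submodule.smul_mem
    have := 𝔽.pow_mem ha j
    rw [one_mul] at this
    rw [h.1, zero_add]
    exact this
  · exact Submodule.zero_mem _

/-- the binomial polynomial -/
private noncomputable def bp (p : ℕ) [Fact p.Prime] (k : ℕ) : (ZMod p)[X] :=
  C ((k.factorial : ZMod p)⁻¹) * descPochhammer (ZMod p) k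

private theorem bp_deg (k : ℕ) : (bp p k).natDegree ≤ k := by
  unfold bp
  refine (natDegree_C_mul_le _ _).trans ?_
  rw [descPochhammer_natDegree]

private theorem bp_coeff_self (k : ℕ) : (bp p k).coeff k = (k.factorial : ZMod p)⁻¹ := by
  unfold bp
  rw [coeff_C_mul]
  have h := monic_descPochhammer (ZMod p) k
  have h2 : (descPochhammer (ZMod p) k).coeff k = 1 := by
    have h3 := h.coeff_natDegree
    rwa [descPochhammer_natDegree] at h3
  rw [h2, mul_one]

private theorem bp_coeff_lt {k i : ℕ} (h : k < i) : (bp p k).coeff i = 0 :=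
  coeff_eq_zero_of_natDegree_lt (lt_of_le_of_lt (bp_deg k) h)

private theorem fact_ne' {k : ℕ} (hk : k < p) : (k.factorial : ZMod p) ≠ 0 := by
  intro h
  rw [ZMod.natCast_eq_zero_iff] at h
  exact absurd ((Nat.Prime.dvd_factorial (Fact.out : p.Prime)).1 h) (by omega)

private theorem bp_eval {k : ℕ} (hk : k < p) (u : ZMod p) :
    (bp p k).eval u = ((u.val.choose k : ℕ) : ZMod p) := by
  unfold bp
  have h1 : u = ((u.val : ℕ) : ZMod p) := (ZMod.natCast_zmod_val u).symm
  rw [eval_mul, eval_C]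
  conv_lhs => rw [h1]
  rw [descPochhammer_eval_eq_descFactorial, Nat.descFactorial_eq_factorial_mul_choose]
  push_cast
  rw [← mul_assoc, inv_mul_cancel₀ (fact_ne' hk), one_mul]

/-- the sum of the coefficients -/
private theorem bp_sum (a : A) (u : ZMod p) :
    ∑ k ∈ Finset.range p, ∑ i ∈ Finset.range p,
      (((bp p k).coeff i) • a ^ k) * (algebraMap (ZMod p) A u) ^ i = (1 + a) ^ u.val := by
  have h1 : ∀ k ∈ Finset.range p, ∑ i ∈ Finset.range p,
      (((bp p k).coeff i) • a ^ k) * (algebraMap (ZMod p) A u) ^ i =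
        (u.val.choose k : ℕ) • a ^ k := by
    intro k hk
    have hk' := Finset.mem_range.1 hk
    have h2 : ∀ i, (((bp p k).coeff i) • a ^ k) * (algebraMap (ZMod p) A u) ^ i =
        ((bp p k).coeff i * u ^ i) • a ^ k := by
      intro i
      rw [← map_pow, ← Algebra.commutes, ← Algebra.smul_def, smul_smul, mul_comm]
    simp only [h2]
    rw [← Finset.sum_smul, ← eval_eq_sum_range' (lt_of_le_of_lt (bp_deg k) hk') u, bp_eval hk',
      Nat.cast_smul_eq_nsmul]
  have hval : u.val < p := ZMod.val_lt u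
  rw [Finset.sum_congr rfl h1, add_comm, (Commute.one_right a).add_pow]
  have h3 : Finset.range (u.val + 1) ⊆ Finset.range p := by
    intro x hx
    have := Finset.mem_range.1 hx
    exact Finset.mem_range.2 (by omega)
  rw [← Finset.sum_subset h3]
  · apply Finset.sum_congr rfl
    intro k _
    rw [one_pow, mul_one, nsmul_eq_mul, Nat.cast_comm]
  · intro k _ hk
    have hk' : u.val < k := by
      by_contra hcon
      exact hk (Finset.mem_range.2 (by omega))
    rw [Nat.choose_eq_zero_of_lt hk', zero_smul]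

private theorem bp_mem (𝔽 : Filt (ZMod p) A) {a : A} (ha : a ∈ 𝔽.F 1) {i : ℕ} (hi : i < p) :
    ∑ k ∈ Finset.range p, ((bp p k).coeff i) • a ^ k - ((i.factorial : ZMod p)⁻¹) • a ^ i ∈
      𝔽.F (i + 1) := by
  rw [← Finset.sum_erase_add _ _ (Finset.mem_range.2 hi), bp_coeff_self, add_sub_cancel_right]
  apply Submodule.sum_mem
  intro k hk
  have hki : k ≠ i := Finset.ne_of_mem_erase hk
  rcases lt_or_gt_of_ne hki with h | h
  · rw [bp_coeff_lt h, zero_smul]
    exact Submodule.zero_mem _
  · apply Submodule.smul_mem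
    have := 𝔽.pow_mem ha k
    rw [one_mul] at this
    exact 𝔽.mono h this

/-- The binomial power `(1 + a)^s = ∑_{k < p} C(s, k) a^k`: with
`C(s, k) = s (s - 1) ... (s - k + 1) / k!` (`descPochhammer (ZMod p) k`), it agrees with `ES p a` up
to `J 1` (`C(s, k) - s^k / k!` has degree `< k` and `a^k ∈ F k`), and its value at the point
`(u, v)` is `(1 + a)^u` because `a^p = 0`. -/
theorem exists_binS (𝔽 : Filt (ZMod p) A) {a : A} (ha : a ∈ 𝔽.F 1) (hap : a ^ p = 0) :
    ∃ P : A[X][X], J 𝔽 1 (P - ES p a) ∧ ∀ u v : ZMod p, evPt u v P = (1 + a) ^ u.val := by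
  refine ⟨∑ k ∈ Finset.range p, ∑ i ∈ Finset.range p,
    C (C (((bp p k).coeff i) • a ^ k)) * X ^ i, ?_, ?_⟩
  · intro i j
    rw [cf_sub, cf_ES, cf_sum]
    have h : ∀ k, cf (∑ m ∈ Finset.range p, C (C (((bp p k).coeff m) • a ^ k)) * X ^ m : A[X][X]) i j =
        if i < p ∧ j = 0 then ((bp p k).coeff i) • a ^ k else 0 := by
      intro k
      rw [cf_sum]
      have h2 : ∀ m, cf (C (C (((bp p k).coeff m) • a ^ k)) * X ^ m : A[X][X]) i j =
          if m = i then (if j = 0 then ((bp p k).coeff i) • a ^ k else 0) else 0 := by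
        intro m
        unfold cf
        rw [coeff_C_mul_X_pow]
        by_cases hk : m = i
        · subst hk
          rw [if_pos rfl, if_pos rfl, coeff_C]
        · rw [if_neg (fun h => hk h.symm), if_neg hk, coeff_zero]
      simp only [h2]
      rw [Finset.sum_ite_eq']
      by_cases hi : i < p
      · by_cases hj : j = 0
        · rw [if_pos (Finset.mem_range.2 hi), if_pos hj, if_pos ⟨hi, hj⟩]
        · rw [if_pos (Finset.mem_range.2 hi), if_neg hj, if_neg (fun h => hj h.2)]
      · rw [if_neg (fun h => hi (Finset.mem_range.1 h)), if_neg (fun h => hi h.1)]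
    simp only [h]
    by_cases hij : i < p ∧ j = 0
    · simp only [if_pos hij]
      rw [hij.2, add_zero]
      exact bp_mem 𝔽 ha hij.1
    · simp only [if_neg hij, Finset.sum_const_zero, sub_zero]
      exact Submodule.zero_mem _
  · intro u v
    rw [map_sum, ← bp_sum a u]
    apply Finset.sum_congr rfl
    intro k _
    rw [map_sum]
    apply Finset.sum_congr rfl
    intro i _
    rw [map_mul, map_pow, evPt_CC, evPt_s]

theorem exists_binT (𝔽 : Filt (ZMod p) A) {a : A} (ha : a ∈ 𝔽.F 1) (hap : a ^ p = 0) :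
    ∃ P : A[X][X], J 𝔽 1 (P - ET p a) ∧ ∀ u v : ZMod p, evPt u v P = (1 + a) ^ v.val := by
  refine ⟨∑ k ∈ Finset.range p, ∑ i ∈ Finset.range p,
    C (C (((bp p k).coeff i) • a ^ k) * X ^ i), ?_, ?_⟩
  · intro i j
    rw [cf_sub, cf_ET, cf_sum]
    have h : ∀ k, cf (∑ m ∈ Finset.range p, C (C (((bp p k).coeff m) • a ^ k) * X ^ m) : A[X][X]) i j =
        if i = 0 ∧ j < p then ((bp p k).coeff j) • a ^ k else 0 := by
      intro k
      rw [cf_sum]
      have h2 : ∀ m, cf (C (C (((bp p k).coeff m) • a ^ k) * X ^ m) : A[X][X]) i j =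
          if m = j then (if i = 0 then ((bp p k).coeff j) • a ^ k else 0) else 0 := by
        intro m
        unfold cf
        rw [coeff_C]
        by_cases hi : i = 0
        · rw [if_pos hi, coeff_C_mul_X_pow]
          by_cases hk : m = j
          · subst hk
            rw [if_pos rfl, if_pos rfl, if_pos hi]
          · rw [if_neg (fun h => hk h.symm), if_neg hk]
        · rw [if_neg hi, coeff_zero]
          simp [hi]
      simp only [h2]
      rw [Finset.sum_ite_eq']
      by_cases hj : j < p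
      · by_cases hi : i = 0
        · rw [if_pos (Finset.mem_range.2 hj), if_pos hi, if_pos ⟨hi, hj⟩]
        · rw [if_pos (Finset.mem_range.2 hj), if_neg hi, if_neg (fun h => hi h.1)]
      · rw [if_neg (fun h => hj (Finset.mem_range.1 h)), if_neg (fun h => hj h.2)]
    simp only [h]
    by_cases hij : i = 0 ∧ j < p
    · simp only [if_pos hij]
      rw [hij.1, zero_add]
      exact bp_mem 𝔽 ha hij.2
    · simp only [if_neg hij, Finset.sum_const_zero, sub_zero]
      exact Submodule.zero_mem _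
  · intro u v
    rw [map_sum, ← bp_sum a v]
    apply Finset.sum_congr rfl
    intro k _
    rw [map_sum]
    apply Finset.sum_congr rfl
    intro i _
    rw [C_mul, C_pow, map_mul, map_pow, evPt_CC, evPt_t]

end Helper44.BL
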