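import Pool.Agent.Helper44.BL.Defs
import Pool.Agent.Helper27.BE.Jennings

/-!
# BA-2: finite quotients and Jennings' theorem
-/

namespace Helper44.BL

open Pool.Agent.Helper27.BE Pool.Agent.Helper27.BE.Gr

/-! ### Finite quotients and Jennings' theorem -/

section fin

variable {p : ℕ} [Fact p.Prime] {G : Type} [Group G] [ExpP p G]

/-- the terms of the lower central series have finite index: by induction `γ_{n+1}` has finite index,
so it is finitely generated (Schreier), so the abelian torsion group `γ_{n+1} / γ_{n+2}` is finite -/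
private theorem fin_gam (p : ℕ) [Fact p.Prime] [ExpP p G] [Group.FG G] (n : ℕ) : (gam G (n + 1)).FiniteIndex := by
  induction n with
  | zero =>
    have h : gam G (0 + 1) = ⊤ := rfl
    rw [h]
    infer_instance
  | succ n ih =>
    have := ih
    have h1 : Group.FG (gam G (n + 1)) := Subgroup.fg_of_index_ne_zero (H := gam G (n + 1))
    have h2 : Group.FG (Quo G (n + 1)) := Group.fg_of_surjective (pr_surj G (n + 1))
    have h3 : IsMulTorsion (Quo G (n + 1)) := by
      refine fun q => ?_
      obtain ⟨x, rfl⟩ := pr_surj G (n + 1) q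
      rw [isOfFinOrder_iff_pow_eq_one]
      refine ⟨p, (Fact.out : p.Prime).pos, ?_⟩
      have h4 : x ^ p = 1 := by
        apply Subtype.ext
        rw [SubmonoidClass.coe_pow, OneMemClass.coe_one]
        exact ExpP.pow_eq (p := p) (x : G)
      rw [← map_pow, h4, map_one]
    have h5 : Finite (Quo G (n + 1)) := CommGroup.finite_of_fg_isMulTorsion _ h3
    have h6 : (gam G (n + 1 + 1)).relIndex (gam G (n + 1)) ≠ 0 := by
      have h7 : Nn G (n + 1) = (gam G (n + 1 + 1)).subgroupOf (gam G (n + 1)) := by
        unfold Nn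
        rw [if_neg (by omega)]
      have h8 : (Nn G (n + 1)).index ≠ 0 := by
        have : Finite (gam G (n + 1) ⧸ Nn G (n + 1)) := h5
        exact Subgroup.index_ne_zero_of_finite
      rw [h7] at h8
      exact h8
    constructor
    rw [← Subgroup.relIndex_mul_index (gam_antitone G (show n + 1 ≤ n + 1 + 1 by omega))]
    exact mul_ne_zero h6 Subgroup.FiniteIndex.index_ne_zero

/-- A finitely generated group of exponent `p`: `G / γ_{n+1}(G)` is finite. (It is nilpotent,
finitely generated and torsion; or: every factor `γ_i / γ_{i+1}` is generated by the classes of the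
iterated commutators of the generators, and is killed by `p`.) -/
theorem finite_quot_gam (p : ℕ) [Fact p.Prime] [ExpP p G] [Group.FG G] (n : ℕ) : Finite (G ⧸ gam G (n + 1)) := by
  have := fin_gam p (G := G) n
  exact Subgroup.finite_quotient_of_finiteIndex

/-- Jennings' theorem in `G / γ_{n+1}(G)`. -/
theorem mem_gam_of_dlt [Group.FG G] {n : ℕ} (hn : 1 ≤ n) {g : G}
    (h : dlt p G g ∈ Fil p G (n + 1)) : g ∈ gam G (n + 1) := by
  have := finite_quot_gam p (G := G) n
  have hexp : ∀ x : G ⧸ gam G (n + 1), x ^ p ^ 1 = 1 := by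
    intro x
    obtain ⟨y, rfl⟩ := QuotientGroup.mk'_surjective (gam G (n + 1)) x
    rw [pow_one, ← map_pow, ExpP.pow_eq, map_one]
  have hp : IsPGroup p (G ⧸ gam G (n + 1)) := fun x => ⟨1, hexp x⟩
  obtain ⟨m, hm⟩ := IsPGroup.iff_card.1 hp
  have hc : gam (G ⧸ gam G (n + 1)) (n + 1) = ⊥ := by
    have h1 := Subgroup.map_lowerCentralSeries (S := (⊤ : Subgroup G))
      (QuotientGroup.mk' (gam G (n + 1))) n
    rw [← MonoidHom.range_eq_map, MonoidHom.range_eq_top.2 (QuotientGroup.mk'_surjective _)] at h1
    have h2 : gam (G ⧸ gam G (n + 1)) (n + 1) =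
        (⊤ : Subgroup (G ⧸ gam G (n + 1))).lowerCentralSeries n := rfl
    rw [h2, ← h1, Subgroup.map_eq_bot_iff, QuotientGroup.ker_mk']
    exact le_rfl
  have hj := (jennings (p := p) hm hexp hc).1 (QuotientGroup.mk' (gam G (n + 1)) g)
  have h3 : QuotientGroup.mk' (gam G (n + 1)) g = 1 := by
    apply hj
    rw [Nat.sub_self, pow_zero, mul_one]
    set Φ := MonoidAlgebra.mapDomainAlgHom (ZMod p) (ZMod p) (QuotientGroup.mk' (gam G (n + 1)))
      with hΦ
    have h4 : ∀ x : G, Φ (dlt p G x) = dlt p _ (QuotientGroup.mk' (gam G (n + 1)) x) := by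
      intro x
      unfold dlt
      rw [map_sub, map_one]
      congr 1
      rw [hΦ]
      simp
    have h5 : (aug p G).map Φ.toLinearMap ≤ aug p (G ⧸ gam G (n + 1)) := by
      unfold aug
      rw [Submodule.map_span, Submodule.span_le]
      rintro _ ⟨_, ⟨x, rfl⟩, rfl⟩
      apply Submodule.subset_span
      exact ⟨_, (h4 x).symm⟩
    have h6 : ∀ k : ℕ, ((aug p G) ^ k).map Φ.toLinearMap ≤ (aug p (G ⧸ gam G (n + 1))) ^ k := by
      intro k
      rw [Submodule.map_pow]
      exact pow_le_pow_left' h5 k
    rw [← h4]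
    unfold Fil at h ⊢
    rw [if_neg (by omega)] at h ⊢
    exact h6 (n + 1) ⟨_, h, rfl⟩
  exact (QuotientGroup.eq_one_iff g).1 h3

end fin

instance (p : ℕ) : Group.FG (RB p) := by
  exact Group.fg_of_surjective (f := QuotientGroup.mk' (resKer p))
    (QuotientGroup.mk'_surjective (resKer p))

end Helper44.BL
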