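import Pool.Agent.Helper44.BL.Act

/-!
# The primes two and three
-/

namespace Helper44.BL

section grp

variable {p : ℕ}

/-- a homomorphism of the free group to a finite group of exponent `p` kills `resKer p` -/
theorem resKer_le_ker {H : Type} [Group H] [Finite H] (hH : ∀ h : H, h ^ p = 1)
    (f : FreeGroup Bool →* H) : resKer p ≤ f.ker := by
  apply sInf_le
  refine ⟨inferInstance, ?_, fun g => ?_⟩
  · infer_instance
  · rw [MonoidHom.mem_ker, map_pow, hH]

/-- the induced homomorphism on the quotient -/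
def liftRB {H : Type} [Group H] [Finite H] (hH : ∀ h : H, h ^ p = 1)
    (f : FreeGroup Bool →* H) : FreeGroup Bool ⧸ resKer p →* H :=
  QuotientGroup.lift _ f (resKer_le_ker hH f)

theorem liftRB_mk {H : Type} [Group H] [Finite H] (hH : ∀ h : H, h ^ p = 1)
    (f : FreeGroup Bool →* H) (x : FreeGroup Bool) :
    liftRB hH f (QuotientGroup.mk x) = f x := rfl

theorem map_mem_lcsG {G H : Type} [Group G] [Group H] (f : G →* H) (n : ℕ) {x : G}
    (hx : x ∈ (⊤ : Subgroup G).lowerCentralSeries n) :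
    f x ∈ (⊤ : Subgroup H).lowerCentralSeries n := by
  have h : f x ∈ ((⊤ : Subgroup G).lowerCentralSeries n).map f := ⟨x, hx, rfl⟩
  rw [Subgroup.map_lowerCentralSeries] at h
  exact Subgroup.lowerCentralSeries_mono n le_top h

/-- the generators of the quotient -/
def gq (p : ℕ) (a : Bool) : FreeGroup Bool ⧸ resKer p := QuotientGroup.mk (FreeGroup.of a)

/-- the two generators are independent modulo `γ_2` -/
theorem indep_one [Fact p.Prime] {a b : ℕ} (h : gq p true ^ a * gq p false ^ b ∈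
    (⊤ : Subgroup (FreeGroup Bool ⧸ resKer p)).lowerCentralSeries 1) :
    (a : ZMod p) = 0 ∧ (b : ZMod p) = 0 := by
  let H : Type := Multiplicative (ZMod p × ZMod p)
  have hH : ∀ h : Multiplicative (ZMod p × ZMod p), h ^ p = 1 := by
    intro h
    apply Multiplicative.toAdd.injective
    rw [toAdd_pow, toAdd_one]
    ext <;> simp
  let f : FreeGroup Bool →* Multiplicative (ZMod p × ZMod p) :=
    FreeGroup.lift fun c => if c then Multiplicative.ofAdd (1, 0) else Multiplicative.ofAdd (0, 1)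
  have h1 := map_mem_lcsG (liftRB hH f) 1 h
  have h2 : (⊤ : Subgroup (Multiplicative (ZMod p × ZMod p))).lowerCentralSeries 1 ≤ ⊥ := by
    rw [Subgroup.lowerCentralSeries_succ, Subgroup.commutator_le]
    intro x _ y _
    rw [Subgroup.mem_bot, commutatorElement_eq_one_iff_mul_comm]
    exact mul_comm x y
  have h3 := h2 h1
  rw [Subgroup.mem_bot, map_mul, map_pow, map_pow] at h3
  have e1 : liftRB hH f (gq p true) = Multiplicative.ofAdd (1, 0) := by
    show f (FreeGroup.of true) = _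
    rw [FreeGroup.lift_apply_of]
    rfl
  have e2 : liftRB hH f (gq p false) = Multiplicative.ofAdd (0, 1) := by
    show f (FreeGroup.of false) = _
    rw [FreeGroup.lift_apply_of]
    rfl
  rw [e1, e2] at h3
  have h4 := congrArg Multiplicative.toAdd h3
  rw [toAdd_mul, toAdd_pow, toAdd_pow, toAdd_one, toAdd_ofAdd, toAdd_ofAdd] at h4
  have h5 := congrArg Prod.fst h4
  have h6 := congrArg Prod.snd h4
  simp at h5 h6
  exact ⟨h5, h6⟩

/-- the Heisenberg group modulo three -/
@[ext] structure H3 where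
  a : ZMod 3
  b : ZMod 3
  c : ZMod 3

namespace H3

instance : Finite H3 := by
  refine Finite.of_injective (fun h : H3 => (h.a, h.b, h.c)) ?_
  intro x y h
  simp only [Prod.mk.injEq] at h
  exact H3.ext h.1 h.2.1 h.2.2

instance : Mul H3 := ⟨fun x y => ⟨x.a + y.a, x.b + y.b, x.c + y.c + x.a * y.b⟩⟩
instance : One H3 := ⟨⟨0, 0, 0⟩⟩
instance : Inv H3 := ⟨fun x => ⟨-x.a, -x.b, -x.c + x.a * x.b⟩⟩

@[simp] theorem mul_a (x y : H3) : (x * y).a = x.a + y.a := rfl
@[simp] theorem mul_b (x y : H3) : (x * y).b = x.b + y.b := rfl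
@[simp] theorem mul_c (x y : H3) : (x * y).c = x.c + y.c + x.a * y.b := rfl
@[simp] theorem one_a : (1 : H3).a = 0 := rfl
@[simp] theorem one_b : (1 : H3).b = 0 := rfl
@[simp] theorem one_c : (1 : H3).c = 0 := rfl
@[simp] theorem inv_a (x : H3) : (x⁻¹).a = -x.a := rfl
@[simp] theorem inv_b (x : H3) : (x⁻¹).b = -x.b := rfl
@[simp] theorem inv_c (x : H3) : (x⁻¹).c = -x.c + x.a * x.b := rfl

instance : Group H3 := Group.ofLeftAxioms
  (by intro x y z; ext <;> simp <;> ring) (by intro x; ext <;> simp)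
  (by intro x; ext <;> simp)

theorem three : (3 : ZMod 3) = 0 := rfl

theorem pow_three (h : H3) : h ^ 3 = 1 := by
  have e : h ^ 3 = h * h * h := by rw [pow_succ, pow_succ, pow_one]
  rw [e]
  ext
  · show h.a + h.a + h.a = 0
    linear_combination h.a * three
  · show h.b + h.b + h.b = 0
    linear_combination h.b * three
  · show h.c + h.c + h.a * h.b + h.c + (h.a + h.a) * h.b = 0
    linear_combination (h.c + h.a * h.b) * three

/-- the centre -/
def Z : Subgroup H3 where
  carrier := {h | h.a = 0 ∧ h.b = 0}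
  one_mem' := ⟨rfl, rfl⟩
  mul_mem' := by
    rintro x y ⟨h1, h2⟩ ⟨h3, h4⟩
    exact ⟨by rw [mul_a, h1, h3, add_zero], by rw [mul_b, h2, h4, add_zero]⟩
  inv_mem' := by
    rintro x ⟨h1, h2⟩
    exact ⟨by rw [inv_a, h1, neg_zero], by rw [inv_b, h2, neg_zero]⟩

theorem lcs_two : (⊤ : Subgroup H3).lowerCentralSeries 2 ≤ ⊥ := by
  have h1 : (⊤ : Subgroup H3).lowerCentralSeries 1 ≤ Z := by
    rw [Subgroup.lowerCentralSeries_succ, Subgroup.commutator_le]
    intro x _ y _
    constructor
    · show x.a + y.a + -x.a + -y.a = 0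
      ring
    · show x.b + y.b + -x.b + -y.b = 0
      ring
  rw [Subgroup.lowerCentralSeries_succ, Subgroup.commutator_le]
  intro x hx y _
  obtain ⟨h2, h3⟩ := h1 hx
  rw [Subgroup.mem_bot, commutatorElement_eq_one_iff_mul_comm]
  ext
  · simp [h2]
  · simp [h3]
  · simp [h2, h3]
    ring

end H3

/-- the commutator of the two generators -/
def cq (p : ℕ) : FreeGroup Bool ⧸ resKer p :=
  gq p true * gq p false * (gq p true)⁻¹ * (gq p false)⁻¹

theorem cq_mem (p : ℕ) : cq p ∈ (⊤ : Subgroup (FreeGroup Bool ⧸ resKer p)).lowerCentralSeries 1 := by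
  rw [Subgroup.lowerCentralSeries_succ]
  exact Subgroup.commutator_mem_commutator (Subgroup.mem_top _) (Subgroup.mem_top _)

/-- the commutator of the two generators is not in `γ_3` for `p = 3` -/
theorem indep_two {d : ℕ} (h : cq 3 ^ d ∈
    (⊤ : Subgroup (FreeGroup Bool ⧸ resKer 3)).lowerCentralSeries 2) : (d : ZMod 3) = 0 := by
  let f : FreeGroup Bool →* H3 := FreeGroup.lift fun c => if c then ⟨1, 0, 0⟩ else ⟨0, 1, 0⟩
  have h1 := H3.lcs_two (map_mem_lcsG (liftRB H3.pow_three f) 2 h)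
  have e1 : liftRB H3.pow_three f (gq 3 true) = ⟨1, 0, 0⟩ := by
    show f (FreeGroup.of true) = _
    rw [FreeGroup.lift_apply_of]
    rfl
  have e2 : liftRB H3.pow_three f (gq 3 false) = ⟨0, 1, 0⟩ := by
    show f (FreeGroup.of false) = _
    rw [FreeGroup.lift_apply_of]
    rfl
  have e3 : liftRB H3.pow_three f (cq 3) = ⟨0, 0, 1⟩ := by
    unfold cq
    rw [map_mul, map_mul, map_mul, map_inv, map_inv, e1, e2]
    ext <;> simp
  have e4 : ∀ n : ℕ, (⟨0, 0, 1⟩ : H3) ^ n = ⟨0, 0, n⟩ := by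
    intro n
    induction n with
    | zero => rw [pow_zero]; ext <;> simp
    | succ n ih =>
      rw [pow_succ, ih]
      ext <;> simp
  rw [Subgroup.mem_bot, map_pow, e3, e4] at h1
  exact congrArg H3.c h1

end grp

/-! ### The Lie algebra -/

section lie

variable (p : ℕ)

/-- the generators of `Λ(2)` -/
noncomputable def lx (a : Bool) : Lam p :=
  LieSubmodule.Quotient.mk (N := engel p) (FreeLieAlgebra.of (ZMod p) a)

/-- their bracket -/
noncomputable def lz : Lam p := ⁅lx p true, lx p false⁆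

theorem engel_mk (u v : FL p) : (LieSubmodule.Quotient.mk (N := engel p)
    (((LieAlgebra.ad (ZMod p) (FL p) u) ^ (p - 1)) v) : Lam p) = 0 := by
  rw [LieSubmodule.Quotient.mk_eq_zero']
  exact LieSubmodule.subset_lieSpan ⟨u, v, rfl⟩

theorem lz_eq_zero_two : lz 2 = 0 := by
  have h := engel_mk 2 (FreeLieAlgebra.of (ZMod 2) true) (FreeLieAlgebra.of (ZMod 2) false)
  have e : (LieAlgebra.ad (ZMod 2) (FL 2) (FreeLieAlgebra.of (ZMod 2) true)) ^ (2 - 1) =
    LieAlgebra.ad (ZMod 2) (FL 2) (FreeLieAlgebra.of (ZMod 2) true) := pow_one _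
  rw [e] at h
  exact h

theorem lx_lz {q : ℕ} (hq : q = 2 ∨ q = 3) (a : Bool) : ⁅lx q a, lz q⁆ = 0 := by
  rcases hq with rfl | rfl
  · rw [lz_eq_zero_two, lie_zero]
  · have h1 : ∀ u v : FL 3, (LieSubmodule.Quotient.mk (N := engel 3) ⁅u, ⁅u, v⁆⁆ : Lam 3) = 0 :=
      fun u v => engel_mk 3 u v
    cases a with
    | true => exact h1 _ _
    | false =>
      have h2 : ⁅lx 3 false, ⁅lx 3 false, lx 3 true⁆⁆ = 0 := h1 _ _
      unfold lz
      rw [← lie_skew (lx 3 true) (lx 3 false), lie_neg, h2, neg_zero]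

theorem lam_span {q : ℕ} (hq : q = 2 ∨ q = 3) (w : Lam q) :
    ∃ a b d : ZMod q, w = a • lx q true + b • lx q false + d • lz q := by
  obtain ⟨u, rfl⟩ := Submodule.Quotient.mk_surjective _ w
  refine FL_induction (fun u => ∃ a b d : ZMod q,
    (LieSubmodule.Quotient.mk (N := engel q) u : Lam q) =
      a • lx q true + b • lx q false + d • lz q) ?_ ?_ ?_ ?_ ?_ u
  · intro a
    cases a with
    | true =>
      refine ⟨1, 0, 0, ?_⟩
      rw [one_smul, zero_smul, zero_smul, add_zero, add_zero]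
      rfl
    | false =>
      refine ⟨0, 1, 0, ?_⟩
      rw [one_smul, zero_smul, zero_smul, add_zero, zero_add]
      rfl
  · refine ⟨0, 0, 0, ?_⟩
    rw [zero_smul, zero_smul, zero_smul, add_zero, add_zero]
    rfl
  · rintro u v ⟨a, b, d, h⟩ ⟨a', b', d', h'⟩
    refine ⟨a + a', b + b', d + d', ?_⟩
    have e : (LieSubmodule.Quotient.mk (N := engel q) (u + v) : Lam q) =
      LieSubmodule.Quotient.mk (N := engel q) u + LieSubmodule.Quotient.mk (N := engel q) v := rfl
    rw [e, h, h', add_smul, add_smul, add_smul]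
    abel
  · rintro r u ⟨a, b, d, h⟩
    refine ⟨r * a, r * b, r * d, ?_⟩
    have e : (LieSubmodule.Quotient.mk (N := engel q) (r • u) : Lam q) =
      r • LieSubmodule.Quotient.mk (N := engel q) u := rfl
    rw [e, h, smul_add, smul_add, smul_smul, smul_smul, smul_smul]
  · rintro u v ⟨a, b, d, h⟩ ⟨a', b', d', h'⟩
    refine ⟨0, 0, a * b' - b * a', ?_⟩
    have e1 : ⁅lz q, lx q true⁆ = 0 := by rw [← lie_skew, lx_lz hq, neg_zero]
    have e2 : ⁅lz q, lx q false⁆ = 0 := by rw [← lie_skew, lx_lz hq, neg_zero]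
    have e3 : ⁅lx q false, lx q true⁆ = - lz q := by
      rw [← lie_skew]
      rfl
    have e4 : ⁅lx q true, lx q false⁆ = lz q := rfl
    rw [LieSubmodule.Quotient.mk_bracket, h, h']
    simp only [add_lie, lie_add, smul_lie, lie_smul, lie_self, lx_lz hq, e1, e2, e3, e4, smul_zero,
      add_zero, zero_add, smul_neg, sub_smul, zero_smul, smul_smul]
    rw [mul_comm b a', mul_comm a b', sub_eq_add_neg]
    abel

end lie

section inj

variable {p : ℕ} [Fact p.Prime] {L : Type} [LieRing L] [LieAlgebra (ZMod p) L]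

theorem IsLieOf.pow {G L : Type} [Group G] [LieRing L] {c : ℕ → G → L} (hc : IsLieOf c) (i : ℕ)
    {x : G} (hx : x ∈ (⊤ : Subgroup G).lowerCentralSeries i) (n : ℕ) : c i (x ^ n) = n • c i x := by
  induction n with
  | zero => rw [pow_zero, zero_smul, (hc.ker i 1 (one_mem _)).2 (one_mem _)]
  | succ n ih => rw [pow_succ, hc.add i _ (pow_mem hx n) _ hx, ih, succ_nsmul]

theorem val_nsmul {M : Type} [AddCommGroup M] [Module (ZMod p) M] (a : ZMod p) (m : M) :
    a.val • m = a • m := by
  rw [← Nat.cast_smul_eq_nsmul (ZMod p), ZMod.natCast_zmod_val]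

/-- for `p = 2, 3` the natural homomorphism is injective -/
theorem small_inj (hp : p = 2 ∨ p = 3) {c : ℕ → FreeGroup Bool ⧸ resKer p → L} (hc : IsLieOf c)
    (ν : Lam p →ₗ⁅ZMod p⁆ L) (hν : IsNatural p c ν) : Function.Injective ν := by
  rw [injective_iff_map_eq_zero]
  intro w hw
  obtain ⟨a, b, d, rfl⟩ := lam_span hp w
  have hx : ν (lx p true) = c 0 (gq p true) := hν true
  have hy : ν (lx p false) = c 0 (gq p false) := hν false
  have hz : ν (lz p) = c 1 (cq p) := by
    unfold lz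
    rw [LieHom.map_lie, hx, hy, hc.lie 0 _ (Subgroup.mem_top _) 0 _ (Subgroup.mem_top _)]
    rfl
  rw [map_add, map_add, map_smul, map_smul, map_smul, hx, hy, hz, ← val_nsmul, ← val_nsmul,
    ← val_nsmul, ← hc.pow 0 (Subgroup.mem_top _), ← hc.pow 0 (Subgroup.mem_top _),
    ← hc.pow 1 (cq_mem p), ← hc.add 0 _ (Subgroup.mem_top _) _ (Subgroup.mem_top _)] at hw
  let x : ℕ → FreeGroup Bool ⧸ resKer p := fun i =>
    if i = 0 then gq p true ^ a.val * gq p false ^ b.val else if i = 1 then cq p ^ d.val else 1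
  have hxm : ∀ i, x i ∈ (⊤ : Subgroup (FreeGroup Bool ⧸ resKer p)).lowerCentralSeries i := by
    intro i
    by_cases h0 : i = 0
    · subst h0
      exact Subgroup.mem_top _
    · by_cases h1 : i = 1
      · subst h1
        exact pow_mem (cq_mem p) _
      · show (if i = 0 then _ else if i = 1 then _ else _) ∈ _
        rw [if_neg h0, if_neg h1]
        exact one_mem _
  have hsum : ∑ i ∈ Finset.range 2, c i (x i) = 0 := by
    rw [Finset.sum_range_succ, Finset.sum_range_one]
    exact hw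
  have hi := hc.indep 2 x hxm hsum
  have h0 : c 0 (gq p true ^ a.val * gq p false ^ b.val) = 0 := hi 0 (by norm_num)
  have h1 : c 1 (cq p ^ d.val) = 0 := hi 1 (by norm_num)
  obtain ⟨ha, hb⟩ := indep_one ((hc.ker 0 _ (Subgroup.mem_top _)).1 h0)
  rw [ZMod.natCast_zmod_val] at ha hb
  rw [ha, hb, zero_smul, zero_smul, add_zero, zero_add]
  have h2 := (hc.ker 1 _ (pow_mem (cq_mem p) _)).1 h1
  rcases hp with rfl | rfl
  · rw [lz_eq_zero_two, smul_zero]
  · have hd := indep_two h2
    rw [ZMod.natCast_zmod_val] at hd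
    rw [hd, zero_smul]

end inj

end Helper44.BL
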