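import Pool.Agent.Helper44.BA.NoIso
import Pool.Agent.Helper44.BA.Small

/-!
# The final theorem
-/

namespace Helper44.BL

variable {p : ℕ} [Fact p.Prime]

/-- for every prime the natural homomorphism exists and is surjective -/
theorem exists_natural {L : Type} [LieRing L] [LieAlgebra (ZMod p) L]
    {c : ℕ → FreeGroup Bool ⧸ resKer p → L} (hc' : IsLieOf c) :
    (∃ ν : Lam p →ₗ⁅ZMod p⁆ L, IsNatural p c ν) ∧
      ∀ ν : Lam p →ₗ⁅ZMod p⁆ L, IsNatural p c ν → Function.Surjective ν := by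
  have hc : IsLieOf (G := RB p) c := hc'
  refine ⟨?_, ?_⟩
  · obtain ⟨ν, hν⟩ := exists_isNat p
    refine ⟨(phiL hc).comp ν, fun a => ?_⟩
    have h : (phiL hc).comp ν (LieSubmodule.Quotient.mk (N := engel p)
      (FreeLieAlgebra.of (ZMod p) a)) = phiL hc (natMap p (FreeLieAlgebra.of (ZMod p) a)) := by
      rw [LieHom.comp_apply, hν.eq]
    rw [h, phiL_natMap hc]
    rfl
  · intro ν hν y
    obtain ⟨w, hw⟩ := phiM_surjective hc y
    obtain ⟨z, hz⟩ := natMap_surjective p w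
    refine ⟨LieSubmodule.Quotient.mk (N := engel p) z, ?_⟩
    rw [natural_eq hc ν hν, hz]
    exact hw

/-- the final theorem -/
theorem mainS (h5 : p ≠ 5) (h7 : p ≠ 7) :
    (∃ (L : Type) (_ : LieRing L) (_ : LieAlgebra (ZMod p) L)
      (c : ℕ → FreeGroup Bool ⧸ resKer p → L), IsLieOf c) ∧
    ∀ (L : Type) [LieRing L] [LieAlgebra (ZMod p) L] (c : ℕ → FreeGroup Bool ⧸ resKer p → L),
      IsLieOf c → (∃ ν : Lam p →ₗ⁅ZMod p⁆ L, IsNatural p c ν) ∧
        (∀ ν : Lam p →ₗ⁅ZMod p⁆ L, IsNatural p c ν →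
          Function.Surjective ν ∧ (Function.Injective ν ↔ p = 2 ∨ p = 3)) ∧
        (Nonempty (Lam p ≃ₗ⁅ZMod p⁆ L) ↔ p = 2 ∨ p = 3) := by
  have hprime : p.Prime := Fact.out
  refine ⟨⟨LG (RB p), inferInstance, inferInstance, lgc (G := RB p), isLieOf_lgc⟩, ?_⟩
  intro L _ _ c hc
  obtain ⟨h1, h2⟩ := exists_natural hc
  rcases Nat.lt_or_ge p 11 with hp | hp
  · have hp' : p = 2 ∨ p = 3 := by
      have h : ∀ q < 11, q.Prime → q ≠ 5 → q ≠ 7 → q = 2 ∨ q = 3 := by decide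
      exact h p hp hprime h5 h7
    refine ⟨h1, fun ν hν => ⟨h2 ν hν, fun _ => hp', fun _ => small_inj hp' hc ν hν⟩,
      fun _ => hp', fun _ => ?_⟩
    obtain ⟨ν, hν⟩ := h1
    exact ⟨LieEquiv.ofBijective ν ⟨small_inj hp' hc ν hν, h2 ν hν⟩⟩
  · have hp' : ¬ (p = 2 ∨ p = 3) := by omega
    obtain ⟨_, h3, h4⟩ := (mainN hp).2 L c hc
    refine ⟨h1, fun ν hν => ⟨h2 ν hν, fun h => absurd h (h3 ν hν).2, fun h => absurd h hp'⟩,
      fun h => ?_, fun h => absurd h hp'⟩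
    exact absurd h (not_nonempty_iff.2 h4)

end Helper44.BL
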