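import Mathlib

/-!
# BA-4: the symmetrised product of elements of a filtered algebra
-/

namespace Helper44.BL

/-- a filtered algebra -/
structure Filt (K A : Type) [Field K] [Ring A] [Algebra K A] where
  F : ℕ → Submodule K A
  zero : F 0 = ⊤
  anti : ∀ n, F (n + 1) ≤ F n
  mul : ∀ m n {a b : A}, a ∈ F m → b ∈ F n → a * b ∈ F (m + n)

namespace Filt

variable {K A : Type} [Field K] [Ring A] [Algebra K A] (𝔽 : Filt K A)

theorem mono {m n : ℕ} (h : m ≤ n) : 𝔽.F n ≤ 𝔽.F m :=
  antitone_nat_of_succ_le 𝔽.anti h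

theorem one_mem : (1 : A) ∈ 𝔽.F 0 := by
  rw [𝔽.zero]
  exact Submodule.mem_top

theorem pow_mem {m : ℕ} {a : A} (ha : a ∈ 𝔽.F m) (n : ℕ) : a ^ n ∈ 𝔽.F (m * n) := by
  induction n with
  | zero =>
    rw [pow_zero, Nat.mul_zero]
    exact 𝔽.one_mem
  | succ n ih =>
    rw [pow_succ, Nat.mul_succ]
    exact 𝔽.mul _ _ ih ha

private theorem list_mem {n : ℕ} (b : Fin n → A) (m : Fin n → ℕ) (h : ∀ k, b k ∈ 𝔽.F (m k)) :
    (List.ofFn b).prod ∈ 𝔽.F (∑ k, m k) := by
  induction n with
  | zero =>
    rw [List.ofFn_zero, List.prod_nil, Finset.univ_eq_empty, Finset.sum_empty]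
    exact 𝔽.one_mem
  | succ n ih =>
    rw [List.ofFn_succ, List.prod_cons, Fin.sum_univ_succ]
    exact 𝔽.mul _ _ (h 0) (ih _ _ fun k => h k.succ)

end Filt

/-- the sum over all orders of the products of all `a i` -/
def Ksum {A ι : Type} [Ring A] [Fintype ι] [DecidableEq ι] (n : ℕ) (a : ι → A) : A :=
  ∑ ρ : Fin n ≃ ι, (List.ofFn fun k => a (ρ k)).prod

theorem Ksum_equiv {A ι κ : Type} [Ring A] [Fintype ι] [DecidableEq ι] [Fintype κ]
    [DecidableEq κ] (n : ℕ) (e : κ ≃ ι) (a : ι → A) : Ksum n (fun k => a (e k)) = Ksum n a := by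
  unfold Ksum
  exact Equiv.sum_comp (Equiv.equivCongr (Equiv.refl (Fin n)) e)
    (fun ρ : Fin n ≃ ι => (List.ofFn fun k => a (ρ k)).prod)

/-! ### expansions of ordered products -/

section expand

variable {A : Type} [Ring A] {n : ℕ}

/-- the ordered product over a set -/
private def oP (a : Fin n → A) (t : Finset (Fin n)) : A := (List.ofFn (t.piecewise a 1)).prod

private theorem oP_empty (a : Fin n → A) : oP a ∅ = 1 := by
  unfold oP
  rw [Finset.piecewise_empty]
  have h : List.ofFn (1 : Fin n → A) = List.replicate n 1 := List.ofFn_const n 1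
  rw [h, List.prod_replicate, one_pow]

private theorem ofFn_single (a : Fin n → A) (i : Fin n) :
    (List.ofFn (({i} : Finset (Fin n)).piecewise a 1)).prod = a i := by
  induction n with
  | zero => exact i.elim0
  | succ n ih =>
    rw [List.ofFn_succ, List.prod_cons]
    refine Fin.cases ?_ (fun j => ?_) i
    · have h : (fun j : Fin n => (({0} : Finset (Fin (n + 1))).piecewise a 1) j.succ) =
          fun _ => 1 := by
        funext j
        rw [Finset.piecewise_eq_of_notMem]
        · rfl
        · rw [Finset.mem_singleton]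
          exact Fin.succ_ne_zero j
      rw [h, List.ofFn_const, List.prod_replicate, one_pow, mul_one,
        Finset.piecewise_eq_of_mem _ _ _ (Finset.mem_singleton_self _)]
    · have h : (fun k : Fin n => (({j.succ} : Finset (Fin (n + 1))).piecewise a 1) k.succ) =
          ({j} : Finset (Fin n)).piecewise (fun k => a k.succ) 1 := by
        funext k
        by_cases hk : k = j
        · subst hk
          rw [Finset.piecewise_eq_of_mem _ _ _ (Finset.mem_singleton_self _),
            Finset.piecewise_eq_of_mem _ _ _ (Finset.mem_singleton_self _)]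
        · rw [Finset.piecewise_eq_of_notMem, Finset.piecewise_eq_of_notMem]
          · rfl
          · rw [Finset.mem_singleton]
            exact hk
          · rw [Finset.mem_singleton]
            exact fun h => hk (Fin.succ_injective _ h)
      rw [h, ih, Finset.piecewise_eq_of_notMem]
      · exact one_mul _
      · rw [Finset.mem_singleton]
        exact fun h => Fin.succ_ne_zero j h.symm

private theorem prod_zero_of {b : Fin n → A} {i : Fin n} (h : b i = 0) :
    (List.ofFn b).prod = 0 :=
  List.prod_eq_zero (by rw [← h]; exact (List.mem_ofFn' b _).2 ⟨i, rfl⟩)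

private theorem expand_S (K : Type) [Field K] [Algebra K A] (a : Fin n → A) (S : Finset (Fin n)) :
    (List.ofFn fun i => if i ∈ S then 1 + a i else 1).prod - 1 =
      ∑ t : Finset (Fin n), if t.Nonempty ∧ t ⊆ S then oP a t else 0 := by
  classical
  have h1 : (fun i => if i ∈ S then 1 + a i else 1) =
      (fun i => if i ∈ S then a i else 0) + (1 : Fin n → A) := by
    funext i
    rw [Pi.add_apply, Pi.one_apply]
    by_cases h : i ∈ S
    · rw [if_pos h, if_pos h, add_comm]
    · rw [if_neg h, if_neg h, zero_add]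
  have h2 : (List.ofFn fun i => if i ∈ S then 1 + a i else 1).prod =
      ∑ t : Finset (Fin n), if t ⊆ S then oP a t else 0 := by
    rw [h1]
    have h3 := (MultilinearMap.mkPiAlgebraFin K n A).map_add_univ
      (fun i => if i ∈ S then a i else 0) 1
    rw [MultilinearMap.mkPiAlgebraFin_apply] at h3
    rw [h3]
    refine Finset.sum_congr rfl fun t _ => ?_
    rw [MultilinearMap.mkPiAlgebraFin_apply]
    by_cases ht : t ⊆ S
    · rw [if_pos ht]
      unfold oP
      congr 2
      funext i
      by_cases hi : i ∈ t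
      · rw [Finset.piecewise_eq_of_mem _ _ _ hi, Finset.piecewise_eq_of_mem _ _ _ hi,
          if_pos (ht hi)]
      · rw [Finset.piecewise_eq_of_notMem _ _ _ hi, Finset.piecewise_eq_of_notMem _ _ _ hi]
    · rw [if_neg ht]
      obtain ⟨i, hi, hiS⟩ := Finset.not_subset.1 ht
      apply prod_zero_of (i := i)
      rw [Finset.piecewise_eq_of_mem _ _ _ hi, if_neg hiS]
  have h4 : (1 : A) = ∑ t : Finset (Fin n), if t = ∅ then 1 else 0 := by
    rw [Finset.sum_ite_eq' Finset.univ ∅, if_pos (Finset.mem_univ _)]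
  rw [h2, h4, ← Finset.sum_sub_distrib]
  refine Finset.sum_congr rfl fun t _ => ?_
  by_cases ht : t = ∅
  · subst ht
    rw [if_pos (Finset.empty_subset S), if_pos rfl, if_neg (by simp), oP_empty, sub_self]
  · rw [if_neg ht, sub_zero]
    by_cases hS : t ⊆ S
    · rw [if_pos hS, if_pos ⟨Finset.nonempty_iff_ne_empty.2 ht, hS⟩]
    · rw [if_neg hS, if_neg fun h => hS h.2]

/-- the product along a tuple of sets -/
private def tP (a : Fin n → A) (T : Fin n → Finset (Fin n)) : A :=
  (List.ofFn fun k => oP a (T k)).prod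

private theorem expand_pow (K : Type) [Field K] [Algebra K A] (a : Fin n → A) (S : Finset (Fin n)) :
    ((List.ofFn fun i => if i ∈ S then 1 + a i else 1).prod - 1) ^ n =
      ∑ T : Fin n → Finset (Fin n),
        if (∀ k, (T k).Nonempty) ∧ (∀ k, T k ⊆ S) then tP a T else 0 := by
  classical
  rw [expand_S K a S]
  have h1 : ∀ y : A, y ^ n = (List.ofFn fun _ : Fin n => y).prod := by
    intro y
    rw [List.ofFn_const, List.prod_replicate]
  rw [h1]
  have h3 := (MultilinearMap.mkPiAlgebraFin K n A).map_sum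
    (fun (_ : Fin n) (t : Finset (Fin n)) => if t.Nonempty ∧ t ⊆ S then oP a t else 0)
  rw [MultilinearMap.mkPiAlgebraFin_apply] at h3
  rw [h3]
  refine Finset.sum_congr rfl fun T _ => ?_
  rw [MultilinearMap.mkPiAlgebraFin_apply]
  by_cases hT : (∀ k, (T k).Nonempty) ∧ (∀ k, T k ⊆ S)
  · rw [if_pos hT]
    unfold tP
    congr 2
    funext k
    rw [if_pos ⟨hT.1 k, hT.2 k⟩]
  · rw [if_neg hT]
    have h4 : ∃ k, ¬ ((T k).Nonempty ∧ T k ⊆ S) := by
      by_contra h5
      push Not at h5
      exact hT ⟨fun k => (h5 k).1, fun k => (h5 k).2⟩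
    obtain ⟨k, hk⟩ := h4
    apply prod_zero_of (i := k)
    rw [if_neg hk]

private theorem alt_sum (K : Type) [Field K] (V : Finset (Fin n)) :
    ∑ S : Finset (Fin n), (if V ⊆ S then (-1 : K) ^ S.card else 0) =
      if V = Finset.univ then (-1 : K) ^ n else 0 := by
  classical
  have h1 := Finset.prod_add (fun _ : Fin n => (-1 : K)) (fun i => if i ∈ V then 0 else 1)
    Finset.univ
  rw [Finset.powerset_univ] at h1
  have h2 : ∀ S : Finset (Fin n), (if V ⊆ S then (-1 : K) ^ S.card else 0) =
      (∏ _i ∈ S, (-1 : K)) * ∏ i ∈ Finset.univ \ S, (if i ∈ V then (0 : K) else 1) := by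
    intro S
    rw [Finset.prod_const]
    by_cases h : V ⊆ S
    · rw [if_pos h, Finset.prod_eq_one, mul_one]
      intro i hi
      rw [if_neg]
      intro hi'
      exact (Finset.mem_sdiff.1 hi).2 (h hi')
    · rw [if_neg h]
      obtain ⟨i, hi, hiS⟩ := Finset.not_subset.1 h
      rw [Finset.prod_eq_zero (i := i) (Finset.mem_sdiff.2 ⟨Finset.mem_univ _, hiS⟩)
        (by rw [if_pos hi]), mul_zero]
  rw [Finset.sum_congr rfl fun S _ => h2 S, ← h1]
  by_cases hV : V = Finset.univ
  · rw [if_pos hV]
    rw [Finset.prod_congr rfl (g := fun _ => (-1 : K)) (by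
      intro i _
      rw [if_pos (by rw [hV]; exact Finset.mem_univ _), add_zero]), Finset.prod_const,
      Finset.card_univ, Fintype.card_fin]
  · rw [if_neg hV]
    have h3 : ∃ i, i ∉ V := by
      by_contra h4
      push Not at h4
      exact hV (Finset.eq_univ_iff_forall.2 h4)
    obtain ⟨i, hi⟩ := h3
    rw [Finset.prod_eq_zero (i := i) (Finset.mem_univ _)]
    rw [if_neg hi, neg_add_cancel]

/-- the sum over all coverings vanishes -/
private theorem cover_sum (a : Fin n → A)
    (h : ∀ S : Finset (Fin n),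
      ((List.ofFn fun i => if i ∈ S then 1 + a i else 1).prod - 1) ^ n = 0)
    (K : Type) [Field K] [Algebra K A] :
    ∑ T : Fin n → Finset (Fin n),
      (if (∀ k, (T k).Nonempty) ∧ Finset.univ.biUnion T = Finset.univ then tP a T else 0) = 0 := by
  classical
  have h1 : ∑ S : Finset (Fin n), (-1 : K) ^ S.card •
      ((List.ofFn fun i => if i ∈ S then 1 + a i else 1).prod - 1) ^ n = 0 :=
    Finset.sum_eq_zero fun S _ => by rw [h S, smul_zero]
  have h2 : ∑ S : Finset (Fin n), (-1 : K) ^ S.card •
      ((List.ofFn fun i => if i ∈ S then 1 + a i else 1).prod - 1) ^ n =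
      (-1 : K) ^ n • ∑ T : Fin n → Finset (Fin n),
        (if (∀ k, (T k).Nonempty) ∧ Finset.univ.biUnion T = Finset.univ then tP a T else 0) := by
    rw [Finset.sum_congr rfl fun S _ => by rw [expand_pow K a S, Finset.smul_sum],
      Finset.sum_comm, Finset.smul_sum]
    refine Finset.sum_congr rfl fun T _ => ?_
    by_cases hT : ∀ k, (T k).Nonempty
    · have h3 : ∀ S : Finset (Fin n), (-1 : K) ^ S.card •
          (if (∀ k, (T k).Nonempty) ∧ (∀ k, T k ⊆ S) then tP a T else 0) =
          (if Finset.univ.biUnion T ⊆ S then (-1 : K) ^ S.card else 0) • tP a T := by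
        intro S
        by_cases hS : ∀ k, T k ⊆ S
        · rw [if_pos ⟨hT, hS⟩, if_pos]
          rw [Finset.biUnion_subset]
          exact fun k _ => hS k
        · rw [if_neg fun h => hS h.2, if_neg, smul_zero, zero_smul]
          intro h4
          rw [Finset.biUnion_subset] at h4
          exact hS fun k => h4 k (Finset.mem_univ _)
      rw [Finset.sum_congr rfl fun S _ => h3 S, ← Finset.sum_smul, alt_sum K]
      by_cases hU : Finset.univ.biUnion T = Finset.univ
      · rw [if_pos hU, if_pos ⟨hT, hU⟩]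
      · rw [if_neg hU, if_neg fun h => hU h.2, smul_zero, zero_smul]
    · rw [if_neg fun h => hT h.1, smul_zero]
      exact Finset.sum_eq_zero fun S _ => by rw [if_neg fun h => hT h.1, smul_zero]
  rw [h2] at h1
  have h4 : (-1 : K) ^ n ≠ 0 := pow_ne_zero _ (neg_ne_zero.2 one_ne_zero)
  have h5 := congrArg (fun y => ((-1 : K) ^ n)⁻¹ • y) h1
  simp only [smul_zero] at h5
  rwa [smul_smul, inv_mul_cancel₀ h4, one_smul] at h5

end expand

/-- Let `U_S` be the ordered product of the `1 + a_i`, `i ∈ S`, minus `1`, and suppose that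
`U_S^n = 0` for all `S`. Then the symmetrised product of the `a_i` lies one step deeper than
expected. Proof: `U_S` is the sum over all nonempty `T ⊆ S` of the ordered products `a_T`;
`0 = ∑_S (-1)^(n - |S|) U_S^n` is the sum over all `n`-tuples `(T_1, ..., T_n)` of nonempty sets with
union everything of `a_{T_1} ... a_{T_n}`. If all `T_k` are singletons they form a permutation: this
gives `Ksum`. Otherwise `∑ |T_k| > n`, some index is covered twice, and the product lies in
`F (∑ w + 1)`. -/
theorem Ksum_mem {K A : Type} [Field K] [Ring A] [Algebra K A] (𝔽 : Filt K A) (n : ℕ)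
    (hn : 1 ≤ n) (a : Fin n → A) (w : Fin n → ℕ) (hw : ∀ i, 1 ≤ w i) (ha : ∀ i, a i ∈ 𝔽.F (w i))
    (h : ∀ S : Finset (Fin n),
      ((List.ofFn fun i => if i ∈ S then 1 + a i else 1).prod - 1) ^ n = 0) :
    Ksum n a ∈ 𝔽.F ((∑ i, w i) + 1) := by
  classical
  have hsum := cover_sum a h K
  rw [← Finset.sum_filter] at hsum
  set C : Finset (Fin n → Finset (Fin n)) := Finset.univ.filter fun T =>
    (∀ k, (T k).Nonempty) ∧ Finset.univ.biUnion T = Finset.univ with hC
  set ι : (Fin n ≃ Fin n) → (Fin n → Finset (Fin n)) := fun ρ k => {ρ k} with hι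
  have hιinj : Function.Injective ι := by
    intro ρ ρ' hρ
    ext1 k
    exact Finset.singleton_injective (congrFun hρ k)
  have hsub : Finset.univ.image ι ⊆ C := by
    intro T hT
    obtain ⟨ρ, -, rfl⟩ := Finset.mem_image.1 hT
    rw [hC, Finset.mem_filter]
    refine ⟨Finset.mem_univ _, fun k => Finset.singleton_nonempty _, ?_⟩
    rw [Finset.eq_univ_iff_forall]
    intro i
    rw [Finset.mem_biUnion]
    exact ⟨ρ.symm i, Finset.mem_univ _, by rw [hι]; simp⟩
  have hK : Ksum n a = ∑ T ∈ Finset.univ.image ι, tP a T := by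
    rw [Finset.sum_image fun _ _ _ _ h => hιinj h]
    unfold Ksum tP
    refine Finset.sum_congr rfl fun ρ _ => ?_
    congr 2
    funext k
    exact (ofFn_single a (ρ k)).symm
  have hsplit := Finset.sum_sdiff (f := tP a) hsub
  rw [hsum, ← hK] at hsplit
  have hneg : Ksum n a = -∑ T ∈ C \ Finset.univ.image ι, tP a T := by
    rw [eq_neg_iff_add_eq_zero, add_comm]
    exact hsplit
  rw [hneg]
  refine Submodule.neg_mem _ (Submodule.sum_mem _ fun T hT => ?_)
  obtain ⟨hT1, hT2⟩ := Finset.mem_sdiff.1 hT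
  rw [hC, Finset.mem_filter] at hT1
  obtain ⟨-, hne, hcov⟩ := hT1
  have hcov' : ∀ i, ∃ k, i ∈ T k := by
    intro i
    have h1 : i ∈ Finset.univ.biUnion T := by rw [hcov]; exact Finset.mem_univ _
    obtain ⟨k, -, hk⟩ := Finset.mem_biUnion.1 h1
    exact ⟨k, hk⟩
  -- some set has two elements
  have hbig : ∃ k, 2 ≤ (T k).card := by
    by_contra hcon
    push Not at hcon
    have h1 : ∀ k, ∃ i, T k = {i} := by
      intro k
      have h2 := (hne k).card_pos
      have h3 := hcon k
      exact Finset.card_eq_one.1 (by omega)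
    choose f hf using h1
    have hfs : Function.Surjective f := by
      intro i
      obtain ⟨k, hk⟩ := hcov' i
      rw [hf k, Finset.mem_singleton] at hk
      exact ⟨k, hk.symm⟩
    have hfb : Function.Bijective f := ⟨Finite.injective_iff_surjective.2 hfs, hfs⟩
    apply hT2
    rw [Finset.mem_image]
    refine ⟨Equiv.ofBijective f hfb, Finset.mem_univ _, ?_⟩
    funext k
    rw [hι, hf k]
    rfl
  have hoP : ∀ t : Finset (Fin n), oP a t ∈ 𝔽.F (∑ i ∈ t, w i) := by
    intro t
    have h1 := 𝔽.list_mem (t.piecewise a 1) (fun i => if i ∈ t then w i else 0) (by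
      intro i
      by_cases hi : i ∈ t
      · rw [Finset.piecewise_eq_of_mem _ _ _ hi, if_pos hi]
        exact ha i
      · rw [Finset.piecewise_eq_of_notMem _ _ _ hi, if_neg hi]
        exact 𝔽.one_mem)
    rw [← Finset.sum_filter, Finset.filter_mem_eq_inter, Finset.univ_inter] at h1
    exact h1
  have htP : tP a T ∈ 𝔽.F (∑ k, ∑ i ∈ T k, w i) := 𝔽.list_mem _ _ fun k => hoP (T k)
  refine 𝔽.mono ?_ htP
  -- the count
  have e1 : ∑ k, ∑ i ∈ T k, w i = ∑ i, (Finset.univ.filter fun k => i ∈ T k).card * w i := by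
    have e2 : ∀ k, ∑ i ∈ T k, w i = ∑ i, if i ∈ T k then w i else 0 := by
      intro k
      rw [← Finset.sum_filter, Finset.filter_mem_eq_inter, Finset.univ_inter]
    rw [Finset.sum_congr rfl fun k _ => e2 k, Finset.sum_comm]
    refine Finset.sum_congr rfl fun i _ => ?_
    rw [← Finset.sum_filter, Finset.sum_const, smul_eq_mul]
  have e3 : ∑ k, (T k).card = ∑ i, (Finset.univ.filter fun k => i ∈ T k).card := by
    have e2 : ∀ k, (T k).card = ∑ i, if i ∈ T k then 1 else 0 := by
      intro k
      rw [← Finset.sum_filter, Finset.filter_mem_eq_inter, Finset.univ_inter, Finset.sum_const,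
        smul_eq_mul, mul_one]
    rw [Finset.sum_congr rfl fun k _ => e2 k, Finset.sum_comm]
    refine Finset.sum_congr rfl fun i _ => ?_
    rw [← Finset.sum_filter, Finset.sum_const, smul_eq_mul, mul_one]
  have e4 : n + 1 ≤ ∑ k, (T k).card := by
    obtain ⟨k₀, hk₀⟩ := hbig
    have h1 : ∑ k : Fin n, 1 < ∑ k, (T k).card := by
      refine Finset.sum_lt_sum (fun k _ => (hne k).card_pos) ⟨k₀, Finset.mem_univ _, ?_⟩
      exact hk₀
    rw [Finset.sum_const, Finset.card_univ, Fintype.card_fin, smul_eq_mul, mul_one] at h1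
    exact h1
  rw [e3] at e4
  rw [e1]
  have hm : ∀ i, 1 ≤ (Finset.univ.filter fun k => i ∈ T k).card := by
    intro i
    obtain ⟨k, hk⟩ := hcov' i
    exact Finset.card_pos.2 ⟨k, Finset.mem_filter.2 ⟨Finset.mem_univ _, hk⟩⟩
  have e5 : ∑ i, ((Finset.univ.filter fun k => i ∈ T k).card + w i) ≤
      ∑ i, ((Finset.univ.filter fun k => i ∈ T k).card * w i + 1) := by
    refine Finset.sum_le_sum fun i _ => ?_
    have h1 := hm i
    have h2 := hw i
    obtain ⟨x, hx⟩ := Nat.exists_eq_add_of_le h1
    obtain ⟨y, hy⟩ := Nat.exists_eq_add_of_le h2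
    rw [hx, hy]
    nlinarith [Nat.zero_le (x * y)]
  rw [Finset.sum_add_distrib, Finset.sum_add_distrib, Finset.sum_const, Finset.card_univ,
    Fintype.card_fin, smul_eq_mul, mul_one] at e5
  omega

end Helper44.BL
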