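import Pool.Agent.Helper44.BA.Kp

/-!
# BA-5: symmetrised iterated commutators
-/

namespace Helper44.BL

/-- iterated commutators `[a_1, [a_2, ..., [a_k, b]]]` -/
def adl {A : Type} [Ring A] : List A → A → A
  | [], b => b
  | a :: l, b => a * adl l b - adl l b * a

/-! sums over all lists of distinct elements outside `s` -/

private def Zs {ι A : Type} [Fintype ι] [DecidableEq ι] [AddCommGroup A] :
    ℕ → Finset ι → (List ι → A) → A
  | 0, _, F => F []
  | n + 1, s, F => ∑ i ∈ sᶜ, Zs n (insert i s) (fun l => F (i :: l))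

section Zs

variable {ι A : Type} [Fintype ι] [DecidableEq ι]

private theorem Zs_congr [AddCommGroup A] (n : ℕ) (s : Finset ι) (F G : List ι → A)
    (h : ∀ l, l.length = n → F l = G l) : Zs n s F = Zs n s G := by
  induction n generalizing s F G with
  | zero => exact h [] rfl
  | succ n ih =>
    unfold Zs
    apply Finset.sum_congr rfl
    intro i _
    apply ih
    intro l hl
    exact h _ (by rw [List.length_cons, hl])

private theorem Zs_map {B : Type} [AddCommGroup A] [AddCommGroup B] (φ : A →+ B) (n : ℕ)
    (s : Finset ι) (F : List ι → A) : Zs n s (fun l => φ (F l)) = φ (Zs n s F) := by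
  induction n generalizing s F with
  | zero => rfl
  | succ n ih =>
    unfold Zs
    rw [map_sum]
    apply Finset.sum_congr rfl
    intro i _
    exact ih _ _

private theorem Zs_sub [AddCommGroup A] (n : ℕ) (s : Finset ι) (F G : List ι → A) :
    Zs n s (fun l => F l - G l) = Zs n s F - Zs n s G := by
  induction n generalizing s F G with
  | zero => rfl
  | succ n ih =>
    unfold Zs
    rw [← Finset.sum_sub_distrib]
    apply Finset.sum_congr rfl
    intro i _
    exact ih _ _ _

private theorem Zs_last [AddCommGroup A] (n : ℕ) (s : Finset ι) (F : List ι → A) :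
    Zs (n + 1) s F = ∑ i ∈ sᶜ, Zs n (insert i s) (fun l => F (l ++ [i])) := by
  induction n generalizing s F with
  | zero => rfl
  | succ n ih =>
    have h1 : Zs (n + 1 + 1) s F = ∑ i ∈ sᶜ, ∑ j ∈ (insert i s)ᶜ,
        Zs n (insert j (insert i s)) (fun l => F (i :: (l ++ [j]))) := by
      rw [Zs]
      apply Finset.sum_congr rfl
      intro i _
      exact ih _ _
    have h2 : ∑ j ∈ sᶜ, Zs (n + 1) (insert j s) (fun l => F (l ++ [j])) =
        ∑ j ∈ sᶜ, ∑ i ∈ (insert j s)ᶜ,
          Zs n (insert i (insert j s)) (fun l => F (i :: (l ++ [j]))) := by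
      apply Finset.sum_congr rfl
      intro j _
      rw [Zs]
      rfl
    rw [h1, h2]
    have h3 : ∀ i j, (i ∈ sᶜ ∧ j ∈ (insert i s)ᶜ) ↔ (i ∈ (insert j s)ᶜ ∧ j ∈ sᶜ) := by
      intro i j
      simp only [Finset.mem_compl, Finset.mem_insert, not_or]
      constructor
      · rintro ⟨h4, h5, h6⟩
        exact ⟨⟨fun h => h5 h.symm, h4⟩, h6⟩
      · rintro ⟨⟨h5, h4⟩, h6⟩
        exact ⟨h4, fun h => h5 h.symm, h6⟩
    rw [Finset.sum_comm' h3]
    apply Finset.sum_congr rfl
    intro j _
    apply Finset.sum_congr rfl
    intro i _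
    rw [Finset.insert_comm]

private theorem Zs_fun [AddCommGroup A] (n : ℕ) (s : Finset ι) (F : List ι → A) :
    Zs n s F = ∑ f ∈ Finset.univ.filter (fun f : Fin n → ι =>
      Function.Injective f ∧ ∀ k, f k ∉ s), F (List.ofFn f) := by
  induction n generalizing s F with
  | zero =>
    have h1 : (Finset.univ.filter (fun f : Fin 0 → ι =>
        Function.Injective f ∧ ∀ k, f k ∉ s)) = Finset.univ := by
      apply Finset.filter_true_of_mem
      intro f _
      exact ⟨fun x => x.elim0, fun x => x.elim0⟩
    rw [h1, Zs]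
    simp
  | succ n ih =>
    rw [Zs]
    simp only [ih]
    rw [Finset.sum_sigma']
    refine Finset.sum_bij' (fun x _ => (Fin.cons x.1 x.2 : Fin (n + 1) → ι))
      (fun f _ => ⟨f 0, Fin.tail f⟩) ?_ ?_ ?_ ?_ ?_
    · rintro ⟨i, f⟩ h
      simp only [Finset.mem_sigma, Finset.mem_compl, Finset.mem_filter, Finset.mem_univ,
        true_and, Finset.mem_insert, not_or] at h
      obtain ⟨h1, h2, h3⟩ := h
      simp only [Finset.mem_filter, Finset.mem_univ, true_and]
      refine ⟨?_, ?_⟩
      · rw [Fin.cons_injective_iff]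
        refine ⟨?_, h2⟩
        rintro ⟨k, hk⟩
        exact (h3 k).1 hk
      · intro k
        refine Fin.cases ?_ (fun k => ?_) k
        · exact h1
        · exact (h3 k).2
    · intro f h
      simp only [Finset.mem_filter, Finset.mem_univ, true_and] at h
      simp only [Finset.mem_sigma, Finset.mem_compl, Finset.mem_filter, Finset.mem_univ,
        true_and, Finset.mem_insert, not_or]
      refine ⟨h.2 0, ?_, ?_⟩
      · intro x y hxy
        exact Fin.succ_injective _ (h.1 hxy)
      · intro k
        refine ⟨fun h1 => ?_, h.2 _⟩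
        have := h.1 h1
        exact Fin.succ_ne_zero _ this
    · rintro ⟨i, f⟩ _
      simp
    · intro f _
      simp
    · rintro ⟨i, f⟩ _
      simp [List.ofFn_succ]

private theorem Zs_equiv [AddCommGroup A] (n : ℕ) (hn : Fintype.card ι = n) (F : List ι → A) :
    Zs n ∅ F = ∑ ρ : Fin n ≃ ι, F (List.ofFn ρ) := by
  rw [Zs_fun]
  symm
  refine Finset.sum_bij (fun ρ _ => (ρ : Fin n → ι)) ?_ ?_ ?_ ?_
  · intro ρ _
    simp only [Finset.mem_filter, Finset.mem_univ, true_and]
    exact ⟨ρ.injective, fun k => Finset.notMem_empty _⟩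
  · intro ρ _ σ _ h
    exact DFunLike.coe_injective h
  · intro f hf
    simp only [Finset.mem_filter, Finset.mem_univ, true_and] at hf
    have hb : Function.Bijective f :=
      (Fintype.bijective_iff_injective_and_card f).2 ⟨hf.1, by rw [Fintype.card_fin, hn]⟩
    exact ⟨Equiv.ofBijective f hb, Finset.mem_univ _, rfl⟩
  · intro ρ _
    rfl

private theorem Zs_none [AddCommGroup A] (n : ℕ) (s : Finset ι) (F : List (Option ι) → A) :
    Zs n (insert none (s.map Function.Embedding.some)) F = Zs n s (fun l => F (l.map some)) := by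
  induction n generalizing s F with
  | zero => rfl
  | succ n ih =>
    rw [Zs, Zs]
    have h1 : (insert none (s.map Function.Embedding.some))ᶜ =
        sᶜ.map (Function.Embedding.some : ι ↪ Option ι) := by
      ext x
      cases x <;> simp
    rw [h1, Finset.sum_map]
    apply Finset.sum_congr rfl
    intro i _
    have h2 : insert (Function.Embedding.some i) (insert none (s.map Function.Embedding.some)) =
        insert none ((insert i s).map (Function.Embedding.some : ι ↪ Option ι)) := by
      rw [Finset.map_insert, Finset.insert_comm]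
    rw [h2, ih]
    rfl

variable [Ring A]

/-- sum of the products with `b` in position `m` -/
private def Tm (a : ι → A) (b : A) (n m : ℕ) (s : Finset ι) : A :=
  Zs n s (fun l => ((l.map a).take m).prod * b * ((l.map a).drop m).prod)

private theorem Tm_first (a : ι → A) (b : A) (n m : ℕ) (s : Finset ι) :
    Tm a b (n + 1) (m + 1) s = ∑ i ∈ sᶜ, a i * Tm a b n m (insert i s) := by
  unfold Tm
  rw [Zs]
  apply Finset.sum_congr rfl
  intro i _
  have h := Zs_map (AddMonoidHom.mulLeft (a i)) n (insert i s)
    (fun l => ((l.map a).take m).prod * b * ((l.map a).drop m).prod)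
  simp only [AddMonoidHom.coe_mulLeft] at h
  rw [← h]
  apply Zs_congr
  intro l _
  simp [mul_assoc]

private theorem Tm_last (a : ι → A) (b : A) (n m : ℕ) (hm : m ≤ n) (s : Finset ι) :
    Tm a b (n + 1) m s = ∑ i ∈ sᶜ, Tm a b n m (insert i s) * a i := by
  unfold Tm
  rw [Zs_last]
  apply Finset.sum_congr rfl
  intro i _
  have h := Zs_map (AddMonoidHom.mulRight (a i)) n (insert i s)
    (fun l => ((l.map a).take m).prod * b * ((l.map a).drop m).prod)
  simp only [AddMonoidHom.mulRight_apply] at h
  rw [← h]
  apply Zs_congr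
  intro l hl
  have h1 : m ≤ (l.map a).length := by rw [List.length_map, hl]; exact hm
  rw [List.map_append, List.take_append_of_le_length h1, List.drop_append_of_le_length h1]
  simp [mul_assoc]

private theorem Zs_adl (a : ι → A) (b : A) (n : ℕ) (s : Finset ι) :
    Zs n s (fun l => adl (l.map a) b) =
      ∑ m ∈ Finset.range (n + 1), ((-1 : ℤ) ^ (n - m) * (n.choose m : ℤ)) • Tm a b n m s := by
  induction n generalizing s with
  | zero => simp [Zs, Tm, adl]
  | succ n ih =>
    have h1 : Zs (n + 1) s (fun l => adl (l.map a) b) =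
        ∑ i ∈ sᶜ, (a i * Zs n (insert i s) (fun l => adl (l.map a) b) -
          Zs n (insert i s) (fun l => adl (l.map a) b) * a i) := by
      rw [Zs]
      apply Finset.sum_congr rfl
      intro i _
      have h2 := Zs_map (AddMonoidHom.mulLeft (a i)) n (insert i s) (fun l => adl (l.map a) b)
      have h3 := Zs_map (AddMonoidHom.mulRight (a i)) n (insert i s) (fun l => adl (l.map a) b)
      simp only [AddMonoidHom.coe_mulLeft, AddMonoidHom.mulRight_apply] at h2 h3
      rw [← h2, ← h3, ← Zs_sub]
      rfl
    have h4 : ∑ i ∈ sᶜ, (a i * Zs n (insert i s) (fun l => adl (l.map a) b) -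
          Zs n (insert i s) (fun l => adl (l.map a) b) * a i) =
        ∑ m ∈ Finset.range (n + 1), ((-1 : ℤ) ^ (n - m) * (n.choose m : ℤ)) •
          (Tm a b (n + 1) (m + 1) s - Tm a b (n + 1) m s) := by
      have h5 : ∀ i ∈ sᶜ, (a i * Zs n (insert i s) (fun l => adl (l.map a) b) -
          Zs n (insert i s) (fun l => adl (l.map a) b) * a i) =
          ∑ m ∈ Finset.range (n + 1), ((-1 : ℤ) ^ (n - m) * (n.choose m : ℤ)) •
            (a i * Tm a b n m (insert i s) - Tm a b n m (insert i s) * a i) := by
        intro i _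
        rw [ih, Finset.mul_sum, Finset.sum_mul, ← Finset.sum_sub_distrib]
        apply Finset.sum_congr rfl
        intro m _
        rw [mul_smul_comm, smul_mul_assoc, ← smul_sub]
      rw [Finset.sum_congr rfl h5, Finset.sum_comm]
      apply Finset.sum_congr rfl
      intro m hm
      have hm' := Finset.mem_range.1 hm
      rw [← Finset.smul_sum, Finset.sum_sub_distrib, ← Tm_first, ← Tm_last _ _ _ _ (by omega)]
    rw [h1, h4]
    simp only [smul_sub]
    rw [Finset.sum_sub_distrib, Finset.sum_range_succ' _ (n + 1)]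
    have h6 : ∑ m ∈ Finset.range (n + 1), ((-1 : ℤ) ^ (n - m) * (n.choose m : ℤ)) •
        Tm a b (n + 1) m s =
        ∑ m ∈ Finset.range (n + 1), ((-1 : ℤ) ^ (n - (m + 1)) * (n.choose (m + 1) : ℤ)) •
          Tm a b (n + 1) (m + 1) s + ((-1 : ℤ) ^ n * (n.choose 0 : ℤ)) • Tm a b (n + 1) 0 s := by
      rw [Finset.sum_range_succ' _ n, Finset.sum_range_succ _ n]
      simp
    rw [h6, ← sub_sub, ← Finset.sum_sub_distrib, sub_eq_add_neg]
    congr 1
    · apply Finset.sum_congr rfl
      intro m hm
      have hm' := Finset.mem_range.1 hm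
      rw [← sub_smul]
      congr 1
      have e1 : n + 1 - (m + 1) = n - m := by omega
      rw [e1, Nat.choose_succ_succ]
      rcases Nat.lt_or_ge m n with h | h
      · have e2 : n - m = (n - (m + 1)) + 1 := by omega
        rw [e2, pow_succ]
        push_cast
        ring
      · have e2 : m = n := by omega
        subst e2
        simp
    · rw [← neg_smul]
      congr 1
      simp only [Nat.choose_zero_right, Nat.sub_zero]
      rw [pow_succ]
      push_cast
      ring

private theorem Zs_prod (a : ι → A) (b : A) (n : ℕ) (s : Finset ι) (hs : sᶜ.card = n) :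
    Zs (n + 1) (s.map Function.Embedding.some)
        (fun l => (l.map (fun i : Option ι => i.elim b a)).prod) =
      ∑ m ∈ Finset.range (n + 1), Tm a b n m s := by
  induction n generalizing s with
  | zero =>
    rw [Zs]
    have h1 : (s.map (Function.Embedding.some : ι ↪ Option ι))ᶜ = Finset.insertNone sᶜ := by
      ext x
      cases x <;> simp
    rw [Finset.card_eq_zero] at hs
    rw [h1, Finset.sum_insertNone, hs]
    simp [Zs, Tm]
  | succ n ih =>
    rw [Zs]
    have h1 : (s.map (Function.Embedding.some : ι ↪ Option ι))ᶜ = Finset.insertNone sᶜ := by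
      ext x
      cases x <;> simp
    rw [h1, Finset.sum_insertNone, Zs_none, Finset.sum_range_succ', add_comm]
    congr 1
    · simp only [Tm_first]
      rw [Finset.sum_comm]
      apply Finset.sum_congr rfl
      intro i hi
      have h2 := ih (insert i s) (by
        rw [Finset.compl_insert, Finset.card_erase_of_mem hi, hs]
        rfl)
      have h3 := Zs_map (AddMonoidHom.mulLeft (a i)) (n + 1)
        ((insert i s).map (Function.Embedding.some : ι ↪ Option ι))
        (fun l => (l.map (fun i : Option ι => i.elim b a)).prod)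
      simp only [AddMonoidHom.coe_mulLeft] at h3
      rw [← Finset.mul_sum, ← h2, ← h3, Finset.map_insert]
      apply Zs_congr
      intro l _
      simp
    · unfold Tm
      apply Zs_congr
      intro l _
      simp [Function.comp_def]

end Zs

/-- `(-1)^k C(p-1, k) = 1` modulo `p` -/
private theorem ba5_choose_pred {p : ℕ} (hp : p.Prime) (k : ℕ) (hk : k < p) :
    (p : ℤ) ∣ (-1 : ℤ) ^ k * ((p - 1).choose k : ℤ) - 1 := by
  have hp2 := hp.two_le
  induction k with
  | zero => simp
  | succ k ih =>
    obtain ⟨c, hc⟩ := ih (by omega)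
    have h1 : p ∣ p.choose (k + 1) := hp.dvd_choose_self (by omega) hk
    have h2 : p.choose (k + 1) = (p - 1).choose k + (p - 1).choose (k + 1) := by
      obtain ⟨q, rfl⟩ : ∃ q, p = q + 1 := ⟨p - 1, by omega⟩
      rw [Nat.choose_succ_succ]
      rfl
    obtain ⟨d, hd⟩ := h1
    have h3 : ((p - 1).choose (k + 1) : ℤ) = p * d - ((p - 1).choose k : ℤ) := by
      have : ((p.choose (k + 1) : ℕ) : ℤ) = ((p * d : ℕ) : ℤ) := by rw [hd]
      rw [h2] at this
      push_cast at this
      linarith
    refine ⟨c + (-1) ^ (k + 1) * d, ?_⟩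
    rw [h3]
    have h4 : (-1 : ℤ) ^ (k + 1) = -(-1) ^ k := by rw [pow_succ]; ring
    rw [h4]
    linear_combination hc

/-- In characteristic `p = n + 1`: the symmetrised iterated commutator is the symmetrised product.
For a fixed subset of positions the sum over all permutations of the products
`(left part) b (right part reversed)` is the sum of all orderings with `b` in position `m`, and
`(-1)^(n-m) C(n, m) = 1` modulo `n + 1`. (Or: both sides are polarisations of
`(ad U)^n b = ∑ U^i b U^(n-i)`, see `ad_pow_pred` in `BL/Polar.lean`.) -/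
theorem adl_sum {A : Type} [Ring A] (n : ℕ) (hn : (n + 1).Prime)
    (hA : ∀ x : A, (n + 1) • x = 0) (a : Fin n → A) (b : A) :
    ∑ π : Equiv.Perm (Fin n), adl (List.ofFn fun k => a (π k)) b =
      Ksum (n + 1) (fun i : Option (Fin n) => i.elim b a) := by
  have hL : ∑ π : Equiv.Perm (Fin n), adl (List.ofFn fun k => a (π k)) b =
      Zs n (∅ : Finset (Fin n)) (fun l => adl (l.map a) b) := by
    rw [Zs_equiv n (Fintype.card_fin n)]
    apply Finset.sum_congr rfl
    intro π _
    rw [List.map_ofFn]
    rfl
  have hR : Ksum (n + 1) (fun i : Option (Fin n) => i.elim b a) =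
      Zs (n + 1) (∅ : Finset (Option (Fin n)))
        (fun l => (l.map (fun i : Option (Fin n) => i.elim b a)).prod) := by
    rw [Zs_equiv (n + 1) (by simp), Ksum]
    apply Finset.sum_congr rfl
    intro π _
    rw [List.map_ofFn]
    rfl
  have hR2 := Zs_prod a b n (∅ : Finset (Fin n)) (by simp)
  rw [Finset.map_empty] at hR2
  rw [hL, hR, hR2, Zs_adl]
  apply Finset.sum_congr rfl
  intro m hm
  have hm' := Finset.mem_range.1 hm
  obtain ⟨c, hc⟩ := ba5_choose_pred hn (n - m) (by omega)
  rw [Nat.add_sub_cancel, Nat.choose_symm (by omega)] at hc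
  have e : (-1 : ℤ) ^ (n - m) * (n.choose m : ℤ) = 1 + c * ((n + 1 : ℕ) : ℤ) := by
    linarith
  rw [e, add_smul, one_smul, mul_smul, natCast_zsmul, hA, smul_zero, add_zero]

end Helper44.BL
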