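import Pool.Agent.Helper44.BA.ZetFil
import Pool.Agent.Helper44.BA.Ev
import Pool.Agent.Helper44.BA.EngelB

/-!
# BA-13: the elements `zet p i j` are in the kernel of `natMap`
-/

namespace Helper44.BL

open Pool.Agent.Helper27.BE Pool.Agent.Helper27.BE.Gr

variable {p : ℕ} [Fact p.Prime]

private theorem pa_of {G : Type} [Group G] (g : G) :
    1 + dlt p G g = MonoidAlgebra.of (ZMod p) G g := by
  unfold dlt
  abel

private theorem pa_dlt_pow {G : Type} [Group G] [ExpP p G] (g : G) : dlt p G g ^ p = 0 := by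
  have h4 := Pool.Agent.Helper31.BE.dlt_pow (p := p) g 1
  rw [pow_one, ExpP.pow_eq] at h4
  rw [← h4]
  unfold dlt
  rw [map_one, sub_self]

private theorem pa_comm_eq {G : Type} [Group G] (x y : G) :
    dlt p G x * dlt p G y - dlt p G y * dlt p G x =
      dlt p G (cm x y) + dlt p G (cm x y) * dlt p G (y * x) := by
  have h : MonoidAlgebra.of (ZMod p) G (cm x y) * MonoidAlgebra.of (ZMod p) G (y * x) =
      MonoidAlgebra.of (ZMod p) G (x * y) := by
    rw [← map_mul]; congr 1; unfold cm; group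
  have h1 : dlt p G x * dlt p G y - dlt p G y * dlt p G x =
      MonoidAlgebra.of (ZMod p) G (x * y) - MonoidAlgebra.of (ZMod p) G (y * x) := by
    unfold dlt; rw [map_mul, map_mul]; noncomm_ring
  have h2 : dlt p G (cm x y) + dlt p G (cm x y) * dlt p G (y * x) =
      MonoidAlgebra.of (ZMod p) G (cm x y) * MonoidAlgebra.of (ZMod p) G (y * x) -
        MonoidAlgebra.of (ZMod p) G (y * x) := by
    unfold dlt; noncomm_ring
  rw [h1, h2, h]

/-- `arrE_mem` in the group algebra of `RB p`: `x = dlt gx`, `y = dlt gy`, `c = dlt (cm gx gy)`;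
`1 + dlt g` is the group element `g`, `x^p = dlt (gx^p) = 0`;
`c - (x y - y x) = (x y - y x) ((gy gx)⁻¹ - 1)`. -/
theorem Ev.zet_mem (E : Ev p) {i j : ℕ} (hi : i < p) (hj : j < p) :
    E.E (zet p i j) ∈ Fil p (RB p) (i + j + 3) := by
  rw [E.map_zet]
  have hcm : cm (gen p true) (gen p false) ∈ gam (RB p) 2 :=
    (Pool.Agent.Helper31.BE.gamCalc (RB p)).comm 1 1 (le_refl 1) (le_refl 1) _ trivial _ trivial
  have hc : dlt p (RB p) (cm (gen p true) (gen p false)) ∈ Fil p (RB p) 2 :=
    Pool.Agent.Helper31.BE.dlt_gam_mem hcm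
  have hof : ∀ g : RB p, MonoidAlgebra.of (ZMod p) (RB p) g ^ p = 1 := by
    intro g
    rw [← map_pow, ExpP.pow_eq, map_one]
  refine arrE_mem (filG p (RB p)) (c := dlt p (RB p) (cm (gen p true) (gen p false)))
    (dlt_mem_one _) (dlt_mem_one _) hc ?_ (pa_dlt_pow _) (pa_dlt_pow _) ?_ ?_ hi hj
  · have e : dlt p (RB p) (cm (gen p true) (gen p false)) -
        (dlt p (RB p) (gen p true) * dlt p (RB p) (gen p false) -
          dlt p (RB p) (gen p false) * dlt p (RB p) (gen p true)) =
        -(dlt p (RB p) (cm (gen p true) (gen p false)) *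
          dlt p (RB p) (gen p false * gen p true)) := by
      rw [pa_comm_eq]
      abel
    rw [e]
    exact Submodule.neg_mem _ (Pool.Agent.Helper76.BE.Fil_mul 2 1
      (Submodule.mul_mem_mul hc (dlt_mem_one _)))
  · intro u v
    rw [pa_of, pa_of, ← map_pow, ← map_pow, ← map_mul]
    exact hof _
  · intro u v
    rw [pa_of, pa_of, pa_of, ← map_pow, ← map_pow, ← map_mul, ← map_mul]
    exact hof _

/-- **Part (A)**: `Ev.rel_zet`, `Ev.zet_mem`, `GRel.eq_zero` -/
theorem natMap_zet {i j : ℕ} (hi : i < p) (hj : j < p) : natMap p (zet p i j) = 0 := by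
  obtain ⟨E⟩ := exists_ev p
  exact GRel.eq_zero (by omega) (E.rel_zet i j) (E.zet_mem hi hj)

end Helper44.BL
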