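import Pool.Agent.Helper44.BL.Defs

/-!
# A-surj: the homomorphism `natMap p` is surjective
-/

set_option autoImplicit false

namespace Helper44.BL

open Pool.Agent.Helper27.BE Pool.Agent.Helper27.BE.Gr

section

variable {G : Type} [Group G]

theorem LG.of_mul (i : ℕ) (x y : gam G i) : LG.cls i (x * y) = LG.cls i x + LG.cls i y := by
  unfold LG.cls
  rw [qq_mul, map_add]

theorem LG.cls_one (i : ℕ) : LG.cls i (1 : gam G i) = 0 := by
  unfold LG.cls
  rw [qq_one, map_zero]

theorem LG.cls_inv (i : ℕ) (x : gam G i) : LG.cls i x⁻¹ = - LG.cls i x := by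
  rw [eq_neg_iff_add_eq_zero, ← LG.of_mul, inv_mul_cancel, LG.cls_one]

/-- An additive subgroup of `LG G` which contains the classes of the elements of a generating set
of `G` and is closed under brackets with elements of degree one is everything. -/
theorem LG.generated (S : Set G) (hS : Subgroup.closure S = ⊤) (A : AddSubgroup (LG G))
    (h1 : ∀ g ∈ S, LG.cls 1 (⟨g, trivial⟩ : gam G 1) ∈ A)
    (h2 : ∀ x ∈ A, ∀ y ∈ A, LG.br x y ∈ A) : A = ⊤ := by
  have hdeg1 : ∀ g : G, LG.cls 1 (⟨g, trivial⟩ : gam G 1) ∈ A := by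
    intro g
    have hg : g ∈ Subgroup.closure S := hS ▸ Subgroup.mem_top g
    refine Subgroup.closure_induction (p := fun g _ =>
      LG.cls 1 (⟨g, trivial⟩ : gam G 1) ∈ A) h1 ?_ ?_ ?_ hg
    · have : (⟨1, trivial⟩ : gam G 1) = 1 := rfl
      rw [this, LG.cls_one]
      exact zero_mem _
    · intro a b _ _ ha hb
      have : (⟨a * b, trivial⟩ : gam G 1) = ⟨a, trivial⟩ * ⟨b, trivial⟩ := rfl
      rw [this, LG.of_mul]
      exact add_mem ha hb
    · intro a _ ha
      have : (⟨a⁻¹, trivial⟩ : gam G 1) = (⟨a, trivial⟩ : gam G 1)⁻¹ := rfl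
      rw [this, LG.cls_inv]
      exact neg_mem ha
  have hC := Pool.Agent.Helper31.BE.gamCalc G
  have hall : ∀ i : ℕ, ∀ x : gam G (i + 1), LG.cls (i + 1) x ∈ A := by
    intro i
    induction i with
    | zero =>
      rintro ⟨x, hx⟩
      exact hdeg1 x
    | succ i ih =>
      rintro ⟨x, hx⟩
      have hle : Subgroup.closure {z | ∃ x : G, ∃ y ∈ gam G (i + 1), z = cm x y} ≤
          gam G (i + 1 + 1) := by rw [← hC.gen (i + 1) (by omega)]
      have hx' : x ∈ Subgroup.closure {z | ∃ x : G, ∃ y ∈ gam G (i + 1), z = cm x y} := by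
        rw [← hC.gen (i + 1) (by omega)]
        exact hx
      revert hx
      refine Subgroup.closure_induction (p := fun g _ => ∀ hg : g ∈ gam G (i + 1 + 1),
        LG.cls (i + 1 + 1) ⟨g, hg⟩ ∈ A) ?_ ?_ ?_ ?_ hx'
      · rintro z ⟨a, b, hb, rfl⟩ hz
        have hz' : cm a b ∈ gam G (1 + (i + 1)) := by
          have e : 1 + (i + 1) = i + 1 + 1 := by omega
          rwa [e]
        have h3 := h2 _ (hdeg1 a) _ (ih ⟨b, hb⟩)
        have h4 := LG.br_cls 1 (i + 1) le_rfl (by omega) (⟨a, trivial⟩ : gam G 1) ⟨b, hb⟩ hz'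
        rw [h4] at h3
        rw [LG.cls_congr (by omega : i + 1 + 1 = 1 + (i + 1)) _ hz hz']
        exact h3
      · intro h
        have : (⟨1, h⟩ : gam G (i + 1 + 1)) = 1 := rfl
        rw [this, LG.cls_one]
        exact zero_mem _
      · intro a b ha hb iha ihb hab
        have : (⟨a * b, hab⟩ : gam G (i + 1 + 1)) = ⟨a, hle ha⟩ * ⟨b, hle hb⟩ := rfl
        rw [this, LG.of_mul]
        exact add_mem (iha _) (ihb _)
      · intro a ha iha hainv
        have : (⟨a⁻¹, hainv⟩ : gam G (i + 1 + 1)) = (⟨a, hle ha⟩ : gam G (i + 1 + 1))⁻¹ := rfl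
        rw [this, LG.cls_inv]
        exact neg_mem (iha _)
  rw [eq_top_iff]
  intro x _
  induction x using LG.ind with
  | h0 => exact zero_mem _
  | ha x y hx hy => exact add_mem (hx trivial) (hy trivial)
  | hc i hi x =>
    obtain ⟨j, rfl⟩ : ∃ j, i = j + 1 := ⟨i - 1, by omega⟩
    exact hall j x

end

/-- The two generators generate the group. -/
theorem closure_gen (p : ℕ) : Subgroup.closure (Set.range (gen p)) = ⊤ := by
  have h := FreeGroup.closure_range_of Bool
  have h2 : Set.range (gen p) = (QuotientGroup.mk' (resKer p)) '' (Set.range FreeGroup.of) := by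
    rw [← Set.range_comp]
    rfl
  rw [h2]
  have h3 := MonoidHom.map_closure (QuotientGroup.mk' (resKer p)) (Set.range (FreeGroup.of (α := Bool)))
  rw [h] at h3
  rw [Subgroup.map_top_of_surjective _ (QuotientGroup.mk'_surjective _)] at h3
  exact h3.symm

theorem natMap_of (p : ℕ) (a : Bool) :
    natMap p (FreeLieAlgebra.of (ZMod p) a) = LG.cls 1 ⟨gen p a, trivial⟩ := by
  unfold natMap
  rw [FreeLieAlgebra.lift_of_apply]

theorem natMap_surjective (p : ℕ) : Function.Surjective (natMap p) := by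
  have h := LG.generated (Set.range (gen p)) (closure_gen p)
    ((natMap p).range.toSubmodule.toAddSubgroup) (by
      rintro _ ⟨a, rfl⟩
      exact ⟨FreeLieAlgebra.of (ZMod p) a, natMap_of p a⟩) (by
      intro x hx y hy
      exact (natMap p).range.lie_mem hx hy)
  intro x
  have hx : x ∈ (natMap p).range.toSubmodule.toAddSubgroup := by
    rw [h]
    trivial
  exact hx

end Helper44.BL
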