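import Pool.Agent.Helper44.BL.PartB
import Pool.Agent.Helper44.BA.PartA
import Pool.Agent.Helper44.BA.Surj

/-!
# The natural surjection `Λ(2) → L(B̄(2, p))` is not injective for `p ≥ 11`
-/

namespace Helper44.BL

open Pool.Agent.Helper27.BE Pool.Agent.Helper27.BE.Gr

variable {p : ℕ} [Fact p.Prime]

/-- `ν` is the natural homomorphism: it maps the generators of `Λ(2)` to the classes in
`γ_1 / γ_2` of the generators of the group -/
def IsNat (p : ℕ) [Fact p.Prime] (ν : Lam p →ₗ⁅ZMod p⁆ LG (RB p)) : Prop :=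
  ∀ a : Bool, ν (LieSubmodule.Quotient.mk (N := engel p) (FreeLieAlgebra.of (ZMod p) a)) =
    LG.cls 1 ⟨gen p a, trivial⟩

/-- a natural homomorphism is induced by `natMap` -/
theorem IsNat.eq {ν : Lam p →ₗ⁅ZMod p⁆ LG (RB p)} (hν : IsNat p ν) (z : FL p) :
    ν (LieSubmodule.Quotient.mk (N := engel p) z) = natMap p z := by
  refine FL_induction (fun z => ν (LieSubmodule.Quotient.mk (N := engel p) z) = natMap p z) ?_ ?_ ?_ ?_ ?_ z
  · intro a
    rw [hν a]
    exact (FreeLieAlgebra.lift_of_apply (R := ZMod p) (L := LG (RB p))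
      (fun a => LG.cls 1 ⟨gen p a, trivial⟩) a).symm
  · have h : (LieSubmodule.Quotient.mk (N := engel p) (0 : FL p) : Lam p) = 0 := rfl
    rw [h, map_zero, map_zero]
  · intro u v hu hv
    have h : (LieSubmodule.Quotient.mk (N := engel p) (u + v) : Lam p) =
      LieSubmodule.Quotient.mk (N := engel p) u + LieSubmodule.Quotient.mk (N := engel p) v := rfl
    rw [h, map_add, hu, hv, map_add]
  · intro c u hu
    have h : (LieSubmodule.Quotient.mk (N := engel p) (c • u) : Lam p) = c • LieSubmodule.Quotient.mk (N := engel p) u := rfl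
    rw [h, map_smul, hu, map_smul]
  · intro u v hu hv
    rw [LieSubmodule.Quotient.mk_bracket, LieHom.map_lie, hu, hv, LieHom.map_lie]

theorem exists_isNat (p : ℕ) [Fact p.Prime] : ∃ ν : Lam p →ₗ⁅ZMod p⁆ LG (RB p), IsNat p ν := by
  have h : (engel p).toSubmodule ≤ LinearMap.ker (natMap p : FL p →ₗ[ZMod p] LG (RB p)) := by
    intro z hz
    exact engel_le_ker p z hz
  refine ⟨{ Submodule.liftQ _ (natMap p : FL p →ₗ[ZMod p] LG (RB p)) h with
    map_lie' := ?_ }, ?_⟩
  · intro x y
    obtain ⟨x, rfl⟩ := Submodule.Quotient.mk_surjective _ x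
    obtain ⟨y, rfl⟩ := Submodule.Quotient.mk_surjective _ y
    exact LieHom.map_lie (natMap p) x y
  · intro a
    exact FreeLieAlgebra.lift_of_apply (R := ZMod p) (L := LG (RB p))
      (fun a => LG.cls 1 ⟨gen p a, trivial⟩) a

theorem main (hp : 11 ≤ p) : (∃! ν : Lam p →ₗ⁅ZMod p⁆ LG (RB p), IsNat p ν) ∧
    ∀ ν : Lam p →ₗ⁅ZMod p⁆ LG (RB p), IsNat p ν →
      Function.Surjective ν ∧ ¬ Function.Injective ν := by
  refine ⟨?_, ?_⟩
  · obtain ⟨ν, hν⟩ := exists_isNat p
    refine ⟨ν, hν, fun μ hμ => ?_⟩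
    apply LieHom.ext
    intro x
    obtain ⟨z, rfl⟩ := Submodule.Quotient.mk_surjective _ x
    exact (hμ.eq z).trans (hν.eq z).symm
  · intro ν hν
    refine ⟨?_, ?_⟩
    · intro y
      obtain ⟨z, hz⟩ := natMap_surjective p y
      exact ⟨LieSubmodule.Quotient.mk (N := engel p) z, (hν.eq z).trans hz⟩
    · intro hinj
      obtain ⟨i, hi, j, hj, h⟩ := exists_zet_not_mem (p := p) hp
      apply h
      have h1 : ν (LieSubmodule.Quotient.mk (N := engel p) (zet p i j)) = 0 := by
        rw [hν.eq, natMap_zet hi hj]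
      have h2 : (LieSubmodule.Quotient.mk (N := engel p) (zet p i j) : Lam p) = 0 := by
        apply hinj
        rw [h1, map_zero]
      exact LieSubmodule.Quotient.mk_eq_zero'.mp h2

end Helper44.BL
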