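import Pool.Agent.Helper44.BA.Main


/-!
# The concrete associated Lie ring is a model, and all models are images of it
-/

namespace Helper44.BL

open Pool.Agent.Helper27.BE Pool.Agent.Helper27.BE.Gr

section

variable {G : Type} [Group G]

open Classical in
/-- the class maps of the concrete associated Lie ring -/
noncomputable def lgc (i : ℕ) (x : G) : LG G :=
  if h : x ∈ gam G (i + 1) then LG.cls (i + 1) ⟨x, h⟩ else 0

theorem lgc_of {i : ℕ} {x : G} (h : x ∈ gam G (i + 1)) : lgc i x = LG.cls (i + 1) ⟨x, h⟩ := by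
  unfold lgc
  rw [dif_pos h]

theorem LG.of_inj (i : ℕ) {x : Vv G i} (h : LG.of i x = 0) : x = 0 := by
  have h' : DirectSum.of (fun i => Vv G i) i x = DirectSum.of (fun i => Vv G i) i 0 := by
    rw [map_zero]
    exact h
  exact DirectSum.of_injective i h'

theorem lgc_add (i : ℕ) (x : G) (hx : x ∈ gam G (i + 1)) (y : G) (hy : y ∈ gam G (i + 1)) :
    lgc i (x * y) = lgc i x + lgc i y := by
  rw [lgc_of hx, lgc_of hy, lgc_of (mul_mem hx hy)]
  exact LG.of_mul (i + 1) ⟨x, hx⟩ ⟨y, hy⟩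

theorem lgc_ker (i : ℕ) (x : G) (hx : x ∈ gam G (i + 1)) :
    lgc i x = 0 ↔ x ∈ gam G (i + 1 + 1) := by
  rw [lgc_of hx, ← qq_zero (i + 1) ⟨x, hx⟩ (by omega)]
  constructor
  · intro h
    exact LG.of_inj _ h
  · intro h
    unfold LG.cls
    rw [h, map_zero]

theorem lgc_lie (i : ℕ) (x : G) (hx : x ∈ gam G (i + 1)) (j : ℕ) (y : G)
    (hy : y ∈ gam G (j + 1)) : ⁅lgc i x, lgc j y⁆ = lgc (i + j + 1) (x * y * x⁻¹ * y⁻¹) := by
  have hC := Pool.Agent.Helper31.BE.gamCalc G
  have m1 : cm x y ∈ gam G (i + 1 + (j + 1)) := hC.comm _ _ (by omega) (by omega) x hx y hy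
  have m2 : cm x y ∈ gam G (i + j + 1 + 1) := by
    have e : i + 1 + (j + 1) = i + j + 1 + 1 := by omega
    rwa [← e]
  rw [lgc_of hx, lgc_of hy]
  have h1 := LG.br_cls (i + 1) (j + 1) (by omega) (by omega) ⟨x, hx⟩ ⟨y, hy⟩ m1
  have h2 : lgc (i + j + 1) (x * y * x⁻¹ * y⁻¹) = LG.cls (i + j + 1 + 1) ⟨cm x y, m2⟩ :=
    lgc_of (x := cm x y) m2
  rw [h2]
  exact h1.trans (LG.cls_congr (by omega) _ _ _)

theorem lgc_one (i : ℕ) : lgc i (1 : G) = 0 :=
  (lgc_ker i 1 (one_mem _)).2 (one_mem _)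

theorem lgc_span (z : LG G) : ∃ (n : ℕ) (x : ℕ → G), (∀ i, x i ∈ gam G (i + 1)) ∧
    z = ∑ i ∈ Finset.range n, lgc i (x i) := by
  suffices h : ∃ n : ℕ, ∀ m, n ≤ m → ∃ x : ℕ → G, (∀ i, x i ∈ gam G (i + 1)) ∧
      z = ∑ i ∈ Finset.range m, lgc i (x i) by
    obtain ⟨n, hn⟩ := h
    obtain ⟨x, hx⟩ := hn n le_rfl
    exact ⟨n, x, hx⟩
  induction z using LG.ind with
  | h0 =>
    refine ⟨0, fun m _ => ⟨fun _ => 1, fun i => one_mem _, ?_⟩⟩
    rw [Finset.sum_eq_zero fun i _ => lgc_one i]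
  | hc i hi x =>
    obtain ⟨j, rfl⟩ : ∃ j, i = j + 1 := ⟨i - 1, by omega⟩
    refine ⟨j + 1, fun m hm => ⟨fun k => if k = j then (x : G) else 1, fun k => ?_, ?_⟩⟩
    · dsimp only
      split_ifs with h
      · subst h
        exact x.2
      · exact one_mem _
    · rw [Finset.sum_eq_single j]
      · show LG.cls (j + 1) x = lgc j (if j = j then (x : G) else 1)
        rw [if_pos rfl, lgc_of x.2]
      · intro k _ hk
        show lgc k (if k = j then (x : G) else 1) = 0
        rw [if_neg hk, lgc_one]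
      · intro h
        exact absurd (Finset.mem_range.2 (by omega)) h
  | ha u v hu hv =>
    obtain ⟨n, hn⟩ := hu
    obtain ⟨m, hm⟩ := hv
    refine ⟨max n m, fun k hk => ?_⟩
    obtain ⟨x, hx, hx'⟩ := hn k (le_trans (le_max_left _ _) hk)
    obtain ⟨y, hy, hy'⟩ := hm k (le_trans (le_max_right _ _) hk)
    refine ⟨fun i => x i * y i, fun i => mul_mem (hx i) (hy i), ?_⟩
    rw [hx', hy', ← Finset.sum_add_distrib]
    exact Finset.sum_congr rfl fun i _ => (lgc_add i _ (hx i) _ (hy i)).symm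

theorem lgc_indep (n : ℕ) (x : ℕ → G) (hx : ∀ i, x i ∈ gam G (i + 1))
    (h : ∑ i ∈ Finset.range n, lgc i (x i) = 0) : ∀ i < n, lgc i (x i) = 0 := by
  intro j hj
  let ev : LG G →+ Vv G (j + 1) := DFinsupp.evalAddMonoidHom (β := fun i => Vv G i) (j + 1)
  have h1 : ev (∑ i ∈ Finset.range n, lgc i (x i)) = qq (j + 1) ⟨x j, hx j⟩ := by
    rw [map_sum, Finset.sum_eq_single j]
    · rw [lgc_of (hx j)]
      exact DirectSum.of_eq_same (β := fun i => Vv G i) (j + 1) _
    · intro i _ hi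
      rw [lgc_of (hx i)]
      exact DirectSum.of_eq_of_ne (β := fun i => Vv G i) (i + 1) (j + 1) _ (by omega)
    · intro h
      exact absurd (Finset.mem_range.2 hj) h
  rw [h, map_zero] at h1
  rw [lgc_of (hx j)]
  unfold LG.cls
  rw [← h1, map_zero]

/-- the concrete associated Lie ring is a model -/
theorem isLieOf_lgc : IsLieOf (lgc (G := G)) where
  add := lgc_add
  ker := lgc_ker
  lie := lgc_lie
  span := lgc_span
  indep := lgc_indep

/-! ### The map to any model -/

variable {L : Type} [LieRing L] {c : ℕ → G → L}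

theorem IsLieOf.one (hc : IsLieOf c) (i : ℕ) : c i 1 = 0 :=
  (hc.ker i 1 (one_mem _)).2 (one_mem _)

theorem IsLieOf.congr (hc : IsLieOf c) (i : ℕ) (x y : gam G (i + 1))
    (h : qq (i + 1) x = qq (i + 1) y) : c i x = c i y := by
  rw [qq_eq (i + 1) x y (by omega)] at h
  have h1 : c i ((x : G) * ((x : G)⁻¹ * (y : G))) = c i x + c i ((x : G)⁻¹ * (y : G)) :=
    hc.add i _ x.2 _ (mul_mem (inv_mem x.2) y.2)
  rw [mul_inv_cancel_left, (hc.ker i _ (mul_mem (inv_mem x.2) y.2)).2 h, add_zero] at h1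
  exact h1.symm

/-- the map on a component -/
noncomputable def phi1 (hc : IsLieOf c) (i : ℕ) : Vv G (i + 1) →+ L where
  toFun v := c i (Function.surjInv (qq_surj (i + 1)) v : gam G (i + 1))
  map_zero' := by
    rw [← hc.one i]
    refine hc.congr i _ 1 ?_
    rw [Function.surjInv_eq (qq_surj (i + 1)), qq_one]
  map_add' u v := by
    have h := hc.add i _ (Function.surjInv (qq_surj (i + 1)) u).2 _
      (Function.surjInv (qq_surj (i + 1)) v).2
    rw [← h]
    refine hc.congr i _ (Function.surjInv (qq_surj (i + 1)) u *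
      Function.surjInv (qq_surj (i + 1)) v) ?_
    rw [Function.surjInv_eq (qq_surj (i + 1)), qq_mul, Function.surjInv_eq (qq_surj (i + 1)),
      Function.surjInv_eq (qq_surj (i + 1))]

theorem phi1_qq (hc : IsLieOf c) (i : ℕ) (x : gam G (i + 1)) : phi1 hc i (qq (i + 1) x) = c i x := by
  refine hc.congr i _ x ?_
  rw [Function.surjInv_eq (qq_surj (i + 1))]

/-- the map to any model -/
noncomputable def phiM (hc : IsLieOf c) : LG G →+ L :=
  DirectSum.toAddMonoid (fun i => match i with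
    | 0 => 0
    | i + 1 => phi1 hc i)

theorem phiM_cls (hc : IsLieOf c) (i : ℕ) (x : gam G (i + 1)) :
    phiM hc (LG.cls (i + 1) x) = c i x := by
  have h : phiM hc (LG.cls (i + 1) x) = phi1 hc i (qq (i + 1) x) :=
    DirectSum.toAddMonoid_of _ (i + 1) _
  rw [h, phi1_qq]

theorem phiM_lie (hc : IsLieOf c) (x y : LG G) : phiM hc ⁅x, y⁆ = ⁅phiM hc x, phiM hc y⁆ := by
  induction x using LG.ind with
  | h0 => rw [zero_lie, map_zero, zero_lie]
  | ha x x' hx hx' => rw [add_lie, map_add, map_add, add_lie, hx, hx']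
  | hc i hi x =>
    obtain ⟨i, rfl⟩ : ∃ j, i = j + 1 := ⟨i - 1, by omega⟩
    induction y using LG.ind with
    | h0 => rw [lie_zero, map_zero, lie_zero]
    | ha y y' hy hy' => rw [lie_add, map_add, map_add, lie_add, hy, hy']
    | hc j hj y =>
      obtain ⟨j, rfl⟩ : ∃ k, j = k + 1 := ⟨j - 1, by omega⟩
      have m : (x : G) * (y : G) * (x : G)⁻¹ * (y : G)⁻¹ ∈ gam G (i + j + 1 + 1) := by
        have h := (Pool.Agent.Helper31.BE.gamCalc G).comm (i + 1) (j + 1) (by omega) (by omega)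
          x x.2 y y.2
        have e : i + 1 + (j + 1) = i + j + 1 + 1 := by omega
        rw [e] at h
        exact h
      rw [phiM_cls, phiM_cls, hc.lie i _ x.2 j _ y.2, ← lgc_of x.2, ← lgc_of y.2,
        lgc_lie i _ x.2 j _ y.2, lgc_of m, phiM_cls]

theorem phiM_surjective (hc : IsLieOf c) : Function.Surjective (phiM hc) := by
  intro z
  obtain ⟨n, x, hx, rfl⟩ := hc.span z
  refine ⟨∑ i ∈ Finset.range n, lgc i (x i), ?_⟩
  rw [map_sum]
  refine Finset.sum_congr rfl fun i _ => ?_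
  have hx' : x i ∈ gam G (i + 1) := hx i
  rw [lgc_of hx', phiM_cls]

end

variable {p : ℕ} [Fact p.Prime] {L : Type} [LieRing L] [LieAlgebra (ZMod p) L]

/-- the map to any model as a homomorphism of Lie algebras -/
noncomputable def phiL {c : ℕ → RB p → L} (hc : IsLieOf c) : LG (RB p) →ₗ⁅ZMod p⁆ L :=
  { (phiM hc).toZModLinearMap p with
    map_lie' := fun {x y} => phiM_lie hc x y }

theorem phiL_natMap {c : ℕ → RB p → L} (hc : IsLieOf c) (a : Bool) :
    phiL hc (natMap p (FreeLieAlgebra.of (ZMod p) a)) = c 0 (gen p a) := by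
  have h : natMap p (FreeLieAlgebra.of (ZMod p) a) = LG.cls 1 ⟨gen p a, trivial⟩ :=
    FreeLieAlgebra.lift_of_apply (R := ZMod p) (L := LG (RB p))
      (fun a => LG.cls 1 ⟨gen p a, trivial⟩) a
  rw [h]
  exact phiM_cls hc 0 ⟨gen p a, trivial⟩

theorem natural_eq {c : ℕ → RB p → L} (hc : IsLieOf c) (ν : Lam p →ₗ⁅ZMod p⁆ L)
    (hν : ∀ a : Bool, ν (LieSubmodule.Quotient.mk (N := engel p) (FreeLieAlgebra.of (ZMod p) a)) =
      c 0 (gen p a)) (z : FL p) :
    ν (LieSubmodule.Quotient.mk (N := engel p) z) = phiL hc (natMap p z) := by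
  refine FL_induction (fun z => ν (LieSubmodule.Quotient.mk (N := engel p) z) =
    phiL hc (natMap p z)) ?_ ?_ ?_ ?_ ?_ z
  · intro a
    rw [hν a, phiL_natMap]
  · have h : (LieSubmodule.Quotient.mk (N := engel p) (0 : FL p) : Lam p) = 0 := rfl
    rw [h, map_zero, map_zero, map_zero]
  · intro u v hu hv
    have h : (LieSubmodule.Quotient.mk (N := engel p) (u + v) : Lam p) =
      LieSubmodule.Quotient.mk (N := engel p) u + LieSubmodule.Quotient.mk (N := engel p) v := rfl
    rw [h, map_add, hu, hv, map_add, map_add]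
  · intro r u hu
    have h : (LieSubmodule.Quotient.mk (N := engel p) (r • u) : Lam p) =
      r • LieSubmodule.Quotient.mk (N := engel p) u := rfl
    rw [h, map_smul, hu, map_smul, map_smul]
  · intro u v hu hv
    rw [LieSubmodule.Quotient.mk_bracket, LieHom.map_lie, hu, hv, LieHom.map_lie, LieHom.map_lie]

theorem mainM (hp : 11 ≤ p) :
    (∃ (L : Type) (_ : LieRing L) (_ : LieAlgebra (ZMod p) L)
      (c : ℕ → FreeGroup Bool ⧸ resKer p → L), IsLieOf c) ∧
    ∀ (L : Type) [LieRing L] [LieAlgebra (ZMod p) L] (c : ℕ → FreeGroup Bool ⧸ resKer p → L),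
      IsLieOf c → (∃ ν : Lam p →ₗ⁅ZMod p⁆ L, IsNatural p c ν) ∧
        ∀ ν : Lam p →ₗ⁅ZMod p⁆ L, IsNatural p c ν →
          Function.Surjective ν ∧ ¬ Function.Injective ν := by
  refine ⟨⟨LG (RB p), inferInstance, inferInstance, lgc (G := RB p), isLieOf_lgc⟩, ?_⟩
  intro L _ _ c hc'
  have hc : IsLieOf (G := RB p) c := hc'
  refine ⟨?_, ?_⟩
  · obtain ⟨ν, hν⟩ := exists_isNat p
    refine ⟨(phiL hc).comp ν, fun a => ?_⟩
    have h : (phiL hc).comp ν (LieSubmodule.Quotient.mk (N := engel p)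
      (FreeLieAlgebra.of (ZMod p) a)) = phiL hc (natMap p (FreeLieAlgebra.of (ZMod p) a)) := by
      rw [LieHom.comp_apply, hν.eq]
    rw [h, phiL_natMap hc]
    rfl
  · intro ν hν
    have key := natural_eq hc ν hν
    refine ⟨?_, ?_⟩
    · intro y
      obtain ⟨w, hw⟩ := phiM_surjective hc y
      obtain ⟨z, hz⟩ := natMap_surjective p w
      refine ⟨LieSubmodule.Quotient.mk (N := engel p) z, ?_⟩
      rw [key, hz]
      exact hw
    · intro hinj
      obtain ⟨i, hi, j, hj, h⟩ := exists_zet_not_mem (p := p) hp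
      apply h
      have h1 : ν (LieSubmodule.Quotient.mk (N := engel p) (zet p i j)) = 0 := by
        rw [key, natMap_zet hi hj, map_zero]
      have h2 : (LieSubmodule.Quotient.mk (N := engel p) (zet p i j) : Lam p) = 0 := by
        apply hinj
        rw [h1, map_zero]
      exact LieSubmodule.Quotient.mk_eq_zero'.mp h2

end Helper44.BL
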