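import Pool.Agent.Helper44.BA.Model
import Pool.Agent.Helper44.BL.Trunc

/-!
# There is no isomorphism at all between `Λ(2)` and the associated Lie algebra
-/

namespace Helper44.BL

section gen

variable {K : Type} [Field K] {L L' : Type} [LieRing L] [LieAlgebra K L] [LieRing L']
  [LieAlgebra K L']

theorem map_mem_lcs (f : L →ₗ⁅K⁆ L') (n : ℕ) {z : L}
    (hz : z ∈ LieModule.lowerCentralSeries K L L n) :
    f z ∈ LieModule.lowerCentralSeries K L' L' n :=
  LieIdeal.map_lowerCentralSeries_le n (LieIdeal.mem_map hz)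

theorem exists_mem_lcs (f : L →ₗ⁅K⁆ L') (hf : Function.Surjective f) (n : ℕ) {w : L'}
    (hw : w ∈ LieModule.lowerCentralSeries K L' L' n) :
    ∃ z ∈ LieModule.lowerCentralSeries K L L n, f z = w := by
  rw [← LieIdeal.lowerCentralSeries_map_eq n hf] at hw
  obtain ⟨z, hz⟩ := LieIdeal.mem_map_of_surjective hf hw
  exact ⟨z, z.2, hz⟩

/-- a surjective endomorphism of a Lie algebra with finite dimensional nilpotent quotients has its
kernel in all terms of the lower central series -/
theorem mem_lcs_of_surj (f : L →ₗ⁅K⁆ L) (hf : Function.Surjective f) (n : ℕ)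
    (hfin : Module.Finite K (L ⧸ (LieModule.lowerCentralSeries K L L n).toSubmodule)) {z : L}
    (hz : f z = 0) : z ∈ LieModule.lowerCentralSeries K L L n := by
  let N : Submodule K L := (LieModule.lowerCentralSeries K L L n).toSubmodule
  have hN : N ≤ N.comap (f : L →ₗ[K] L) := fun w hw => map_mem_lcs f n hw
  have hg : Function.Surjective (N.mapQ N (f : L →ₗ[K] L) hN) := by
    intro y
    obtain ⟨y, rfl⟩ := Submodule.Quotient.mk_surjective _ y
    obtain ⟨x, rfl⟩ := hf y
    exact ⟨Submodule.Quotient.mk x, rfl⟩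
  have hinj : Function.Injective (N.mapQ N (f : L →ₗ[K] L) hN) :=
    OrzechProperty.injective_of_surjective_endomorphism _ hg
  have h1 : N.mapQ N (f : L →ₗ[K] L) hN (Submodule.Quotient.mk z) = 0 := by
    have h2 : N.mapQ N (f : L →ₗ[K] L) hN (Submodule.Quotient.mk z) =
      Submodule.Quotient.mk (f z) := rfl
    rw [h2, hz]
    rfl
  have h3 : (Submodule.Quotient.mk z : L ⧸ N) = 0 := by
    apply hinj
    rw [h1, map_zero]
  exact (Submodule.Quotient.mk_eq_zero N).1 h3

end gen

section free

variable {K : Type} [Field K]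

/-- the nilpotent quotients of the free Lie algebra of rank two are finite dimensional -/
theorem exists_fg (n : ℕ) : ∃ U : Submodule K (FreeLieAlgebra K Bool), U.FG ∧
    U ⊔ (LieModule.lowerCentralSeries K (FreeLieAlgebra K Bool) (FreeLieAlgebra K Bool)
      n).toSubmodule = ⊤ := by
  induction n with
  | zero =>
    refine ⟨⊥, Submodule.fg_bot, ?_⟩
    rw [LieModule.lowerCentralSeries_zero]
    simp
  | succ n ih =>
    obtain ⟨U, hU, hsup⟩ := ih
    let g : Bool → FreeLieAlgebra K Bool := FreeLieAlgebra.of K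
    let V : Submodule K (FreeLieAlgebra K Bool) := Submodule.span K {g true, g false} ⊔
      (U.map (LieAlgebra.ad K (FreeLieAlgebra K Bool) (g true) : _ →ₗ[K] _) ⊔
        U.map (LieAlgebra.ad K (FreeLieAlgebra K Bool) (g false) : _ →ₗ[K] _))
    have hV : V.FG := ((Submodule.fg_span (by simp)).sup ((hU.map _).sup (hU.map _)))
    let N : Submodule K (FreeLieAlgebra K Bool) := (LieModule.lowerCentralSeries K
      (FreeLieAlgebra K Bool) (FreeLieAlgebra K Bool) (n + 1)).toSubmodule
    refine ⟨V, hV, ?_⟩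
    have key : ∀ u w : FreeLieAlgebra K Bool, ⁅u, w⁆ ∈ V ⊔ N := by
      intro u
      refine FL_induction (fun u => ∀ w : FreeLieAlgebra K Bool, ⁅u, w⁆ ∈ V ⊔ N)
        ?_ ?_ ?_ ?_ ?_ u
      · intro a w
        have hw : w ∈ U ⊔ (LieModule.lowerCentralSeries K (FreeLieAlgebra K Bool)
            (FreeLieAlgebra K Bool) n).toSubmodule := by
          rw [hsup]
          trivial
        obtain ⟨w1, h1, w2, h2, rfl⟩ := Submodule.mem_sup.1 hw
        rw [lie_add]
        refine Submodule.add_mem _ (Submodule.mem_sup_left ?_) (Submodule.mem_sup_right ?_)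
        · cases a with
          | true =>
            exact Submodule.mem_sup_right (Submodule.mem_sup_left ⟨w1, h1, rfl⟩)
          | false =>
            exact Submodule.mem_sup_right (Submodule.mem_sup_right ⟨w1, h1, rfl⟩)
        · have h3 : ⁅FreeLieAlgebra.of K a, w2⁆ ∈ LieModule.lowerCentralSeries K
              (FreeLieAlgebra K Bool) (FreeLieAlgebra K Bool) (n + 1) := by
            rw [LieModule.lowerCentralSeries_succ]
            exact LieSubmodule.lie_mem_lie (LieSubmodule.mem_top _) h2
          exact h3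
      · intro w
        rw [zero_lie]
        exact Submodule.zero_mem _
      · intro u v hu hv w
        rw [add_lie]
        exact Submodule.add_mem _ (hu w) (hv w)
      · intro c u hu w
        rw [smul_lie]
        exact Submodule.smul_mem _ _ (hu w)
      · intro u v hu hv w
        rw [lie_lie]
        exact Submodule.sub_mem _ (hu _) (hv _)
    rw [eq_top_iff]
    intro z _
    refine FL_induction (fun z => z ∈ V ⊔ N) ?_ ?_ ?_ ?_ ?_ z
    · intro a
      refine Submodule.mem_sup_left (Submodule.mem_sup_left (Submodule.subset_span ?_))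
      cases a
      · exact Or.inr rfl
      · exact Or.inl rfl
    · exact Submodule.zero_mem _
    · intro u v hu hv
      exact Submodule.add_mem _ hu hv
    · intro c u hu
      exact Submodule.smul_mem _ _ hu
    · intro u v _ _
      exact key u v

/-- the nilpotent quotients of an image of the free Lie algebra of rank two are finite
dimensional -/
theorem finite_quot {L : Type} [LieRing L] [LieAlgebra K L] (π : FreeLieAlgebra K Bool →ₗ⁅K⁆ L)
    (hπ : Function.Surjective π) (n : ℕ) :
    Module.Finite K (L ⧸ (LieModule.lowerCentralSeries K L L n).toSubmodule) := by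
  obtain ⟨U, hU, hsup⟩ := exists_fg (K := K) n
  have : Module.Finite K U := Module.Finite.iff_fg.2 hU
  refine Module.Finite.of_surjective (((LieModule.lowerCentralSeries K L L n).toSubmodule.mkQ).comp
    ((π : FreeLieAlgebra K Bool →ₗ[K] L).comp U.subtype)) ?_
  intro y
  obtain ⟨y, rfl⟩ := Submodule.mkQ_surjective _ y
  obtain ⟨z, rfl⟩ := hπ y
  have hz : z ∈ U ⊔ (LieModule.lowerCentralSeries K (FreeLieAlgebra K Bool)
      (FreeLieAlgebra K Bool) n).toSubmodule := by
    rw [hsup]
    trivial
  obtain ⟨u, hu, v, hv, rfl⟩ := Submodule.mem_sup.1 hz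
  refine ⟨⟨u, hu⟩, ?_⟩
  show (LieModule.lowerCentralSeries K L L n).toSubmodule.mkQ (π u) =
    (LieModule.lowerCentralSeries K L L n).toSubmodule.mkQ (π (u + v))
  rw [map_add, map_add]
  have h : (LieModule.lowerCentralSeries K L L n).toSubmodule.mkQ (π v) = 0 := by
    rw [Submodule.mkQ_apply, Submodule.Quotient.mk_eq_zero]
    exact map_mem_lcs π n hv
  rw [h, add_zero]

end free

variable {p : ℕ} [Fact p.Prime]

/-- the projection as a homomorphism of Lie algebras -/
noncomputable def proj (p : ℕ) : FL p →ₗ⁅ZMod p⁆ Lam p :=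
  { (LieSubmodule.Quotient.mk' (engel p) : FL p →ₗ[ZMod p] Lam p) with
    map_lie' := fun {_ _} => rfl }

theorem proj_apply (z : FL p) : proj p z = LieSubmodule.Quotient.mk (N := engel p) z := rfl

theorem proj_surjective : Function.Surjective (proj p) := Submodule.Quotient.mk_surjective _

/-- a surjective homomorphism which kills all `zet p i j` is not followed by an injective one: there
is no isomorphism -/
theorem no_iso (hp : 11 ≤ p) {L : Type} [LieRing L] [LieAlgebra (ZMod p) L]
    (ν : Lam p →ₗ⁅ZMod p⁆ L) (hν : Function.Surjective ν)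
    (hz : ∀ i < p, ∀ j < p, ν (proj p (zet p i j)) = 0) : IsEmpty (Lam p ≃ₗ⁅ZMod p⁆ L) := by
  constructor
  intro e
  obtain ⟨i, hi, j, hj, n, h⟩ := exists_zet_not_mem_lcs (p := p) hp
  apply h
  have h1 : proj p (zet p i j) ∈ LieModule.lowerCentralSeries (ZMod p) (Lam p) (Lam p) n := by
    refine mem_lcs_of_surj ((e.symm : L →ₗ⁅ZMod p⁆ Lam p).comp ν) ?_ n
      (finite_quot (proj p) proj_surjective n) ?_
    · exact e.symm.surjective.comp hν
    · rw [LieHom.comp_apply, hz i hi j hj, map_zero]
  obtain ⟨v, hv, h2⟩ := exists_mem_lcs (proj p) proj_surjective n h1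
  have h3 : zet p i j - v ∈ engel p := by
    have h4 : (LieSubmodule.Quotient.mk (N := engel p) (zet p i j - v) : Lam p) = 0 := by
      rw [← proj_apply, map_sub, h2, sub_self]
    exact LieSubmodule.Quotient.mk_eq_zero'.mp h4
  have h5 : zet p i j = (zet p i j - v) + v := by abel
  rw [h5]
  exact add_mem (le_sup_left (a := engel p) h3)
    (le_sup_right (a := engel p) hv)

/-- the final form of the result -/
theorem mainN (hp : 11 ≤ p) :
    (∃ (L : Type) (_ : LieRing L) (_ : LieAlgebra (ZMod p) L)
      (c : ℕ → FreeGroup Bool ⧸ resKer p → L), IsLieOf c) ∧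
    ∀ (L : Type) [LieRing L] [LieAlgebra (ZMod p) L] (c : ℕ → FreeGroup Bool ⧸ resKer p → L),
      IsLieOf c → (∃ ν : Lam p →ₗ⁅ZMod p⁆ L, IsNatural p c ν) ∧
        (∀ ν : Lam p →ₗ⁅ZMod p⁆ L, IsNatural p c ν →
          Function.Surjective ν ∧ ¬ Function.Injective ν) ∧
        IsEmpty (Lam p ≃ₗ⁅ZMod p⁆ L) := by
  refine ⟨(mainM hp).1, ?_⟩
  intro L _ _ c hc
  obtain ⟨⟨ν, hν⟩, h2⟩ := (mainM hp).2 L c hc
  refine ⟨⟨ν, hν⟩, h2, ?_⟩
  refine no_iso hp ν (h2 ν hν).1 fun i hi j hj => ?_
  have hc' : IsLieOf (G := RB p) c := hc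
  have h : ν (LieSubmodule.Quotient.mk (N := engel p) (zet p i j)) =
    phiL hc' (natMap p (zet p i j)) := natural_eq hc' ν hν _
  rw [proj_apply, h, natMap_zet hi hj, map_zero]

end Helper44.BL
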