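import Pool.Agent.Helper44.BA.ExpP

/-!
# BA-11: the consequence of `g^p = 1` in the filtered algebra
-/

namespace Helper44.BL

open Polynomial Finset

section abstract

variable {K A : Type} [Field K] [Ring A] [Algebra K A] {𝔽 : Filt K A}

/-- `((1 + c) h)^n = h^n + ∑_{i < n} h^i c h^(n-i)` up to `J 4` for `h ∈ J 0`, `c ∈ J 2` -/
theorem J_pow_expand {h c : A[X][X]} (hh : J 𝔽 0 h) (hc : J 𝔽 2 c) (n : ℕ) :
    J 𝔽 4 (((1 + c) * h) ^ n - h ^ n - ∑ i ∈ range n, h ^ i * c * h ^ (n - i)) := by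
  have hS : ∀ n : ℕ, J 𝔽 2 (∑ i ∈ range n, h ^ i * c * h ^ (n - i)) := fun n =>
    J.sum _ _ fun i _ => ((hh.pow i).mul hc).mul (hh.pow (n - i))
  induction n with
  | zero =>
    rw [pow_zero, pow_zero, range_zero, sum_empty, sub_self, sub_zero]
    intro i j
    rw [cf_zero]
    exact Submodule.zero_mem _
  | succ n ih =>
    have e1 : ∑ i ∈ range (n + 1), h ^ i * c * h ^ (n + 1 - i) =
        c * h ^ (n + 1) + h * ∑ i ∈ range n, h ^ i * c * h ^ (n - i) := by
      rw [sum_range_succ', pow_zero, one_mul, Nat.sub_zero, mul_sum, add_comm]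
      congr 1
      refine sum_congr rfl fun i _ => ?_
      rw [Nat.add_sub_add_right, pow_succ' h i]
      simp only [mul_assoc]
    have e2 : ((1 + c) * h) ^ (n + 1) - h ^ (n + 1) -
        ∑ i ∈ range (n + 1), h ^ i * c * h ^ (n + 1 - i) =
        h * (((1 + c) * h) ^ n - h ^ n - ∑ i ∈ range n, h ^ i * c * h ^ (n - i)) +
        c * (h * (((1 + c) * h) ^ n - h ^ n - ∑ i ∈ range n, h ^ i * c * h ^ (n - i))) +
        c * (h * ∑ i ∈ range n, h ^ i * c * h ^ (n - i)) := by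
      rw [e1, pow_succ' ((1 + c) * h), pow_succ' h n]
      generalize ((1 + c) * h) ^ n = Y
      generalize ∑ i ∈ range n, h ^ i * c * h ^ (n - i) = Z
      simp only [mul_sub, sub_mul, add_mul, mul_add, one_mul, mul_assoc]
      abel
    rw [e2]
    refine J.add (J.add ?_ ?_) ?_
    · exact (hh.mul ih).mono (by omega)
    · exact (hc.mul (hh.mul ih)).mono (by omega)
    · exact (hc.mul (hh.mul (hS n))).mono (by omega)

/-- changing `h` by `J 1` changes `h^n` by `J 1` -/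
theorem J_pow_congr {h h' : A[X][X]} (hh : J 𝔽 0 h) (hd : J 𝔽 1 (h - h')) (n : ℕ) :
    J 𝔽 1 (h ^ n - h' ^ n) := by
  have hh' : J 𝔽 0 h' := by
    have e : h' = h - (h - h') := by abel
    rw [e]
    exact hh.sub (hd.mono (by omega))
  induction n with
  | zero =>
    rw [pow_zero, pow_zero, sub_self]
    intro i j
    rw [cf_zero]
    exact Submodule.zero_mem _
  | succ n ih =>
    have e : h ^ (n + 1) - h' ^ (n + 1) = h * (h ^ n - h' ^ n) + (h - h') * h' ^ n := by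
      rw [pow_succ', pow_succ', mul_sub, sub_mul]
      abel
    rw [e]
    exact ((hh.mul ih).mono (by omega)).add ((hd.mul (hh'.pow n)).mono (by omega))

/-- changing `h` by `J 1` and `c` by `J 3` changes the sum by `J 3` -/
theorem J_sum_congr {h h' c c' : A[X][X]} (hh : J 𝔽 0 h) (hd : J 𝔽 1 (h - h')) (hc : J 𝔽 2 c)
    (hcd : J 𝔽 3 (c - c')) (n : ℕ) :
    J 𝔽 3 (∑ i ∈ range n, h ^ i * c * h ^ (n - i) - ∑ i ∈ range n, h' ^ i * c' * h' ^ (n - i)) := by
  have hh' : J 𝔽 0 h' := by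
    have e : h' = h - (h - h') := by abel
    rw [e]
    exact hh.sub (hd.mono (by omega))
  have hc' : J 𝔽 2 c' := by
    have e : c' = c - (c - c') := by abel
    rw [e]
    exact hc.sub (hcd.mono (by omega))
  rw [← sum_sub_distrib]
  refine J.sum _ _ fun i _ => ?_
  have e : h ^ i * c * h ^ (n - i) - h' ^ i * c' * h' ^ (n - i) =
      (h ^ i - h' ^ i) * (c * h ^ (n - i)) + h' ^ i * ((c - c') * h ^ (n - i)) +
        h' ^ i * (c' * (h ^ (n - i) - h' ^ (n - i))) := by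
    simp only [mul_sub, sub_mul, mul_assoc]
    abel
  rw [e]
  refine J.add (J.add ?_ ?_) ?_
  · exact ((J_pow_congr hh hd i).mul (hc.mul (hh.pow (n - i)))).mono (by omega)
  · exact ((hh'.pow i).mul (hcd.mul (hh.pow (n - i)))).mono (by omega)
  · exact ((hh'.pow i).mul (hc'.mul (J_pow_congr hh hd (n - i)))).mono (by omega)

end abstract

variable {p : ℕ} [Fact p.Prime] {A : Type} [Ring A] [Algebra (ZMod p) A]

/-- Let `x, y ∈ F 1`, `c ∈ F 2`, `c - c' ∈ F 3`, `x^p = y^p = 0`, and let all elements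
`(1 + y)^v (1 + x)^u` and `(1 + c) (1 + y)^v (1 + x)^u` have `p`-th power `1`. Put
`h = ET y * ES x`. Then for `i, j < p` the coefficient of `s^i t^j` in `∑_{n < p} h^n c' h^(p-n)`
lies in `F (i + j + 3)`, and that of `h^p - 1` in `F (i + j + 1)`. -/
theorem powId (𝔽 : Filt (ZMod p) A) {x y c c' : A} (hx : x ∈ 𝔽.F 1) (hy : y ∈ 𝔽.F 1)
    (hc : c ∈ 𝔽.F 2) (hcc : c - c' ∈ 𝔽.F 3) (hxp : x ^ p = 0) (hyp : y ^ p = 0)
    (h1 : ∀ u v : ZMod p, ((1 + y) ^ v.val * (1 + x) ^ u.val) ^ p = 1)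
    (h2 : ∀ u v : ZMod p, ((1 + c) * ((1 + y) ^ v.val * (1 + x) ^ u.val)) ^ p = 1)
    {i j : ℕ} (hi : i < p) (hj : j < p) :
    cf (∑ n ∈ range p, (ET p y * ES p x) ^ n * C (C c') * (ET p y * ES p x) ^ (p - n)) i j ∈
        𝔽.F (i + j + 3) ∧
      cf ((ET p y * ES p x) ^ p - 1) i j ∈ 𝔽.F (i + j + 1) := by
  have hp1 : 1 ≤ p - 1 := by
    have := (Fact.out : p.Prime).two_le
    omega
  obtain ⟨PS, hPS1, hPS2⟩ := exists_binS 𝔽 hx hxp
  obtain ⟨PT, hPT1, hPT2⟩ := exists_binT 𝔽 hy hyp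
  have hES := J_ES 𝔽 hx
  have hET := J_ET 𝔽 hy
  have hPS : J 𝔽 0 PS := by
    have e : PS = PS - ES p x + ES p x := by abel
    rw [e]
    exact (hPS1.mono (by omega)).add hES
  have hPT : J 𝔽 0 PT := by
    have e : PT = PT - ET p y + ET p y := by abel
    rw [e]
    exact (hPT1.mono (by omega)).add hET
  obtain ⟨g, hg⟩ : ∃ g, g = PT * PS := ⟨_, rfl⟩
  obtain ⟨h, hh⟩ : ∃ h, h = ET p y * ES p x := ⟨_, rfl⟩
  rw [← hh]
  have hgJ : J 𝔽 0 g := by
    rw [hg]
    exact hPT.mul hPS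
  have hgh : J 𝔽 1 (g - h) := by
    have e : g - h = (PT - ET p y) * PS + ET p y * (PS - ES p x) := by
      rw [hg, hh, sub_mul, mul_sub]
      abel
    rw [e]
    exact (hPT1.mul hPS).add ((hET.mul hPS1).mono (by omega))
  have hcJ : J 𝔽 2 (C (C c) : A[X][X]) := J.CC hc
  have hccJ : J 𝔽 3 (C (C c) - C (C c') : A[X][X]) := by
    rw [← C_sub, ← C_sub]
    exact J.CC hcc
  have hevg : ∀ u v : ZMod p, evPt u v g = (1 + y) ^ v.val * (1 + x) ^ u.val := by
    intro u v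
    rw [hg, map_mul, hPS2, hPT2]
  have hexp := J_pow_expand hgJ hcJ p
  have hSg : J 𝔽 2 (∑ n ∈ range p, g ^ n * C (C c) * g ^ (p - n)) :=
    J.sum _ _ fun i _ => ((hgJ.pow i).mul hcJ).mul (hgJ.pow (p - i))
  have hQJ : J 𝔽 2 (((1 + C (C c)) * g) ^ p - g ^ p) := by
    have e : ((1 + C (C c)) * g) ^ p - g ^ p =
        (((1 + C (C c)) * g) ^ p - g ^ p - ∑ n ∈ range p, g ^ n * C (C c) * g ^ (p - n)) +
          ∑ n ∈ range p, g ^ n * C (C c) * g ^ (p - n) := by abel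
    rw [e]
    exact (hexp.mono (by omega)).add hSg
  have hQ := cf_mem_of_vanish 𝔽 hQJ (fun u v => by
    rw [map_sub, map_pow, map_pow, map_mul, map_add, map_one, evPt_CC, hevg, h2, h1, sub_self])
    hi hj
  have hQ0 := cf_mem_of_vanish 𝔽 ((hgJ.pow p).sub J.one) (fun u v => by
    rw [map_sub, map_pow, map_one, hevg, h1, sub_self]) hi hj
  constructor
  · have hd := J_sum_congr hgJ hgh hcJ hccJ p i j
    rw [cf_sub] at hd
    have h3 := hexp i j
    rw [cf_sub] at h3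
    have h4 : cf (∑ n ∈ range p, h ^ n * C (C c') * h ^ (p - n)) i j =
        cf (((1 + C (C c)) * g) ^ p - g ^ p) i j -
        (cf (((1 + C (C c)) * g) ^ p - g ^ p) i j -
          cf (∑ n ∈ range p, g ^ n * C (C c) * g ^ (p - n)) i j) -
        (cf (∑ n ∈ range p, g ^ n * C (C c) * g ^ (p - n)) i j -
          cf (∑ n ∈ range p, h ^ n * C (C c') * h ^ (p - n)) i j) := by
      abel
    rw [h4]
    refine Submodule.sub_mem _ (Submodule.sub_mem _ ?_ ?_) hd
    · exact 𝔽.mono (by omega) hQ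
    · exact 𝔽.mono (by omega) h3
  · have hd := J_pow_congr hgJ hgh p i j
    have h4 : cf (h ^ p - 1) i j = cf (g ^ p - 1) i j - cf (g ^ p - h ^ p) i j := by
      rw [cf_sub, cf_sub, cf_sub]
      abel
    rw [h4]
    refine Submodule.sub_mem _ ?_ hd
    exact 𝔽.mono (by omega) hQ0

end Helper44.BL
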