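import Pool.Agent.Helper44.BA.Two

/-!
# BA-9: values at the points of the plane over the prime field
-/

namespace Helper44.BL

open Polynomial

section points

variable {p : ℕ} [Fact p.Prime] {A : Type} [Ring A] [Algebra (ZMod p) A]

/-- the value at a point of the plane over the prime field (a ring homomorphism because the
scalars are central) -/
theorem exists_evPt (p : ℕ) [Fact p.Prime] (A : Type) [Ring A] [Algebra (ZMod p) A]
    (u v : ZMod p) : ∃ e : A[X][X] →+* A, (∀ a : A, e (C (C a)) = a) ∧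
      e (C X) = algebraMap (ZMod p) A v ∧ e X = algebraMap (ZMod p) A u := by
  have h1 : ∀ a : A, Commute ((RingHom.id A) a) (algebraMap (ZMod p) A v) := fun a =>
    Algebra.commute_algebraMap_right v a
  have h2 : ∀ a : A[X], Commute (eval₂RingHom' (RingHom.id A) (algebraMap (ZMod p) A v) h1 a)
      (algebraMap (ZMod p) A u) := fun a => Algebra.commute_algebraMap_right u _
  refine ⟨eval₂RingHom' (eval₂RingHom' (RingHom.id A) (algebraMap (ZMod p) A v) h1)
    (algebraMap (ZMod p) A u) h2, ?_, ?_, ?_⟩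
  · intro a
    simp [eval₂RingHom']
  · simp [eval₂RingHom']
  · simp [eval₂RingHom']

/-- the value at a point -/
noncomputable def evPt (u v : ZMod p) : A[X][X] →+* A := (exists_evPt p A u v).choose

theorem evPt_CC (u v : ZMod p) (a : A) : evPt u v (C (C a)) = a :=
  (exists_evPt p A u v).choose_spec.1 a

theorem evPt_t (u v : ZMod p) : evPt u v (C X) = algebraMap (ZMod p) A v :=
  (exists_evPt p A u v).choose_spec.2.1

theorem evPt_s (u v : ZMod p) : evPt u v (X : A[X][X]) = algebraMap (ZMod p) A u :=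
  (exists_evPt p A u v).choose_spec.2.2

/-- value as a sum -/
theorem evPt_eq (u v : ZMod p) (P : A[X][X]) (m : ℕ) (hm : ∀ i j, m ≤ i ∨ m ≤ j → cf P i j = 0) :
    evPt u v P = ∑ i ∈ Finset.range m, ∑ j ∈ Finset.range m, (u ^ i * v ^ j) • cf P i j := by
  have h1 : P = mkP m (cf P) := by
    apply cf_ext
    intro i j
    rw [cf_mkP]
    split_ifs with h
    · rfl
    · apply hm
      omega
  conv_lhs => rw [h1]
  unfold mkP
  rw [map_sum]
  refine Finset.sum_congr rfl fun i _ => ?_
  rw [map_sum]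
  refine Finset.sum_congr rfl fun j _ => ?_
  rw [map_mul, map_pow, map_mul, map_mul, map_pow, map_pow, evPt_CC, evPt_t, evPt_s,
    ← map_pow, ← map_pow, Algebra.smul_def, map_mul, mul_assoc]
  rw [← map_mul, ← map_mul, Algebra.commutes, mul_comm (v ^ j)]

private theorem ba9_sum_pos (p : ℕ) [Fact p.Prime] {k : ℕ} (hk : 0 < k) : ∑ x : ZMod p, x ^ k =
    if p - 1 ∣ k then (-1 : ZMod p) else 0 := by
  classical
  have h1 := FiniteField.sum_pow_units (ZMod p) k
  rw [ZMod.card] at h1
  rw [← h1]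
  have h2 : ∑ x : (ZMod p)ˣ, ((x : ZMod p) ^ k) =
      ∑ x ∈ (Finset.univ : Finset (ZMod p)).erase 0, x ^ k := by
    refine Finset.sum_bij (fun x _ => (x : ZMod p)) ?_ ?_ ?_ ?_
    · intro x _
      simp
    · intro x _ y _ h
      exact Units.ext h
    · intro x hx
      rw [Finset.mem_erase] at hx
      exact ⟨Units.mk0 x hx.1, Finset.mem_univ _, rfl⟩
    · intro x _
      rfl
  rw [h2, ← Finset.add_sum_erase Finset.univ (fun x : ZMod p => x ^ k) (Finset.mem_univ 0)]
  simp [hk.ne']

private theorem ba9_weight (p : ℕ) [Fact p.Prime] {i₀ : ℕ} (hi : i₀ < p) :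
    ∃ c : ZMod p → ZMod p, ∑ u, c u * u ^ i₀ = 1 ∧
      ∀ i, i ≠ i₀ → i < i₀ + (p - 1) → ∑ u, c u * u ^ i = 0 := by
  classical
  have hp := (Fact.out : p.Prime).two_le
  rcases Nat.eq_zero_or_pos i₀ with rfl | h0
  · refine ⟨fun u => if u = 0 then 1 else 0, ?_, ?_⟩
    · simp
    · intro i hi' _
      simp [hi']
  · have e1 : ∀ i, ∑ u : ZMod p, (-u ^ (p - 1 - i₀)) * u ^ i = -∑ u : ZMod p, u ^ (p - 1 - i₀ + i) := by
      intro i
      rw [← Finset.sum_neg_distrib]
      refine Finset.sum_congr rfl fun u _ => ?_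
      rw [pow_add]
      ring
    refine ⟨fun u => -u ^ (p - 1 - i₀), ?_, ?_⟩
    · rw [e1, ba9_sum_pos p (by omega), if_pos, neg_neg]
      have h1 : p - 1 - i₀ + i₀ = p - 1 := by omega
      rw [h1]
    · intro i h1 h2
      rw [e1, neg_eq_zero]
      rcases Nat.eq_zero_or_pos (p - 1 - i₀ + i) with h3 | h3
      · rw [h3]
        simp
      · rw [ba9_sum_pos p h3, if_neg]
        rintro ⟨c, hc⟩
        have h4 : c < 2 := by
          by_contra h5
          push Not at h5
          have h6 : (p - 1) * 2 ≤ (p - 1) * c := Nat.mul_le_mul_left _ h5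
          omega
        interval_cases c
        · omega
        · omega

private theorem ba9_bound (P : A[X][X]) : ∃ m : ℕ, ∀ i j, m ≤ i ∨ m ≤ j → cf P i j = 0 := by
  refine ⟨P.natDegree + 1 + ∑ i ∈ Finset.range (P.natDegree + 1), ((P.coeff i).natDegree + 1), ?_⟩
  intro i j h
  unfold cf
  by_cases hi : P.natDegree < i
  · rw [coeff_eq_zero_of_natDegree_lt hi, coeff_zero]
  · have h1 : (P.coeff i).natDegree + 1 ≤
        ∑ i ∈ Finset.range (P.natDegree + 1), ((P.coeff i).natDegree + 1) :=
      Finset.single_le_sum (f := fun i => (P.coeff i).natDegree + 1) (fun _ _ => Nat.zero_le _)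
        (Finset.mem_range.2 (by omega))
    apply coeff_eq_zero_of_natDegree_lt
    omega

/-- If `P` vanishes at all points, then for `i, j < p` the sum of the coefficients
`P_{i + k (p-1), j + l (p-1)}` (`k = 0` if `i = 0`, `l = 0` if `j = 0`) is zero; so if `P ∈ J k`
then `P_{ij}` lies `p - 1` steps deeper than expected. (A polynomial of degree `< p` in both
variables which vanishes at all points is zero; replace `s^(i + k (p-1))` by `s^i` for `i ≥ 1`.) -/
theorem cf_mem_of_vanish (𝔽 : Filt (ZMod p) A) {k : ℕ} {P : A[X][X]} (hP : J 𝔽 k P)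
    (h : ∀ u v : ZMod p, evPt u v P = 0) {i j : ℕ} (hi : i < p) (hj : j < p) :
    cf P i j ∈ 𝔽.F (i + j + k + (p - 1)) := by
  obtain ⟨m, hm⟩ := ba9_bound P
  obtain ⟨c, hc1, hc2⟩ := ba9_weight p hi
  obtain ⟨d, hd1, hd2⟩ := ba9_weight p hj
  -- enlarge `m`
  obtain ⟨M, hMi, hMj, hM⟩ : ∃ M : ℕ, i < M ∧ j < M ∧ ∀ a b, M ≤ a ∨ M ≤ b → cf P a b = 0 :=
    ⟨m + i + j + 1, by omega, by omega, fun a b hab => hm a b (by omega)⟩
  have h1 : ∑ u : ZMod p, ∑ v : ZMod p, (c u * d v) • evPt u v P =
      ∑ a ∈ Finset.range M, ∑ b ∈ Finset.range M,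
        ((∑ u, c u * u ^ a) * ∑ v, d v * v ^ b) • cf P a b := by
    have e1 : ∀ u v : ZMod p, (c u * d v) • evPt u v P = ∑ a ∈ Finset.range M,
        ∑ b ∈ Finset.range M, ((c u * u ^ a) * (d v * v ^ b)) • cf P a b := by
      intro u v
      rw [evPt_eq u v P M hM, Finset.smul_sum]
      refine Finset.sum_congr rfl fun a _ => ?_
      rw [Finset.smul_sum]
      refine Finset.sum_congr rfl fun b _ => ?_
      rw [smul_smul]
      congr 1
      ring
    have e2 : ∀ a b : ℕ, ((∑ u, c u * u ^ a) * ∑ v, d v * v ^ b) • cf P a b =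
        ∑ u : ZMod p, ∑ v : ZMod p, ((c u * u ^ a) * (d v * v ^ b)) • cf P a b := by
      intro a b
      rw [Finset.sum_mul_sum, Finset.sum_smul]
      exact Finset.sum_congr rfl fun u _ => Finset.sum_smul
    simp only [e1, e2]
    have e3 : ∀ u : ZMod p, ∑ v : ZMod p, ∑ a ∈ Finset.range M, ∑ b ∈ Finset.range M,
        ((c u * u ^ a) * (d v * v ^ b)) • cf P a b = ∑ a ∈ Finset.range M,
        ∑ b ∈ Finset.range M, ∑ v : ZMod p, ((c u * u ^ a) * (d v * v ^ b)) • cf P a b := by
      intro u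
      rw [Finset.sum_comm]
      exact Finset.sum_congr rfl fun a _ => Finset.sum_comm
    simp only [e3]
    rw [Finset.sum_comm]
    exact Finset.sum_congr rfl fun a _ => Finset.sum_comm
  simp only [h, smul_zero, Finset.sum_const_zero] at h1
  rw [← Finset.add_sum_erase _ _ (Finset.mem_range.2 hMi),
    ← Finset.add_sum_erase _ _ (Finset.mem_range.2 hMj), hc1, hd1, mul_one, one_smul] at h1
  have h2 : cf P i j = -(∑ b ∈ (Finset.range M).erase j,
      ((1 : ZMod p) * ∑ v, d v * v ^ b) • cf P i b +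
      ∑ a ∈ (Finset.range M).erase i, ∑ b ∈ Finset.range M,
        ((∑ u, c u * u ^ a) * ∑ v, d v * v ^ b) • cf P a b) := by
    rw [eq_neg_iff_add_eq_zero, ← add_assoc]
    exact h1.symm
  rw [h2]
  refine Submodule.neg_mem _ (Submodule.add_mem _ (Submodule.sum_mem _ fun b hb => ?_)
    (Submodule.sum_mem _ fun a ha => Submodule.sum_mem _ fun b hb => ?_))
  · have hb' := Finset.ne_of_mem_erase hb
    by_cases hlt : b < j + (p - 1)
    · rw [hd2 b hb' hlt, mul_zero, zero_smul]
      exact Submodule.zero_mem _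
    · exact Submodule.smul_mem _ _ (𝔽.mono (by omega) (hP i b))
  · have ha' := Finset.ne_of_mem_erase ha
    by_cases hlt : a < i + (p - 1)
    · rw [hc2 a ha' hlt, zero_mul, zero_smul]
      exact Submodule.zero_mem _
    · by_cases hbj : b = j
      · rw [hbj]
        exact Submodule.smul_mem _ _ (𝔽.mono (by omega) (hP a j))
      · by_cases hlt' : b < j + (p - 1)
        · rw [hd2 b hbj hlt', mul_zero, zero_smul]
          exact Submodule.zero_mem _
        · exact Submodule.smul_mem _ _ (𝔽.mono (by omega) (hP a b))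

end points

end Helper44.BL
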