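import Pool.Agent.Helper44.BA.Kp

/-!
# BA-8: polynomials in two central variables over a filtered algebra
-/

namespace Helper44.BL

open Polynomial

section cf

variable {A : Type} [Ring A]

/-- the coefficient of `s^i t^j` (`s` is the outer variable, `t` the inner one) -/
noncomputable def cf (P : A[X][X]) (i j : ℕ) : A := (P.coeff i).coeff j

theorem cf_ext {P Q : A[X][X]} (h : ∀ i j, cf P i j = cf Q i j) : P = Q := by
  apply Polynomial.ext
  intro i
  apply Polynomial.ext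
  intro j
  exact h i j

theorem cf_zero (i j : ℕ) : cf (0 : A[X][X]) i j = 0 := by
  unfold cf
  rw [coeff_zero, coeff_zero]

theorem cf_add (P Q : A[X][X]) (i j : ℕ) : cf (P + Q) i j = cf P i j + cf Q i j := by
  unfold cf
  rw [coeff_add, coeff_add]

theorem cf_neg (P : A[X][X]) (i j : ℕ) : cf (-P) i j = -cf P i j := by
  unfold cf
  rw [coeff_neg, coeff_neg]

theorem cf_sub (P Q : A[X][X]) (i j : ℕ) : cf (P - Q) i j = cf P i j - cf Q i j := by
  unfold cf
  rw [coeff_sub, coeff_sub]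

theorem cf_sum {ι : Type} (s : Finset ι) (P : ι → A[X][X]) (i j : ℕ) :
    cf (∑ k ∈ s, P k) i j = ∑ k ∈ s, cf (P k) i j := by
  unfold cf
  rw [Polynomial.finsetSum_coeff, Polynomial.finsetSum_coeff]

theorem cf_one (i j : ℕ) : cf (1 : A[X][X]) i j = if i = 0 ∧ j = 0 then 1 else 0 := by
  unfold cf
  rw [coeff_one]
  by_cases hi : i = 0
  · rw [if_pos hi, coeff_one]
    by_cases hj : j = 0
    · rw [if_pos hj, if_pos ⟨hi, hj⟩]
    · rw [if_neg hj, if_neg (fun h => hj h.2)]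
  · rw [if_neg hi, coeff_zero, if_neg (fun h => hi h.1)]

theorem cf_CC (a : A) (i j : ℕ) : cf (C (C a) : A[X][X]) i j = if i = 0 ∧ j = 0 then a else 0 := by
  unfold cf
  rw [coeff_C]
  by_cases hi : i = 0
  · rw [if_pos hi, coeff_C]
    by_cases hj : j = 0
    · rw [if_pos hj, if_pos ⟨hi, hj⟩]
    · rw [if_neg hj, if_neg (fun h => hj h.2)]
  · rw [if_neg hi, coeff_zero, if_neg (fun h => hi h.1)]

theorem cf_mul (P Q : A[X][X]) (i j : ℕ) : cf (P * Q) i j =
    ∑ a ∈ Finset.range (i + 1), ∑ b ∈ Finset.range (j + 1), cf P a b * cf Q (i - a) (j - b) := by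
  unfold cf
  rw [coeff_mul, Finset.Nat.sum_antidiagonal_eq_sum_range_succ (fun a b => P.coeff a * Q.coeff b),
    Polynomial.finsetSum_coeff]
  refine Finset.sum_congr rfl fun a _ => ?_
  rw [coeff_mul, Finset.Nat.sum_antidiagonal_eq_sum_range_succ
    (fun b b' => (P.coeff a).coeff b * (Q.coeff (i - a)).coeff b')]

/-- the polynomial with given coefficients in the square `i, j < p` -/
noncomputable def mkP (p : ℕ) (f : ℕ → ℕ → A) : A[X][X] :=
  ∑ i ∈ Finset.range p, ∑ j ∈ Finset.range p, C (C (f i j) * X ^ j) * X ^ i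

theorem cf_mkP (p : ℕ) (f : ℕ → ℕ → A) (i j : ℕ) :
    cf (mkP p f) i j = if i < p ∧ j < p then f i j else 0 := by
  have h1 : ∀ a b : ℕ, cf (C (C (f a b) * X ^ b) * X ^ a : A[X][X]) i j =
      if i = a then (if j = b then f a b else 0) else 0 := by
    intro a b
    unfold cf
    rw [coeff_C_mul_X_pow]
    by_cases hi : i = a
    · rw [if_pos hi, if_pos hi, coeff_C_mul_X_pow]
    · rw [if_neg hi, if_neg hi, coeff_zero]
  unfold mkP
  rw [cf_sum]
  have h2 : ∀ a ∈ Finset.range p,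
      cf (∑ b ∈ Finset.range p, (C (C (f a b) * X ^ b) * X ^ a : A[X][X])) i j =
      if i = a then (if j < p then f a j else 0) else 0 := by
    intro a _
    rw [cf_sum]
    simp only [h1]
    by_cases hi : i = a
    · simp only [if_pos hi]
      rw [Finset.sum_ite_eq]
      simp only [Finset.mem_range]
    · simp only [if_neg hi]
      exact Finset.sum_const_zero
  rw [Finset.sum_congr rfl h2, Finset.sum_ite_eq]
  simp only [Finset.mem_range]
  by_cases hi : i < p
  · by_cases hj : j < p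
    · rw [if_pos hi, if_pos hj, if_pos ⟨hi, hj⟩]
    · rw [if_pos hi, if_neg hj, if_neg (fun h => hj h.2)]
  · rw [if_neg hi, if_neg (fun h => hi h.1)]

/-- agreement in the square `i, j < p` -/
def EqP (p : ℕ) (P Q : A[X][X]) : Prop := ∀ i < p, ∀ j < p, cf P i j = cf Q i j

theorem EqP.mul {p : ℕ} {P Q P' Q' : A[X][X]} (h : EqP p P Q) (h' : EqP p P' Q') :
    EqP p (P * P') (Q * Q') := by
  intro i hi j hj
  rw [cf_mul, cf_mul]
  refine Finset.sum_congr rfl fun a ha => Finset.sum_congr rfl fun b hb => ?_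
  rw [Finset.mem_range] at ha hb
  rw [h a (by omega) b (by omega), h' (i - a) (by omega) (j - b) (by omega)]

end cf

section J

variable {K A : Type} [Field K] [Ring A] [Algebra K A] (𝔽 : Filt K A)

/-- `J k`: the coefficient of `s^i t^j` lies in `F (i + j + k)` -/
def J (k : ℕ) (P : A[X][X]) : Prop := ∀ i j, cf P i j ∈ 𝔽.F (i + j + k)

variable {𝔽}

theorem J.mono {m n : ℕ} (h : m ≤ n) {P : A[X][X]} (hP : J 𝔽 n P) : J 𝔽 m P := by
  intro i j
  exact 𝔽.mono (by omega) (hP i j)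

theorem J.add {n : ℕ} {P Q : A[X][X]} (hP : J 𝔽 n P) (hQ : J 𝔽 n Q) : J 𝔽 n (P + Q) := by
  intro i j
  rw [cf_add]
  exact Submodule.add_mem _ (hP i j) (hQ i j)

theorem J.neg {n : ℕ} {P : A[X][X]} (hP : J 𝔽 n P) : J 𝔽 n (-P) := by
  intro i j
  rw [cf_neg]
  exact Submodule.neg_mem _ (hP i j)

theorem J.sub {n : ℕ} {P Q : A[X][X]} (hP : J 𝔽 n P) (hQ : J 𝔽 n Q) : J 𝔽 n (P - Q) := by
  intro i j
  rw [cf_sub]
  exact Submodule.sub_mem _ (hP i j) (hQ i j)

theorem J.sum {n : ℕ} {ι : Type} (s : Finset ι) (P : ι → A[X][X]) (h : ∀ k ∈ s, J 𝔽 n (P k)) :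
    J 𝔽 n (∑ k ∈ s, P k) := by
  intro i j
  rw [cf_sum]
  exact Submodule.sum_mem _ fun k hk => h k hk i j

theorem J.one : J 𝔽 0 (1 : A[X][X]) := by
  intro i j
  rw [cf_one]
  split_ifs with h
  · obtain ⟨rfl, rfl⟩ := h
    exact 𝔽.one_mem
  · exact Submodule.zero_mem _

theorem J.mul {m n : ℕ} {P Q : A[X][X]} (hP : J 𝔽 m P) (hQ : J 𝔽 n Q) : J 𝔽 (m + n) (P * Q) := by
  intro i j
  rw [cf_mul]
  refine Submodule.sum_mem _ fun a ha => Submodule.sum_mem _ fun b hb => ?_
  rw [Finset.mem_range] at ha hb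
  exact 𝔽.mono (by omega) (𝔽.mul _ _ (hP a b) (hQ (i - a) (j - b)))

theorem J.pow {P : A[X][X]} (hP : J 𝔽 0 P) (n : ℕ) : J 𝔽 0 (P ^ n) := by
  induction n with
  | zero =>
    rw [pow_zero]
    exact J.one
  | succ n ih =>
    rw [pow_succ]
    exact J.mul ih hP

theorem J.CC {n : ℕ} {a : A} (ha : a ∈ 𝔽.F n) : J 𝔽 n (C (C a) : A[X][X]) := by
  intro i j
  rw [cf_CC]
  split_ifs with h
  · obtain ⟨rfl, rfl⟩ := h
    rw [Nat.zero_add]
    exact 𝔽.mono (by omega) ha
  · exact Submodule.zero_mem _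

end J

end Helper44.BL
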