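import Pool.Agent.Helper44.BA.PowId
import Pool.Agent.Helper44.BL.Act

/-!
# BA-12: the elements `∑_n arrE n i j` of the filtered algebra
-/

namespace Helper44.BL

open Polynomial Finset

section aux

/-- `x^n z = ∑ C(n, a) (ad x)^a z x^(n-a)` -/
private theorem pow_mul_adn {B : Type} [Ring B] (x z : B) (n : ℕ) :
    x ^ n * z = ∑ a ∈ range (n + 1), (n.choose a) • (adn x z a * x ^ (n - a)) := by
  have h1 : ∀ m, adn x z m = ((LinearMap.mulLeft ℤ x - LinearMap.mulRight ℤ x) ^ m) z := by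
    intro m
    induction m with
    | zero => simp [adn]
    | succ m ih =>
      rw [pow_succ', Module.End.mul_apply, ← ih]
      simp only [adn, LinearMap.sub_apply, LinearMap.mulRight_apply, LinearMap.mulLeft_apply]
  have hc : Commute (LinearMap.mulLeft ℤ x - LinearMap.mulRight ℤ x) (LinearMap.mulRight ℤ x) := by
    apply LinearMap.ext
    intro w
    simp [Module.End.mul_apply, mul_assoc, sub_mul]
  have h2 : (LinearMap.mulLeft ℤ x) ^ n =
      ((LinearMap.mulLeft ℤ x - LinearMap.mulRight ℤ x) + LinearMap.mulRight ℤ x) ^ n := by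
    rw [sub_add_cancel]
  have h3 : x ^ n * z = ((LinearMap.mulLeft ℤ x) ^ n) z := by
    rw [LinearMap.pow_mulLeft, LinearMap.mulLeft_apply]
  rw [h3, h2, hc.add_pow, LinearMap.sum_apply]
  apply sum_congr rfl
  intro a _
  have hcc : Commute ((LinearMap.mulLeft ℤ x - LinearMap.mulRight ℤ x) ^ a)
      (LinearMap.mulRight ℤ x ^ (n - a)) := hc.pow_pow _ _
  rw [hcc.eq, Module.End.mul_apply, Module.End.mul_apply]
  have h4 : ((n.choose a : ℕ) : Module.End ℤ B) z = (n.choose a) • z := by simp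
  rw [h4, map_nsmul, map_nsmul, ← h1, LinearMap.pow_mulRight, LinearMap.mulRight_apply]

variable {p : ℕ} [Fact p.Prime] {A : Type} [Ring A] [Algebra (ZMod p) A]

private theorem fact_ne' {k : ℕ} (hk : k < p) : (k.factorial : ZMod p) ≠ 0 := by
  intro h
  rw [ZMod.natCast_eq_zero_iff] at h
  exact absurd ((Nat.Prime.dvd_factorial (Fact.out : p.Prime)).1 h) (by omega)

/-- the divided form for `n < p` -/
private theorem div_pow_mul (x z : A) {n : ℕ} (hn : n < p) :
    (((n.factorial : ZMod p)⁻¹) • x ^ n) * z = ∑ a ∈ range (n + 1),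
      (((a.factorial : ZMod p)⁻¹) • adn x z a) * (((n - a).factorial : ZMod p)⁻¹ • x ^ (n - a)) := by
  rw [smul_mul_assoc, pow_mul_adn, smul_sum]
  apply sum_congr rfl
  intro a ha
  have ha' : a ≤ n := by
    have := mem_range.1 ha
    omega
  rw [smul_mul_smul_comm, ← Nat.cast_smul_eq_nsmul (ZMod p), smul_smul]
  congr 1
  have h1 := fact_ne' (p := p) hn
  have h2 := fact_ne' (p := p) (k := a) (by omega)
  have h3 := fact_ne' (p := p) (k := n - a) (by omega)
  have h4 : ((n.choose a : ℕ) : ZMod p) * (a.factorial : ZMod p) * ((n - a).factorial : ZMod p) =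
      (n.factorial : ZMod p) := by
    rw [← Nat.cast_mul, ← Nat.cast_mul, Nat.choose_mul_factorial_mul_factorial ha']
  field_simp
  rw [← h4]

/-- reindexing of a triangular sum -/
private theorem tri {E : Type} [AddCommMonoid E] (F : ℕ → ℕ → ℕ → E) (i : ℕ) :
    ∑ c ∈ range (i + 1), ∑ a ∈ range (c + 1), F (c - a) a (i - c) =
      ∑ m ∈ range (i + 1), ∑ a ∈ range (i - m + 1), F m a (i - m - a) := by
  rw [sum_sigma', sum_sigma']
  refine sum_bij' (fun x _ => (⟨x.1 - x.2, x.2⟩ : Σ _ : ℕ, ℕ))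
    (fun x _ => (⟨x.1 + x.2, x.2⟩ : Σ _ : ℕ, ℕ)) ?_ ?_ ?_ ?_ ?_
  · rintro ⟨c, a⟩ hx
    simp only [mem_sigma, mem_range] at hx ⊢
    omega
  · rintro ⟨m, a⟩ hx
    simp only [mem_sigma, mem_range] at hx ⊢
    omega
  · rintro ⟨c, a⟩ hx
    simp only [mem_sigma, mem_range] at hx
    have : c - a + a = c := by omega
    simp [this]
  · rintro ⟨m, a⟩ hx
    simp
  · rintro ⟨c, a⟩ hx
    simp only [mem_sigma, mem_range] at hx
    have : i - (c - a) - a = i - c := by omega
    simp [this]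

/-- the one variable identity -/
private theorem key_sum (x : A) (g : ℕ → A) {i : ℕ} (hi : i < p) :
    ∑ a ∈ range (i + 1), (((a.factorial : ZMod p)⁻¹) • x ^ a) * g (i - a) =
      ∑ c ∈ range (i + 1),
        (∑ a ∈ range (c + 1), ((a.factorial : ZMod p)⁻¹) • adn x (g (c - a)) a) *
          (((i - c).factorial : ZMod p)⁻¹ • x ^ (i - c)) := by
  have h1 := tri (fun m a b => (((a.factorial : ZMod p)⁻¹) • adn x (g m) a) *
    ((b.factorial : ZMod p)⁻¹ • x ^ b)) i
  have h2 : ∑ c ∈ range (i + 1),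
        (∑ a ∈ range (c + 1), ((a.factorial : ZMod p)⁻¹) • adn x (g (c - a)) a) *
          (((i - c).factorial : ZMod p)⁻¹ • x ^ (i - c)) =
      ∑ c ∈ range (i + 1), ∑ a ∈ range (c + 1), (((a.factorial : ZMod p)⁻¹) • adn x (g (c - a)) a) *
        (((i - c).factorial : ZMod p)⁻¹ • x ^ (i - c)) :=
    sum_congr rfl fun c _ => sum_mul _ _ _
  rw [h2, h1]
  have h3 : ∀ m ∈ range (i + 1), ∑ a ∈ range (i - m + 1),
      (((a.factorial : ZMod p)⁻¹) • adn x (g m) a) *
        (((i - m - a).factorial : ZMod p)⁻¹ • x ^ (i - m - a)) =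
      (((i - m).factorial : ZMod p)⁻¹ • x ^ (i - m)) * g m := by
    intro m _
    rw [div_pow_mul x (g m) (n := i - m) (by omega)]
  rw [sum_congr rfl h3, ← sum_range_reflect]
  apply sum_congr rfl
  intro a ha
  have ha' := mem_range.1 ha
  have e1 : i + 1 - 1 - a = i - a := by omega
  have e2 : i - (i - a) = a := by omega
  rw [e1, e2]

private theorem EqP.refl' {q : ℕ} {B : Type} [Ring B] (P : B[X][X]) : EqP q P P :=
  fun _ _ _ _ => rfl

private theorem EqP.trans' {q : ℕ} {B : Type} [Ring B] {P Q R : B[X][X]} (h : EqP q P Q)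
    (h' : EqP q Q R) : EqP q P R :=
  fun i hi j hj => (h i hi j hj).trans (h' i hi j hj)

private theorem cf_ES_mul (x : A) (P : A[X][X]) {i j : ℕ} (hi : i < p) :
    cf (ES p x * P) i j =
      ∑ a ∈ range (i + 1), (((a.factorial : ZMod p)⁻¹) • x ^ a) * cf P (i - a) j := by
  rw [cf_mul]
  apply sum_congr rfl
  intro a ha
  have ha' := mem_range.1 ha
  rw [sum_eq_single 0]
  · rw [cf_ES, if_pos ⟨by omega, rfl⟩, Nat.sub_zero]
  · intro b _ hb
    rw [cf_ES, if_neg (by tauto), zero_mul]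
  · intro h
    exact absurd (mem_range.2 (Nat.succ_pos j)) h

private theorem cf_mul_ES (x : A) (P : A[X][X]) {i j : ℕ} (hi : i < p) :
    cf (P * ES p x) i j =
      ∑ c ∈ range (i + 1), cf P c j * (((i - c).factorial : ZMod p)⁻¹ • x ^ (i - c)) := by
  rw [cf_mul]
  apply sum_congr rfl
  intro c hc
  have hc' := mem_range.1 hc
  rw [sum_eq_single j]
  · rw [cf_ES, if_pos ⟨by omega, by omega⟩]
  · intro b hb hbj
    have hb' := mem_range.1 hb
    rw [cf_ES, if_neg, mul_zero]
    rintro ⟨_, h⟩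
    omega
  · intro h
    exact absurd (mem_range.2 (Nat.lt_succ_self j)) h

private theorem cf_ET_mul (y : A) (P : A[X][X]) {i j : ℕ} (hj : j < p) :
    cf (ET p y * P) i j =
      ∑ b ∈ range (j + 1), (((b.factorial : ZMod p)⁻¹) • y ^ b) * cf P i (j - b) := by
  rw [cf_mul, sum_eq_single 0]
  · apply sum_congr rfl
    intro b hb
    have hb' := mem_range.1 hb
    rw [cf_ET, if_pos ⟨rfl, by omega⟩, Nat.sub_zero]
  · intro a _ ha
    apply sum_eq_zero
    intro b _
    rw [cf_ET, if_neg (by tauto), zero_mul]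
  · intro h
    exact absurd (mem_range.2 (Nat.succ_pos i)) h

private theorem cf_mul_ET (y : A) (P : A[X][X]) {i j : ℕ} (hj : j < p) :
    cf (P * ET p y) i j =
      ∑ c ∈ range (j + 1), cf P i c * (((j - c).factorial : ZMod p)⁻¹ • y ^ (j - c)) := by
  rw [cf_mul, sum_eq_single i]
  · apply sum_congr rfl
    intro b hb
    have hb' := mem_range.1 hb
    rw [cf_ET, if_pos ⟨by omega, by omega⟩]
  · intro a ha hai
    have ha' := mem_range.1 ha
    apply sum_eq_zero
    intro b _
    rw [cf_ET, if_neg, mul_zero]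
    rintro ⟨h, _⟩
    omega
  · intro h
    exact absurd (mem_range.2 (Nat.lt_succ_self i)) h

private theorem adn_sum {B ι : Type} [Ring B] (x : B) (s : Finset ι) (g : ι → B) (n : ℕ) :
    adn x (∑ k ∈ s, g k) n = ∑ k ∈ s, adn x (g k) n := by
  induction n with
  | zero => rfl
  | succ n ih =>
    show x * adn x (∑ k ∈ s, g k) n - adn x (∑ k ∈ s, g k) n * x = _
    rw [ih, mul_sum, sum_mul, ← sum_sub_distrib]
    rfl

private theorem adn_smul (x z : A) (c : ZMod p) (n : ℕ) : adn x (c • z) n = c • adn x z n := by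
  induction n with
  | zero => rfl
  | succ n ih =>
    show x * adn x (c • z) n - adn x (c • z) n * x = c • (x * adn x z n - adn x z n * x)
    rw [ih, mul_smul_comm, smul_mul_assoc, smul_sub]

end aux

variable {p : ℕ} [Fact p.Prime] {A : Type} [Ring A] [Algebra (ZMod p) A]

/-- `e^{s x} z = (e^{s ad x} z) e^{s x}` in the square `i, j < p` -/
theorem ES_conj (x : A) (f : ℕ → ℕ → A) : EqP p (ES p x * mkP p f)
    (mkP p (fun i j => ∑ a ∈ range (i + 1), ((a.factorial : ZMod p)⁻¹) • adn x (f (i - a) j) a) *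
      ES p x) := by
  intro i hi j hj
  rw [cf_ES_mul x _ hi, cf_mul_ES x _ hi]
  have h1 : ∀ a ∈ range (i + 1), (((a.factorial : ZMod p)⁻¹) • x ^ a) * cf (mkP p f) (i - a) j =
      (((a.factorial : ZMod p)⁻¹) • x ^ a) * f (i - a) j := by
    intro a _
    rw [cf_mkP, if_pos ⟨by omega, hj⟩]
  rw [sum_congr rfl h1, key_sum x (fun m => f m j) hi]
  apply sum_congr rfl
  intro c hc
  have hc' := mem_range.1 hc
  rw [cf_mkP, if_pos ⟨by omega, hj⟩]

theorem ET_conj (y : A) (f : ℕ → ℕ → A) : EqP p (ET p y * mkP p f)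
    (mkP p (fun i j => ∑ b ∈ range (j + 1), ((b.factorial : ZMod p)⁻¹) • adn y (f i (j - b)) b) *
      ET p y) := by
  intro i hi j hj
  rw [cf_ET_mul y _ hj, cf_mul_ET y _ hj]
  have h1 : ∀ b ∈ range (j + 1), (((b.factorial : ZMod p)⁻¹) • y ^ b) * cf (mkP p f) i (j - b) =
      (((b.factorial : ZMod p)⁻¹) • y ^ b) * f i (j - b) := by
    intro b _
    rw [cf_mkP, if_pos ⟨hi, by omega⟩]
  rw [sum_congr rfl h1, key_sum y (fun m => f i m) hj]
  apply sum_congr rfl
  intro c hc
  have hc' := mem_range.1 hc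
  rw [cf_mkP, if_pos ⟨hi, by omega⟩]

/-- `h^n z = (arrE n) h^n` in the square, with `h = ET y * ES x` (induction on `n`; `adn` is
additive and homogeneous) -/
theorem pow_conj (x y z : A) (n : ℕ) : EqP p ((ET p y * ES p x) ^ n * C (C z))
    (mkP p (arrE p (R := ZMod p) x y z n) * (ET p y * ES p x) ^ n) := by
  induction n with
  | zero =>
    rw [pow_zero, one_mul, mul_one]
    intro i hi j hj
    rw [cf_mkP, if_pos (⟨hi, hj⟩ : i < p ∧ j < p), cf_CC]
    rfl
  | succ n ih =>
    set h := ET p y * ES p x with hh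
    have e1 : h ^ (n + 1) * C (C z) = h * (h ^ n * C (C z)) := by
      rw [pow_succ', mul_assoc]
    have e2 : EqP p (h * (h ^ n * C (C z))) (h * (mkP p (arrE p (R := ZMod p) x y z n) * h ^ n)) :=
      (EqP.refl' h).mul ih
    set g : ℕ → ℕ → A := arrE p (R := ZMod p) x y z n with hg
    have e3 : EqP p (h * mkP p g) (mkP p (arrE p (R := ZMod p) x y z (n + 1)) * h) := by
      have f1 : h * mkP p g = ET p y * (ES p x * mkP p g) := by rw [hh, mul_assoc]
      have f2 := (EqP.refl' (q := p) (ET p y)).mul (ES_conj (p := p) x g)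
      have f3 := (ET_conj (p := p) y (fun i j => ∑ a ∈ range (i + 1),
        ((a.factorial : ZMod p)⁻¹) • adn x (g (i - a) j) a)).mul (EqP.refl' (ES p x))
      rw [f1]
      refine f2.trans' ?_
      rw [← mul_assoc]
      refine f3.trans' ?_
      rw [mul_assoc, ← hh]
      refine EqP.mul ?_ (EqP.refl' h)
      intro i hi j hj
      rw [cf_mkP, cf_mkP, if_pos ⟨hi, hj⟩, if_pos ⟨hi, hj⟩]
      show _ = ∑ a ∈ Finset.range (i + 1), ∑ b ∈ Finset.range (j + 1),
        (iv p (ZMod p) a * iv p (ZMod p) b) • adn y (adn x (g (i - a) (j - b)) a) b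
      rw [sum_comm]
      apply sum_congr rfl
      intro b _
      rw [adn_sum, smul_sum]
      apply sum_congr rfl
      intro a _
      rw [adn_smul, smul_smul]
      congr 1
      rw [mul_comm]
      rfl
    rw [e1]
    refine e2.trans' ?_
    rw [← mul_assoc, pow_succ', ← mul_assoc]
    exact e3.mul (EqP.refl' (h ^ n))

/-- If `M = Z V` in the square with `V - 1 ∈ J 1` and `M ∈ J 3` (in the square) then `Z ∈ J 3`
(in the square): strong induction on `i + j`. -/
theorem cf_mem_of_mul (𝔽 : Filt (ZMod p) A) {Z V : A[X][X]}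
    (hV : ∀ i < p, ∀ j < p, cf (V - 1) i j ∈ 𝔽.F (i + j + 1))
    (hM : ∀ i < p, ∀ j < p, cf (Z * V) i j ∈ 𝔽.F (i + j + 3)) :
    ∀ i < p, ∀ j < p, cf Z i j ∈ 𝔽.F (i + j + 3) := by
  suffices H : ∀ N i j : ℕ, i + j = N → i < p → j < p → cf Z i j ∈ 𝔽.F (i + j + 3) from
    fun i hi j hj => H _ i j rfl hi hj
  intro N
  induction N using Nat.strong_induction_on with
  | _ N ih =>
    intro i j hN hi hj
    -- expansion
    have h1 : Z * V = Z + Z * (V - 1) := by
      rw [mul_sub, mul_one]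
      abel
    have h2 : cf (Z * V) i j = cf Z i j + cf (Z * (V - 1)) i j := by
      rw [h1, cf_add]
    have h3 : cf (Z * (V - 1)) i j = cf Z i j * cf (V - 1) 0 0 +
        ∑ x ∈ ((range (i + 1)) ×ˢ (range (j + 1))).erase (i, j),
          cf Z x.1 x.2 * cf (V - 1) (i - x.1) (j - x.2) := by
      rw [cf_mul, ← sum_product', ← add_sum_erase _ _ (mem_product.2 ⟨mem_range.2
        (Nat.lt_succ_self i), mem_range.2 (Nat.lt_succ_self j)⟩ :
          (i, j) ∈ (range (i + 1)) ×ˢ (range (j + 1)))]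
      simp only [Nat.sub_self]
    have h4 : ∑ x ∈ ((range (i + 1)) ×ˢ (range (j + 1))).erase (i, j),
          cf Z x.1 x.2 * cf (V - 1) (i - x.1) (j - x.2) ∈ 𝔽.F (i + j + 3) := by
      refine Submodule.sum_mem _ fun x hx => ?_
      obtain ⟨a, b⟩ := x
      rw [mem_erase, mem_product, mem_range, mem_range] at hx
      obtain ⟨hne, ha, hb⟩ := hx
      simp only at ha hb
      have hlt : a + b < N := by
        by_contra hcon
        apply hne
        have h5 : a = i := by omega
        have h6 : b = j := by omega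
        rw [h5, h6]
      have h5 := ih (a + b) hlt a b rfl (by omega) (by omega)
      have h6 := hV (i - a) (by omega) (j - b) (by omega)
      exact 𝔽.mono (by omega) (𝔽.mul _ _ h5 h6)
    have h5 : cf Z i j + cf Z i j * cf (V - 1) 0 0 ∈ 𝔽.F (i + j + 3) := by
      have h6 := Submodule.sub_mem _ (hM i hi j hj) h4
      rw [h2, h3] at h6
      convert h6 using 1
      abel
    have hv : cf (V - 1) 0 0 ∈ 𝔽.F 1 := by
      have := hV 0 (by omega) 0 (by omega)
      simpa using this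
    have h7 : ∀ k, k ≤ i + j + 3 → cf Z i j ∈ 𝔽.F k := by
      intro k
      induction k with
      | zero =>
        intro _
        rw [𝔽.zero]
        exact Submodule.mem_top
      | succ k ihk =>
        intro hk
        have h8 := 𝔽.mul _ _ (ihk (by omega)) hv
        have h9 := Submodule.sub_mem _ (𝔽.mono hk h5) h8
        rwa [add_sub_cancel_right] at h9
    exact h7 _ le_rfl

/-- **The elements `∑_{n < p} arrE n i j`** lie one step deeper than expected. -/
theorem arrE_mem (𝔽 : Filt (ZMod p) A) {x y c : A} (hx : x ∈ 𝔽.F 1) (hy : y ∈ 𝔽.F 1)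
    (hc : c ∈ 𝔽.F 2) (hcc : c - (x * y - y * x) ∈ 𝔽.F 3) (hxp : x ^ p = 0) (hyp : y ^ p = 0)
    (h1 : ∀ u v : ZMod p, ((1 + y) ^ v.val * (1 + x) ^ u.val) ^ p = 1)
    (h2 : ∀ u v : ZMod p, ((1 + c) * ((1 + y) ^ v.val * (1 + x) ^ u.val)) ^ p = 1)
    {i j : ℕ} (hi : i < p) (hj : j < p) :
    ∑ n ∈ range p, arrE p (R := ZMod p) x y (x * y - y * x) n i j ∈ 𝔽.F (i + j + 3) := by
  set c' := x * y - y * x with hc'
  set h := ET p y * ES p x with hh
  set Z : A[X][X] := ∑ n ∈ range p, mkP p (arrE p (R := ZMod p) x y c' n) with hZ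
  have hcfZ : ∀ a < p, ∀ b < p, cf Z a b = ∑ n ∈ range p, arrE p (R := ZMod p) x y c' n a b := by
    intro a ha b hb
    rw [hZ, cf_sum]
    apply sum_congr rfl
    intro n _
    rw [cf_mkP, if_pos ⟨ha, hb⟩]
  have hM : ∀ a < p, ∀ b < p, cf (Z * h ^ p) a b ∈ 𝔽.F (a + b + 3) := by
    intro a ha b hb
    have h3 := (powId 𝔽 hx hy hc hcc hxp hyp h1 h2 ha hb).1
    rw [cf_sum] at h3
    rw [hZ, sum_mul, cf_sum]
    convert h3 using 1
    apply sum_congr rfl
    intro n hn
    have hn' := mem_range.1 hn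
    have h4 := (pow_conj (p := p) x y c' n).mul (EqP.refl' ((ET p y * ES p x) ^ (p - n)))
    have h5 := h4 a ha b hb
    rw [h5, mul_assoc, ← pow_add, show n + (p - n) = p by omega, ← hh]
  have h3 := cf_mem_of_mul 𝔽 (Z := Z) (V := h ^ p)
    (fun a ha b hb => (powId 𝔽 hx hy hc hcc hxp hyp h1 h2 ha hb).2) hM i hi j hj
  rwa [hcfZ i hi j hj] at h3

end Helper44.BL
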